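import Pool.Agent.K6.H47.GL.Stm

/-!
# CH: chase lemmas (helper75 for helper47)
-/

set_option autoImplicit false

open TensorProduct

universe u

namespace Pool.Agent.K6.H47.GL

section

variable {R : Type u} [CommRing R] (C : FlatRes R) {X Y Z : Type u} [AddCommGroup X] [Module R X]
    [AddCommGroup Y] [Module R Y] [AddCommGroup Z] [Module R Z]

theorem ch_comm (f : X →ₗ[R] Y) (p : ℕ) (x : C.F p ⊗[R] X) :
    (C.δ p).rTensor Y (f.lTensor (C.F p) x) = f.lTensor (C.F (p + 1)) ((C.δ p).rTensor X x) := by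
  rw [← LinearMap.comp_apply, ← LinearMap.comp_apply, LinearMap.rTensor_comp_lTensor,
    LinearMap.lTensor_comp_rTensor]

theorem ch_dd (q : ℕ) (h : q + 1 < C.m) (z : C.F q ⊗[R] X) :
    (C.δ (q + 1)).rTensor X ((C.δ q).rTensor X z) = 0 := by
  rw [← LinearMap.comp_apply, ← LinearMap.rTensor_comp, (C.exact q h).linearMap_comp_eq_zero,
    LinearMap.rTensor_zero, LinearMap.zero_apply]

theorem ch_inj {f : X →ₗ[R] Y} (hf : Function.Injective f) (p : ℕ) :
    Function.Injective (f.lTensor (C.F p)) :=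
  haveI := C.flat p
  Module.Flat.lTensor_preserves_injective_linearMap f hf

theorem ch_ker {f : X →ₗ[R] Y} {g : Y →ₗ[R] Z} (h : SES f g) (p : ℕ) (y : C.F p ⊗[R] Y)
    (hy : g.lTensor (C.F p) y = 0) : ∃ x, f.lTensor (C.F p) x = y :=
  (lTensor_exact (C.F p) h.exact h.surj y).1 hy

theorem ch_gf {f : X →ₗ[R] Y} {g : Y →ₗ[R] Z} (h : SES f g) (p : ℕ) (x : C.F p ⊗[R] X) :
    g.lTensor (C.F p) (f.lTensor (C.F p) x) = 0 :=
  (lTensor_exact (C.F p) h.exact h.surj _).2 ⟨x, rfl⟩

theorem ch_surj {f : X →ₗ[R] Y} {g : Y →ₗ[R] Z} (h : SES f g) (p : ℕ) (z : C.F p ⊗[R] Z) :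
    ∃ y, g.lTensor (C.F p) y = z :=
  LinearMap.lTensor_surjective (C.F p) h.surj z

end

theorem t_CH : S_CH := by
  intro R _ C X Y Z _ _ _ _ _ _ f g h
  refine ⟨?_, ?_, ?_⟩
  · intro p hp hX hZ z hz
    have h1 : Bd C Z p (g.lTensor (C.F p) z) := by
      apply hZ
      rw [ch_comm, hz, map_zero]
    cases p with
    | zero =>
      obtain ⟨x, rfl⟩ := ch_ker C h 0 z h1
      rw [ch_comm] at hz
      have h2 : (C.δ 0).rTensor X x = 0 := ch_inj C h.inj 1 (by rw [hz, map_zero])
      have h3 : x = 0 := hX x h2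
      show f.lTensor (C.F 0) x = 0
      rw [h3, map_zero]
    | succ q =>
      obtain ⟨w', hw'⟩ := h1
      obtain ⟨w, rfl⟩ := ch_surj C h q w'
      rw [ch_comm] at hw'
      obtain ⟨x, hx⟩ := ch_ker C h (q + 1) (z - (C.δ q).rTensor Y w)
        (by rw [map_sub, hw', sub_self])
      have h2 : (C.δ (q + 1)).rTensor X x = 0 := by
        apply ch_inj C h.inj (q + 1 + 1)
        rw [← ch_comm, hx, map_sub, hz, ch_dd C q hp, sub_zero, map_zero]
      obtain ⟨x', rfl⟩ := hX x h2
      refine ⟨w + f.lTensor (C.F q) x', ?_⟩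
      rw [map_add, ch_comm, hx]
      abel
  · intro p hp hY hZ x hx
    have h1 : Bd C Y p (f.lTensor (C.F p) x) := by
      apply hY
      rw [ch_comm, hx, map_zero]
    cases p with
    | zero =>
      show x = 0
      exact ch_inj C h.inj 0 (by rw [map_zero]; exact h1)
    | succ q =>
      obtain ⟨u, hu⟩ := h1
      have h2 : Bd C Z q (g.lTensor (C.F q) u) := by
        apply hZ q rfl
        rw [ch_comm, hu, ch_gf C h]
      cases q with
      | zero =>
        obtain ⟨x', rfl⟩ := ch_ker C h 0 u h2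
        refine ⟨x', ?_⟩
        apply ch_inj C h.inj
        rw [← ch_comm, hu]
      | succ s =>
        obtain ⟨v', hv'⟩ := h2
        obtain ⟨v, rfl⟩ := ch_surj C h s v'
        rw [ch_comm] at hv'
        obtain ⟨x', hx'⟩ := ch_ker C h (s + 1) (u - (C.δ s).rTensor Y v)
          (by rw [map_sub, hv', sub_self])
        refine ⟨x', ?_⟩
        apply ch_inj C h.inj
        rw [← ch_comm, hx', map_sub, hu, ch_dd C s (by omega), sub_zero]
  · intro p hp hY hX z hz
    obtain ⟨y, rfl⟩ := ch_surj C h p z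
    rw [ch_comm] at hz
    obtain ⟨x, hx⟩ := ch_ker C h (p + 1) _ hz
    have h1 : (C.δ (p + 1)).rTensor X x = 0 := by
      apply ch_inj C h.inj
      rw [← ch_comm, hx, ch_dd C p hp, map_zero]
    obtain ⟨x', rfl⟩ := hX x h1
    have h2 : Bd C Y p (y - f.lTensor (C.F p) x') := by
      apply hY
      rw [map_sub, ch_comm, hx, sub_self]
    cases p with
    | zero =>
      have h3 : y = f.lTensor (C.F 0) x' := sub_eq_zero.1 h2
      show g.lTensor (C.F 0) y = 0
      rw [h3, ch_gf C h]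
    | succ q =>
      obtain ⟨y', hy'⟩ := h2
      refine ⟨g.lTensor (C.F q) y', ?_⟩
      rw [ch_comm, hy', map_sub, ch_gf C h, sub_zero]

end Pool.Agent.K6.H47.GL
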