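import Mathlib

/-!
# Definitions and statements of the pieces for the Govorov-Lazard property of restricted flat dimension

`FlatRes R`: a finite flat resolution `0 → F 0 → F 1 → ... → F m → T → 0`. `RfdLE R n M`: for each of
them `F ⊗ M` has no homology at `F p ⊗ M` for `p + n < m`, i.e. `Tor_i(T, M) = 0` for `i > n`.

For a family `y` of elements, `Bk y` is the product of the localizations `R[1/y_k]` and
`Qk y = Bk y / R`. For a module `X` the kernel of `eta y X : X → Bk y ⊗ X` consists of the elements
killed by powers of all `y_k`. `W y p X`: the kernel of `eta` on `Q ⊗ ... ⊗ Q ⊗ X` (`p` factors) is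
zero (the `p`-th local cohomology vanishes).
-/

set_option autoImplicit false

open TensorProduct

universe u

namespace Pool.Agent.K6.H47.GL

/-- a finite flat resolution `0 → F 0 → F 1 → ... → F m → T → 0` (the terms beyond `m` play no
role) -/
structure FlatRes (R : Type u) [CommRing R] where
  m : ℕ
  F : ℕ → Type u
  [acg : ∀ p, AddCommGroup (F p)]
  [mod : ∀ p, Module R (F p)]
  flat : ∀ p, Module.Flat R (F p)
  δ : ∀ p, F p →ₗ[R] F (p + 1)
  inj : 0 < m → Function.Injective (δ 0)
  exact : ∀ p, p + 1 < m → Function.Exact (δ p) (δ (p + 1))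

attribute [instance] FlatRes.acg FlatRes.mod FlatRes.flat

/-- boundaries of `F ⊗ X` -/
def Bd {R : Type u} [CommRing R] (C : FlatRes R) (X : Type u) [AddCommGroup X] [Module R X] :
    ∀ p : ℕ, C.F p ⊗[R] X → Prop
  | 0, z => z = 0
  | p + 1, z => z ∈ LinearMap.range ((C.δ p).rTensor X)

/-- the homology at `F p ⊗ X` is zero -/
def ExAt {R : Type u} [CommRing R] (C : FlatRes R) (X : Type u) [AddCommGroup X] [Module R X]
    (p : ℕ) : Prop :=
  ∀ z : C.F p ⊗[R] X, (C.δ p).rTensor X z = 0 → Bd C X p z

/-- the homology at `F p ⊗ X` is killed by `a` -/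
def KillAt {R : Type u} [CommRing R] (C : FlatRes R) (X : Type u) [AddCommGroup X] [Module R X]
    (a : R) (p : ℕ) : Prop :=
  ∀ z : C.F p ⊗[R] X, (C.δ p).rTensor X z = 0 → Bd C X p (a • z)

/-- restricted flat dimension at most `n` -/
def RfdLE (R : Type u) [CommRing R] (n : ℕ) (M : Type u) [AddCommGroup M] [Module R M] : Prop :=
  ∀ (C : FlatRes R) (p : ℕ), p + n < C.m → ExAt C M p

section B

variable {R : Type u} [CommRing R] {r : ℕ} (y : Fin r → R)

/-- the product of the localizations `R[1/y_k]` -/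
abbrev Bk : Type u := ∀ k : Fin r, Localization.Away (y k)

/-- `X → B ⊗ X` -/
noncomputable def eta (X : Type u) [AddCommGroup X] [Module R X] : X →ₗ[R] Bk y ⊗[R] X :=
  TensorProduct.mk R (Bk y) X 1

/-- `B / R` -/
abbrev Qk : Type u := Bk y ⧸ LinearMap.range (Algebra.linearMap R (Bk y))

/-- `B ⊗ X → Q ⊗ X` -/
noncomputable def pr (X : Type u) [AddCommGroup X] [Module R X] :
    Bk y ⊗[R] X →ₗ[R] Qk y ⊗[R] X :=
  (Submodule.mkQ (LinearMap.range (Algebra.linearMap R (Bk y)))).rTensor X

/-- the `p`-th local cohomology vanishes -/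
def W : ℕ → ∀ (X : Type u) [AddCommGroup X] [Module R X], Prop
  | 0, X, _, _ => Function.Injective (eta y X)
  | p + 1, X, _, _ => W p (Qk y ⊗[R] X)

/-- depth at least `e` -/
def Wlt (e : ℕ) (X : Type u) [AddCommGroup X] [Module R X] : Prop := ∀ p < e, W y p X

/-- the `p`-th local cohomology is killed by `a` -/
def GKill : ℕ → R → ∀ (X : Type u) [AddCommGroup X] [Module R X], Prop
  | 0, a, X, _, _ => ∀ x : X, eta y X x = 0 → a • x = 0
  | p + 1, a, X, _, _ => GKill p a (Qk y ⊗[R] X)

/-- the `p`-th local cohomology of `X` is, up to denominators outside `w`, generated by a finitely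
generated submodule killed by a power of `w` -/
def TF (w : Ideal R) : ℕ → ∀ (X : Type u) [AddCommGroup X] [Module R X], Prop
  | 0, X, _, _ => ∃ E : Submodule R X, E.FG ∧ E ≤ LinearMap.ker (eta y X) ∧
      (∃ s : ℕ, ∀ a ∈ w ^ s, ∀ x ∈ E, a • x = 0) ∧
      ∀ x : X, eta y X x = 0 → ∃ c ∉ w, c • x ∈ E
  | p + 1, X, _, _ => TF w p (Qk y ⊗[R] X)

end B

/-- elements outside `w` act bijectively -/
def WLoc {R : Type u} [CommRing R] (w : Ideal R) (X : Type u) [AddCommGroup X] [Module R X] : Prop :=
  ∀ s : R, s ∉ w → Function.Bijective fun x : X => s • x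

/-- localization at `w` -/
abbrev Lw {R : Type u} [CommRing R] (w : Ideal R) [w.IsPrime] (X : Type u) [AddCommGroup X]
    [Module R X] : Type u := LocalizedModule w.primeCompl X

/-- localization of a linear map at `w` -/
noncomputable abbrev Lmap {R : Type u} [CommRing R] (w : Ideal R) [w.IsPrime] {X Y : Type u}
    [AddCommGroup X] [Module R X] [AddCommGroup Y] [Module R Y] (f : X →ₗ[R] Y) :
    Lw w X →ₗ[R] Lw w Y :=
  IsLocalizedModule.map w.primeCompl (LocalizedModule.mkLinearMap w.primeCompl X)
    (LocalizedModule.mkLinearMap w.primeCompl Y) f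

/-- short exact sequences -/
structure SES {R : Type u} [CommRing R] {X Y Z : Type u} [AddCommGroup X] [Module R X]
    [AddCommGroup Y] [Module R Y] [AddCommGroup Z] [Module R Z] (f : X →ₗ[R] Y) (g : Y →ₗ[R] Z) :
    Prop where
  inj : Function.Injective f
  exact : Function.Exact f g
  surj : Function.Surjective g

/-- all positive `Tor` of `C_q` with modules of finite flat dimension vanish, `q` not containing
`w` -/
def Off {R : Type u} [CommRing R] (w : Ideal R) (C : Type u) [AddCommGroup C] [Module R C] : Prop :=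
  ∀ (q : Ideal R) [q.IsPrime], ¬ w ≤ q → ∀ (D : FlatRes R) (p : ℕ), p < D.m → ExAt D (Lw q C) p

/-- the depth condition at `w` for restricted flat dimension at most `n` -/
def Cond {R : Type u} [CommRing R] (n : ℕ) (w : Ideal R) [w.IsPrime] (M : Type u) [AddCommGroup M]
    [Module R M] : Prop :=
  ∀ (r : ℕ) (y : Fin r → R), Ideal.span (Set.range y) = w → ∀ t : ℕ, Wlt y t (Lw w R) →
    ∀ p, p + n < t → W y p (Lw w M)

end Pool.Agent.K6.H47.GL
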