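import Pool.Agent.K6.H47.GL.Stm

/-!
# LG: local-global principles
-/

set_option autoImplicit false

open TensorProduct

universe u

namespace Pool.Agent.K6.H47.GL

section

variable {R : Type u} [CommRing R]

theorem lg_loc (S : Submonoid R) (F M M' : Type u) [AddCommGroup F] [Module R F] [AddCommGroup M]
    [Module R M] [AddCommGroup M'] [Module R M'] (g : M →ₗ[R] M') [IsLocalizedModule S g] :
    IsLocalizedModule S (g.lTensor F) := by
  have h1 : IsLocalizedModule S (g.rTensor F) :=
    inferInstanceAs (IsLocalizedModule S (AlgebraTensorModule.rTensor R F g))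
  have h2 : g.lTensor F = (TensorProduct.comm R M' F).toLinearMap ∘ₗ
      (g.rTensor F ∘ₗ (TensorProduct.comm R F M).toLinearMap) := by
    ext x y
    simp
  rw [h2]
  have h3 : IsLocalizedModule S (g.rTensor F ∘ₗ (TensorProduct.comm R F M).toLinearMap) :=
    IsLocalizedModule.of_linearEquiv_right S (g.rTensor F) (TensorProduct.comm R F M)
  exact IsLocalizedModule.of_linearEquiv S _ (TensorProduct.comm R M' F)

theorem lg_nat (C : FlatRes R) (p : ℕ) {M M' : Type u} [AddCommGroup M]
    [Module R M] [AddCommGroup M'] [Module R M'] (g : M →ₗ[R] M') (z : C.F p ⊗[R] M) :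
    (C.δ p).rTensor M' (g.lTensor (C.F p) z) = g.lTensor (C.F (p + 1)) ((C.δ p).rTensor M z) := by
  rw [← LinearMap.comp_apply, ← LinearMap.comp_apply, LinearMap.rTensor_comp_lTensor,
    LinearMap.lTensor_comp_rTensor]

/-- boundaries map to boundaries -/
theorem lg_bd_map (C : FlatRes R) (p : ℕ) {M M' : Type u} [AddCommGroup M]
    [Module R M] [AddCommGroup M'] [Module R M'] (g : M →ₗ[R] M') (z : C.F p ⊗[R] M)
    (h : Bd C M p z) : Bd C M' p (g.lTensor (C.F p) z) := by
  cases p with
  | zero =>
    change z = 0 at h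
    change _ = 0
    rw [h, map_zero]
  | succ p =>
    obtain ⟨w, rfl⟩ := h
    exact ⟨g.lTensor (C.F p) w, lg_nat C p g w⟩

/-- a cycle which bounds after localization bounds up to a denominator -/
theorem lg_bd (S : Submonoid R) (C : FlatRes R) (p : ℕ) {M M' : Type u} [AddCommGroup M]
    [Module R M] [AddCommGroup M'] [Module R M'] (g : M →ₗ[R] M') [IsLocalizedModule S g]
    (z : C.F p ⊗[R] M) (h : Bd C M' p (g.lTensor (C.F p) z)) : ∃ s ∈ S, Bd C M p (s • z) := by
  have := lg_loc S (C.F p) M M' g
  cases p with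
  | zero =>
    change g.lTensor (C.F 0) z = 0 at h
    obtain ⟨s, hs⟩ := (IsLocalizedModule.eq_zero_iff S (g.lTensor (C.F 0))).1 h
    exact ⟨s, s.2, hs⟩
  | succ p =>
    have := lg_loc S (C.F p) M M' g
    obtain ⟨w, hw⟩ := h
    obtain ⟨⟨w0, s⟩, hs⟩ := IsLocalizedModule.surj S (g.lTensor (C.F p)) w
    have h1 : g.lTensor (C.F (p + 1)) ((s : R) • z) =
        g.lTensor (C.F (p + 1)) ((C.δ p).rTensor M w0) := by
      rw [map_smul, ← hw, ← lg_nat, ← map_smul]
      congr 1
    obtain ⟨t, ht⟩ := IsLocalizedModule.exists_of_eq (S := S) (f := g.lTensor (C.F (p + 1))) h1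
    refine ⟨t * s, S.mul_mem t.2 s.2, (t : R) • w0, ?_⟩
    rw [map_smul, mul_smul]
    exact ht.symm

theorem lg_ex (S : Submonoid R) (C : FlatRes R) (p : ℕ) {M M' : Type u} [AddCommGroup M]
    [Module R M] [AddCommGroup M'] [Module R M'] (g : M →ₗ[R] M') [IsLocalizedModule S g]
    (h : ExAt C M p) : ExAt C M' p := by
  intro z' hz'
  have := lg_loc S (C.F p) M M' g
  have := lg_loc S (C.F (p + 1)) M M' g
  obtain ⟨⟨z, s⟩, hs⟩ := IsLocalizedModule.surj S (g.lTensor (C.F p)) z'
  have hs' : (s : R) • z' = g.lTensor (C.F p) z := hs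
  have h1 : g.lTensor (C.F (p + 1)) ((C.δ p).rTensor M z) = 0 := by
    rw [← lg_nat, ← hs', map_smul, hz', smul_zero]
  obtain ⟨t, ht⟩ := (IsLocalizedModule.eq_zero_iff S (g.lTensor (C.F (p + 1)))).1 h1
  have h2 : (C.δ p).rTensor M ((t : R) • z) = 0 := by
    rw [map_smul]; exact ht
  have h3 := lg_bd_map C p g _ (h _ h2)
  rw [map_smul, ← hs', ← mul_smul] at h3
  have hst : (t : R) * s ∈ S := S.mul_mem t.2 s.2
  cases p with
  | zero =>
    change ((t : R) * s) • z' = 0 at h3
    change z' = 0
    have := IsLocalizedModule.smul_injective (f := g.lTensor (C.F 0)) ⟨_, hst⟩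
      (a₁ := z') (a₂ := 0) (by
        change ((t : R) * s) • z' = ((t : R) * s) • (0 : C.F 0 ⊗[R] M')
        rw [h3, smul_zero])
    exact this
  | succ p =>
    have := lg_loc S (C.F p) M M' g
    obtain ⟨w, hw⟩ := h3
    have hb := (Module.End.isUnit_iff _).1
      (IsLocalizedModule.map_units (g.lTensor (C.F p)) (⟨_, hst⟩ : S))
    obtain ⟨w', hw'⟩ := hb.2 w
    have hw'' : ((t : R) * s) • w' = w := hw'
    refine ⟨w', ?_⟩
    apply IsLocalizedModule.smul_injective (f := g.lTensor (C.F (p + 1))) ⟨_, hst⟩
    change ((t : R) * s) • ((C.δ p).rTensor M' w') = ((t : R) * s) • z'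
    rw [← map_smul, hw'', hw]

theorem lg_iso (C : FlatRes R) (p : ℕ) {X Y : Type u} [AddCommGroup X]
    [Module R X] [AddCommGroup Y] [Module R Y] (e : X ≃ₗ[R] Y) (h : ExAt C X p) : ExAt C Y p := by
  intro z hz
  have h1 : (C.δ p).rTensor X (e.symm.toLinearMap.lTensor (C.F p) z) = 0 := by
    rw [lg_nat, hz, map_zero]
  have h2 := lg_bd_map C p e.toLinearMap _ (h _ h1)
  have h3 : e.toLinearMap.lTensor (C.F p) (e.symm.toLinearMap.lTensor (C.F p) z) = z := by
    rw [← LinearMap.comp_apply, ← LinearMap.lTensor_comp]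
    simp
  rwa [h3] at h2

theorem lg_twice (q w : Ideal R) [q.IsPrime] [w.IsPrime] (hqw : q ≤ w) (M : Type u)
    [AddCommGroup M] [Module R M] :
    IsLocalizedModule q.primeCompl ((LocalizedModule.mkLinearMap q.primeCompl (Lw w M)) ∘ₗ
      (LocalizedModule.mkLinearMap w.primeCompl M)) where
  map_units := IsLocalizedModule.map_units (LocalizedModule.mkLinearMap q.primeCompl (Lw w M))
  surj y := by
    obtain ⟨⟨x, s⟩, hs⟩ := IsLocalizedModule.surj q.primeCompl
      (LocalizedModule.mkLinearMap q.primeCompl (Lw w M)) y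
    obtain ⟨⟨m, t⟩, ht⟩ := IsLocalizedModule.surj w.primeCompl
      (LocalizedModule.mkLinearMap w.primeCompl M) x
    have hs' : (s : R) • y = LocalizedModule.mkLinearMap q.primeCompl (Lw w M) x := hs
    have ht' : (t : R) • x = LocalizedModule.mkLinearMap w.primeCompl M m := ht
    have htq : (t : R) ∈ q.primeCompl := fun h => t.2 (hqw h)
    refine ⟨⟨m, ⟨t, htq⟩ * s⟩, ?_⟩
    change ((t : R) * s) • y = _
    rw [mul_smul, hs', ← map_smul, ht']
    rfl
  exists_of_eq {x₁ x₂} h := by
    obtain ⟨s, hs⟩ := IsLocalizedModule.exists_of_eq (S := q.primeCompl)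
      (f := LocalizedModule.mkLinearMap q.primeCompl (Lw w M)) h
    have hs' : LocalizedModule.mkLinearMap w.primeCompl M ((s : R) • x₁) =
        LocalizedModule.mkLinearMap w.primeCompl M ((s : R) • x₂) := by
      rw [map_smul, map_smul]; exact hs
    obtain ⟨t, ht⟩ := IsLocalizedModule.exists_of_eq (S := w.primeCompl)
      (f := LocalizedModule.mkLinearMap w.primeCompl M) hs'
    have htq : (t : R) ∈ q.primeCompl := fun h => t.2 (hqw h)
    refine ⟨⟨t, htq⟩ * s, ?_⟩
    change ((t : R) * s) • x₁ = ((t : R) * s) • x₂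
    rw [mul_smul, mul_smul]
    exact ht

end

theorem t_LG : S_LG := by
  intro R _ C p M _ _ hp
  refine ⟨fun h z hz => ?_, fun q _ h => ?_, fun q w _ _ hqw h => ?_⟩
  · let I : Ideal R :=
      { carrier := {a | Bd C M p (a • z)}
        add_mem' := by
          intro a b ha hb
          change Bd C M p ((a + b) • z)
          rw [add_smul]
          cases p with
          | zero =>
            change a • z = 0 at ha
            change b • z = 0 at hb
            change _ = 0
            rw [ha, hb, add_zero]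
          | succ p => exact Submodule.add_mem _ ha hb
        zero_mem' := by
          change Bd C M p ((0 : R) • z)
          rw [zero_smul]
          cases p with
          | zero => rfl
          | succ p => exact Submodule.zero_mem _
        smul_mem' := by
          intro c a ha
          change Bd C M p ((c • a) • z)
          rw [smul_eq_mul, mul_smul]
          cases p with
          | zero =>
            change a • z = 0 at ha
            change _ = 0
            rw [ha, smul_zero]
          | succ p => exact Submodule.smul_mem _ _ ha }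
    have hI : I = ⊤ := by
      by_contra hne
      obtain ⟨q, hq, hIq⟩ := Ideal.exists_le_maximal I hne
      have := hq.isPrime
      have h1 : (C.δ p).rTensor (Lw q M)
          ((LocalizedModule.mkLinearMap q.primeCompl M).lTensor (C.F p) z) = 0 := by
        rw [lg_nat, hz, map_zero]
      obtain ⟨s, hs, hbd⟩ := lg_bd q.primeCompl C p
        (LocalizedModule.mkLinearMap q.primeCompl M) z (h q _ h1)
      exact hs (hIq hbd)
    have h1 : (1 : R) ∈ I := by rw [hI]; trivial
    have h2 : Bd C M p ((1 : R) • z) := h1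
    rwa [one_smul] at h2
  · exact lg_ex q.primeCompl C p (LocalizedModule.mkLinearMap q.primeCompl M) h
  · have := lg_twice q w hqw M
    exact lg_iso C p (IsLocalizedModule.linearEquiv q.primeCompl
      (LocalizedModule.mkLinearMap q.primeCompl M)
      ((LocalizedModule.mkLinearMap q.primeCompl (Lw w M)) ∘ₗ
      (LocalizedModule.mkLinearMap w.primeCompl M))) h

end Pool.Agent.K6.H47.GL
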