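import Pool.Agent.K6.H47.GL.Stm

/-!
# Openness of the depth condition along `V(w)`
-/

set_option autoImplicit false

open TensorProduct

universe u

namespace Pool.Agent.K6.H47.GL

namespace OP

variable {R : Type u} [CommRing R]

/-- the statement holds for all primes `q ≥ w` in a neighbourhood of `w` -/
def Near (w : Ideal R) (P : ∀ (q : Ideal R) [q.IsPrime] (r : ℕ) (_ : Fin r → R), Prop) : Prop :=
  ∃ s ∉ w, ∀ (q : Ideal R) [q.IsPrime], w ≤ q → s ∉ q → ∀ (r : ℕ) (y : Fin r → R),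
    Ideal.span (Set.range y) = q → P q r y

theorem Near.and {w : Ideal R} [hw : w.IsPrime]
    {P Q : ∀ (q : Ideal R) [q.IsPrime] (r : ℕ) (_ : Fin r → R), Prop} (h1 : Near w P)
    (h2 : Near w Q) : Near w (fun q _ r y => P q r y ∧ Q q r y) := by
  obtain ⟨s, hs, h⟩ := h1
  obtain ⟨s', hs', h'⟩ := h2
  refine ⟨s * s', fun hm => ?_, fun q _ hq hsq r y hy => ⟨?_, ?_⟩⟩
  · rcases hw.mem_or_mem hm with h | h
    · exact hs h
    · exact hs' h
  · exact h q hq (fun hh => hsq (q.mul_mem_right _ hh)) r y hy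
  · exact h' q hq (fun hh => hsq (q.mul_mem_left _ hh)) r y hy

theorem Near.mono {w : Ideal R}
    {P Q : ∀ (q : Ideal R) [q.IsPrime] (r : ℕ) (_ : Fin r → R), Prop} (h1 : Near w P)
    (h : ∀ (q : Ideal R) [q.IsPrime] (r : ℕ) (y : Fin r → R), w ≤ q →
      Ideal.span (Set.range y) = q → P q r y → Q q r y) : Near w Q := by
  obtain ⟨s, hs, h1⟩ := h1
  exact ⟨s, hs, fun q _ hq hsq r y hy => h q r y hq hy (h1 q hq hsq r y hy)⟩

theorem Near.of_forall {w : Ideal R} [hw : w.IsPrime]
    {Q : ∀ (q : Ideal R) [q.IsPrime] (r : ℕ) (_ : Fin r → R), Prop}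
    (h : ∀ (q : Ideal R) [q.IsPrime] (r : ℕ) (y : Fin r → R), w ≤ q →
      Ideal.span (Set.range y) = q → Q q r y) : Near w Q :=
  ⟨1, fun h1 => hw.ne_top ((Ideal.eq_top_iff_one w).2 h1), fun q _ hq _ r y hy => h q r y hq hy⟩

theorem SES.loc (q : Ideal R) [q.IsPrime] {X Y Z : Type u} [AddCommGroup X] [Module R X]
    [AddCommGroup Y] [Module R Y] [AddCommGroup Z] [Module R Z] {f : X →ₗ[R] Y} {g : Y →ₗ[R] Z}
    (h : SES f g) : SES (Lmap q f) (Lmap q g) :=
  ⟨IsLocalizedModule.map_injective _ _ _ _ h.inj, IsLocalizedModule.map_exact _ _ _ _ _ _ h.exact,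
    IsLocalizedModule.map_surjective _ _ _ _ h.surj⟩

theorem Lmap_lsmul (q : Ideal R) [q.IsPrime] (X : Type u) [AddCommGroup X] [Module R X] (x : R) :
    Lmap q (LinearMap.lsmul R X x) = LinearMap.lsmul R (Lw q X) x := by
  apply IsLocalizedModule.linearMap_ext q.primeCompl
    (LocalizedModule.mkLinearMap q.primeCompl X) (LocalizedModule.mkLinearMap q.primeCompl X)
  refine LinearMap.ext fun z => ?_
  rw [LinearMap.comp_apply, LinearMap.comp_apply, IsLocalizedModule.map_apply,
    LinearMap.lsmul_apply, map_smul, LinearMap.lsmul_apply]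

/-- the localized sequence `0 → X → X → X/xX → 0` -/
theorem ses_x (q : Ideal R) [q.IsPrime] (X : Type u) [AddCommGroup X] [Module R X] (x : R)
    (h : Function.Injective (LinearMap.lsmul R (Lw q X) x)) :
    SES (LinearMap.lsmul R (Lw q X) x)
      (Lmap q (LinearMap.range (LinearMap.lsmul R X x)).mkQ) := by
  refine ⟨h, ?_, IsLocalizedModule.map_surjective _ _ _ _ (Submodule.mkQ_surjective _)⟩
  rw [← Lmap_lsmul]
  exact IsLocalizedModule.map_exact _ _ _ _ _ _ (LinearMap.exact_map_mkQ_range _)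

theorem W_of_subsingleton {r : ℕ} (y : Fin r → R) (p : ℕ) :
    ∀ (X : Type u) [AddCommGroup X] [Module R X] [Subsingleton X], W y p X := by
  induction p with
  | zero => intro X _ _ _; exact Function.injective_of_subsingleton _
  | succ p ih =>
    intro X _ _ _
    exact ih (Qk y ⊗[R] X)

theorem Lw_subsingleton (q : Ideal R) [q.IsPrime] (X : Type u) [AddCommGroup X] [Module R X]
    (s : R) (hs : s ∉ q) (h : ∀ x : X, s • x = 0) : Subsingleton (Lw q X) := by
  refine ⟨fun a b => ?_⟩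
  have key : ∀ c : Lw q X, c = 0 := by
    intro c
    induction c using LocalizedModule.induction_on with
    | _ m t =>
      rw [← LocalizedModule.zero_mk 1, LocalizedModule.mk_eq]
      exact ⟨⟨s, hs⟩, by simp [Submonoid.smul_def, h]⟩
  rw [key a, key b]

/-- the localization of an equivalence -/
theorem Lw_equiv (q : Ideal R) [q.IsPrime] (X Y : Type u) [AddCommGroup X] [Module R X]
    [AddCommGroup Y] [Module R Y] (e : X ≃ₗ[R] Y) : Nonempty (Lw q X ≃ₗ[R] Lw q Y) :=
  ⟨LinearEquiv.ofBijective (Lmap q e.toLinearMap)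
    ⟨IsLocalizedModule.map_injective _ _ _ _ e.injective,
      IsLocalizedModule.map_surjective _ _ _ _ e.surjective⟩⟩

theorem Wlt_iso (h1 : S_WI.{u}) {r : ℕ} (y : Fin r → R) (e : ℕ) (X Y : Type u) [AddCommGroup X]
    [Module R X] [AddCommGroup Y] [Module R Y] (f : X ≃ₗ[R] Y) (h : Wlt y e X) : Wlt y e Y :=
  fun p hp => ((h1 R r y X Y).2.2.2.2 f).1 p (h p hp)

theorem Wlt.mono {r : ℕ} {y : Fin r → R} {e e' : ℕ} {X : Type u} [AddCommGroup X] [Module R X]
    (h : Wlt y e X) (he : e' ≤ e) : Wlt y e' X := fun p hp => h p (lt_of_lt_of_le hp he)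

/-- (P) -/
theorem stepP [IsNoetherianRing R] (h1 : S_WI.{u}) (h2 : S_WL.{u}) (h3 : S_WR.{u})
    (w : Ideal R) [w.IsPrime] (I : Ideal R) :
    ∀ (A : Type u) [AddCommGroup A] [Module R A] [Module.Finite R A],
      (∀ a ∈ I, ∀ z : A, a • z = 0) →
      Near w (fun q _ _ y => ∀ e, Wlt y e (Lw q (R ⧸ w)) → Wlt y e (Lw q A)) := by
  induction I using IsNoetherian.induction with
  | hgt I ih =>
  intro A _ _ hA
  induction hA using IsNoetherianRing.induction_on_isQuotientEquivQuotientPrime R with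
  | subsingleton N =>
    intro _
    refine Near.of_forall fun q _ r y hq hy e _ p hp => ?_
    have : Subsingleton (Lw q N) := Lw_subsingleton q N 1
      (fun h => Ideal.IsPrime.ne_top ‹_› ((Ideal.eq_top_iff_one q).2 h))
      (fun x => Subsingleton.elim _ _)
    exact W_of_subsingleton y p _
  | exact N₁ N₂ N₃ f g hf hg hfg ih₁ ih₃ =>
    intro hI
    have k1 : ∀ a ∈ I, ∀ z : N₁, a • z = 0 := fun a ha z => hf (by rw [map_smul, hI a ha, map_zero])
    have k3 : ∀ a ∈ I, ∀ z : N₃, a • z = 0 := fun a ha z => by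
      obtain ⟨z, rfl⟩ := hg z
      rw [← map_smul, hI a ha, map_zero]
    refine ((ih₁ k1).and (ih₃ k3)).mono fun q _ r y hq hy hh e he => ?_
    exact (h2 R r y _ _ _ _ _ (SES.loc q ⟨hf, hfg, hg⟩) e).1 (hh.1 e he) (hh.2 e he)
  | quotient N p φ =>
    intro hI
    have hIp : I ≤ p.1 := by
      intro a ha
      have h0 := hI a ha (φ.symm (Ideal.Quotient.mk p.1 1))
      rw [← map_smul, LinearEquiv.map_eq_zero_iff] at h0
      have h0' : Ideal.Quotient.mk p.1 a = 0 := by
        rw [← h0, ← Ideal.Quotient.mk_eq_mk, ← Ideal.Quotient.mk_eq_mk, ← Submodule.Quotient.mk_smul]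
        simp
      exact Ideal.Quotient.eq_zero_iff_mem.1 h0'
    have hpN : ∀ a ∈ p.1, ∀ z : N, a • z = 0 := by
      intro a ha z
      apply φ.injective
      rw [map_smul, map_zero]
      obtain ⟨b, hb⟩ := Ideal.Quotient.mk_surjective (φ z)
      rw [← hb, ← Ideal.Quotient.mk_eq_mk, ← Submodule.Quotient.mk_smul, Ideal.Quotient.mk_eq_mk]
      exact Ideal.Quotient.eq_zero_iff_mem.2 (p.1.mul_mem_right _ ha)
    rcases hIp.lt_or_eq with hlt | rfl
    · exact ih p.1 hlt N hpN
    by_cases hpw : p.1 ≤ w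
    · rcases hpw.lt_or_eq with hlt | heq
      · obtain ⟨x, hxw, hxp⟩ := Set.exists_of_ssubset hlt
        have hinj : Function.Injective (LinearMap.lsmul R N x) := by
          rw [← LinearMap.ker_eq_bot, LinearMap.ker_eq_bot']
          intro z hz
          apply φ.injective
          obtain ⟨b, hb⟩ := Ideal.Quotient.mk_surjective (φ z)
          have h0 : x • φ z = 0 := by
            rw [← map_smul]
            have : x • z = 0 := hz
            rw [this, map_zero]
          rw [← hb, ← Ideal.Quotient.mk_eq_mk, ← Submodule.Quotient.mk_smul,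
            Ideal.Quotient.mk_eq_mk, Ideal.Quotient.eq_zero_iff_mem] at h0
          rw [map_zero, ← hb, Ideal.Quotient.eq_zero_iff_mem]
          exact (p.2.mem_or_mem h0).resolve_left hxp
        have hlt' : p.1 < p.1 ⊔ Ideal.span {x} := by
          refine lt_of_le_of_ne le_sup_left fun h => hxp ?_
          rw [h]
          exact Ideal.mem_sup_right (Ideal.mem_span_singleton_self x)
        have hk : ∀ a ∈ p.1 ⊔ Ideal.span {x},
            ∀ z : N ⧸ LinearMap.range (LinearMap.lsmul R N x), a • z = 0 := by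
          intro a ha z
          obtain ⟨z, rfl⟩ := Submodule.mkQ_surjective _ z
          obtain ⟨b, hb, c, hc, rfl⟩ := Submodule.mem_sup.1 ha
          obtain ⟨d, rfl⟩ := Ideal.mem_span_singleton'.1 hc
          rw [← map_smul, add_smul, hpN b hb, zero_add, Submodule.mkQ_apply,
            Submodule.Quotient.mk_eq_zero]
          exact ⟨d • z, by simp [smul_smul, mul_comm]⟩
        refine (ih _ hlt' _ hk).mono fun q _ r y hq hy hh e he => ?_
        have hxq : x ∈ Ideal.span (Set.range y) := by rw [hy]; exact hq hxw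
        have hinj' : Function.Injective (LinearMap.lsmul R (Lw q N) x) := by
          rw [← Lmap_lsmul]
          exact IsLocalizedModule.map_injective _ _ _ _ hinj
        exact Wlt.mono ((h3 R r y _ _ x _ hxq (ses_x q N x hinj') e).1 (hh e he)) (Nat.le_succ e)
      · refine Near.of_forall fun q _ r y hq hy e he => ?_
        obtain ⟨ψ⟩ := Lw_equiv q (R ⧸ w) N
          ((Submodule.quotEquivOfEq w p.1 heq.symm).trans φ.symm)
        exact Wlt_iso h1 y e _ _ ψ he
    · obtain ⟨s, hsp, hsw⟩ := SetLike.not_le_iff_exists.1 hpw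
      refine ⟨s, hsw, fun q _ hq hsq r y hy e he k hk => ?_⟩
      have : Subsingleton (Lw q N) := Lw_subsingleton q N s hsq (hpN s hsp)
      exact W_of_subsingleton y k _

/-- elements killed by a power of `w` in `Lw w B` give a nonzero element killed by `w` -/
theorem exists_killed [IsNoetherianRing R] (h1 : S_WI.{u}) (w : Ideal R) [hwp : w.IsPrime] (r : ℕ)
    (y : Fin r → R) (hy : Ideal.span (Set.range y) = w) (B : Type u) [AddCommGroup B] [Module R B]
    (h : ¬ W y 0 (Lw w B)) :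
    ∃ z : B, (∀ a, a • z = 0 ↔ a ∈ w) := by
  have h0 : ∃ x : Lw w B, eta y _ x = 0 ∧ x ≠ 0 := by
    by_contra hcon
    push Not at hcon
    apply h
    show Function.Injective (eta y (Lw w B))
    rw [← LinearMap.ker_eq_bot, LinearMap.ker_eq_bot']
    exact hcon
  obtain ⟨x, hx, hx0⟩ := h0
  have hN := ((h1 R r y (Lw w B) (Lw w B)).2.1 x).1 hx
  rw [hy] at hN
  classical
  obtain ⟨M, hM⟩ : ∃ M, Nat.find hN = M + 1 := by
    refine Nat.exists_eq_succ_of_ne_zero fun h => hx0 ?_
    have := Nat.find_spec hN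
    rw [h] at this
    simpa using this 1 (by simp)
  have h2 : ∃ a ∈ w ^ M, a • x ≠ 0 := by
    have := Nat.find_min hN (m := M) (by omega)
    push Not at this
    exact this
  obtain ⟨a, ha, hax⟩ := h2
  have hkill : ∀ b ∈ w, b • (a • x) = 0 := by
    intro b hb
    have := Nat.find_spec hN
    rw [hM] at this
    rw [smul_smul]
    exact this _ (by rw [pow_succ']; exact Ideal.mul_mem_mul hb ha)
  obtain ⟨⟨z, s⟩, hz⟩ := IsLocalizedModule.mk'_surjective w.primeCompl
    (LocalizedModule.mkLinearMap w.primeCompl B) (a • x)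
  set g := LocalizedModule.mkLinearMap w.primeCompl B with hg
  have hgz : g z = s • (a • x) := by
    rw [← hz]
    exact (IsLocalizedModule.mk'_cancel' g z s).symm
  have hgz0 : g z ≠ 0 := by
    intro h0
    rw [h0] at hgz
    apply hax
    have hinj := (IsLocalizedModule.smul_injective g s)
    apply hinj
    simp only
    rw [← hgz, smul_zero]
  have hgk : ∀ b ∈ w, g (b • z) = 0 := by
    intro b hb
    rw [map_smul, hgz, smul_comm, hkill b hb, smul_zero]
  -- clear denominators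
  have h3 : ∀ b ∈ w, ∃ c : w.primeCompl, c • (b • z) = 0 := fun b hb =>
    (IsLocalizedModule.eq_zero_iff w.primeCompl g).1 (hgk b hb)
  have h4 : ∀ k, ∃ c : w.primeCompl, c • (y k • z) = 0 := fun k =>
    h3 _ (hy ▸ Ideal.subset_span ⟨k, rfl⟩)
  choose c hc using h4
  have h5 : ∀ k, (∏ j, c j) • (y k • z) = 0 := by
    intro k
    rw [← Finset.prod_erase_mul _ _ (Finset.mem_univ k), mul_smul, hc, smul_zero]
  set d := ∏ j, c j with hd
  refine ⟨d • z, fun b => ⟨fun hb => ?_, fun hb => ?_⟩⟩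
  · by_contra hbw
    apply hgz0
    rw [IsLocalizedModule.eq_zero_iff w.primeCompl g]
    refine ⟨⟨b, hbw⟩ * d, ?_⟩
    rw [mul_smul]
    exact hb
  · rw [← hy] at hb
    induction hb using Submodule.span_induction with
    | mem x hx =>
      obtain ⟨k, rfl⟩ := hx
      rw [smul_comm]
      exact h5 k
    | zero => rw [zero_smul]
    | add x x' _ _ hx hx' => rw [add_smul, hx, hx', add_zero]
    | smul t x _ hx => rw [smul_assoc, hx, smul_zero]

/-- a regular sequence -/
theorem stepD [IsNoetherianRing R] (h3 : S_WR.{u}) (h4 : S_RG.{u}) (w : Ideal R) [hwp : w.IsPrime]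
    (r : ℕ) (y : Fin r → R) (hy : Ideal.span (Set.range y) = w) (k : ℕ) :
    ∀ (A : Type u) [AddCommGroup A] [Module R A] [Module.Finite R A], Wlt y k (Lw w A) →
      ¬ W y k (Lw w A) → ∃ (B : Type u) (_ : AddCommGroup B) (_ : Module R B)
        (_ : Module.Finite R B), ¬ W y 0 (Lw w B) ∧
        Near w (fun q _ _ y => ∀ e, Wlt y (e + k) (Lw q A) → Wlt y e (Lw q B)) := by
  induction k with
  | zero =>
    intro A _ _ _ _ h0
    exact ⟨A, inferInstance, inferInstance, inferInstance, h0, Near.of_forall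
      fun q _ r y _ _ e h => h⟩
  | succ k ih =>
    intro A _ _ _ hlt hn
    obtain ⟨x, hxw, hx, s, hs, hq⟩ := h4 R r y w hy A (hlt 0 (Nat.succ_pos k))
    have hxy : x ∈ Ideal.span (Set.range y) := by rw [hy]; exact hxw
    have key := h3 R r y _ _ x _ hxy (ses_x w A x hx)
    have hlt' := (key k).2 hlt
    obtain ⟨B, iB1, iB2, iB3, hB, hnear⟩ := ih (A ⧸ LinearMap.range (LinearMap.lsmul R A x)) hlt'
      (fun hW => hn ((key (k + 1)).1 (fun p hp => by
        rcases Nat.lt_succ_iff_lt_or_eq.1 hp with h | rfl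
        · exact hlt' p h
        · exact hW) (k + 1) (Nat.lt_succ_self _)))
    refine ⟨B, iB1, iB2, iB3, hB, ?_⟩
    have hnear2 : Near w (fun q _ _ _ => Function.Injective (LinearMap.lsmul R (Lw q A) x)) :=
      ⟨s, hs, fun q _ _ hsq _ _ _ => hq q hsq⟩
    refine (hnear.and hnear2).mono fun q _ r y hwq hy hh e he => ?_
    have hxy : x ∈ Ideal.span (Set.range y) := by rw [hy]; exact hwq hxw
    exact hh.1 e ((h3 R r y _ _ x _ hxy (ses_x q A x hh.2) (e + k)).2 he)

/-- (Q) -/
theorem stepQ [IsNoetherianRing R] (h1 : S_WI.{u}) (h2 : S_WL.{u}) (h3 : S_WR.{u})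
    (h4 : S_RG.{u}) (w : Ideal R) [hwp : w.IsPrime]
    (r : ℕ) (y : Fin r → R) (hy : Ideal.span (Set.range y) = w) (t : ℕ)
    (ht : Wlt y t (Lw w R)) (ht' : ¬ W y t (Lw w R)) :
    Near w (fun q _ _ y => ∀ e, Wlt y (e + t) (Lw q R) → Wlt y e (Lw q (R ⧸ w))) := by
  obtain ⟨B, _, _, _, hB, hnear⟩ := stepD h3 h4 w r y hy t R ht ht'
  obtain ⟨z, hz⟩ := exists_killed h1 w r y hy B hB
  have hker : LinearMap.ker (LinearMap.toSpanSingleton R B z) = w := by
    ext a
    rw [LinearMap.mem_ker, LinearMap.toSpanSingleton_apply]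
    exact hz a
  set f : (R ⧸ w) →ₗ[R] B := w.liftQ (LinearMap.toSpanSingleton R B z) hker.ge with hf
  have hfi : Function.Injective f := by
    rw [← LinearMap.ker_eq_bot]
    exact Submodule.ker_liftQ_eq_bot _ _ _ hker.le
  have hses : SES f (LinearMap.range f).mkQ :=
    ⟨hfi, LinearMap.exact_map_mkQ_range _, Submodule.mkQ_surjective _⟩
  refine (hnear.and (stepP h1 h2 h3 w ⊥ (B ⧸ LinearMap.range f) (fun a ha z => by
    rw [(Submodule.mem_bot R).1 ha, zero_smul]))).mono fun q _ r y hwq hy hh e he => ?_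
  have hB' := hh.1 e he
  have main : ∀ e' ≤ e, Wlt y e' (Lw q (R ⧸ w)) := by
    intro e'
    induction e' with
    | zero => intro _ p hp; exact absurd hp (Nat.not_lt_zero p)
    | succ e' ih =>
      intro he'
      exact (h2 R r y _ _ _ _ _ (SES.loc q hses) e').2.1 (Wlt.mono hB' he')
        (hh.2 e' (ih (Nat.le_of_succ_le he')))
  exact main e le_rfl

/-- (R) -/
theorem stepR [IsNoetherianRing R] (h1 : S_WI.{u}) (h2 : S_WL.{u}) (h3 : S_WR.{u})
    (h4 : S_RG.{u}) (w : Ideal R) [hwp : w.IsPrime]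
    (r : ℕ) (y : Fin r → R) (hy : Ideal.span (Set.range y) = w) (t : ℕ)
    (ht : Wlt y t (Lw w R)) (ht' : ¬ W y t (Lw w R)) (A : Type u) [AddCommGroup A] [Module R A]
    [Module.Finite R A] :
    Near w (fun q _ _ y => ∀ e, Wlt y (e + t) (Lw q R) → Wlt y e (Lw q A)) :=
  ((stepQ h1 h2 h3 h4 w r y hy t ht ht').and (stepP h1 h2 h3 w ⊥ A (fun a ha z => by
    rw [(Submodule.mem_bot R).1 ha, zero_smul]))).mono
    fun q _ r y hwq hy hh e he => hh.2 e (hh.1 e he)

/-- (S) -/
theorem stepS [IsNoetherianRing R] (h1 : S_WI.{u}) (h2 : S_WL.{u}) (h3 : S_WR.{u})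
    (h4 : S_RG.{u}) (w : Ideal R) [hwp : w.IsPrime]
    (r : ℕ) (yw : Fin r → R) (hyw : Ideal.span (Set.range yw) = w) (t0 : ℕ)
    (ht : Wlt yw t0 (Lw w R)) (ht' : ¬ W yw t0 (Lw w R)) (k : ℕ) :
    ∀ (n : ℕ) (N : Type u) [AddCommGroup N] [Module R N] [Module.Finite R N], t0 ≤ n + k →
      (∀ p, p + n < t0 → W yw p (Lw w N)) →
      Near w (fun q _ _ y => ∀ t, Wlt y t (Lw q R) → ∀ p, p + n < t → W y p (Lw q N)) := by
  induction k with
  | zero =>
    intro n N _ _ _ hn _
    refine (stepR h1 h2 h3 h4 w r yw hyw t0 ht ht' N).mono fun q _ r y hwq hy hh t htt p hp => ?_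
    have h5 : Wlt y ((t - t0) + t0) (Lw q R) := by
      rw [Nat.sub_add_cancel (by omega)]
      exact htt
    exact hh (t - t0) h5 p (by omega)
  | succ k ih =>
    intro n N _ _ _ hn hW
    by_cases hle : t0 ≤ n + k
    · exact ih n N hle hW
    have ht0 : t0 = n + k + 1 := by omega
    obtain ⟨x, hxw, hx, s, hs, hq⟩ := h4 R r yw w hyw N (hW 0 (by omega))
    have hxy : x ∈ Ideal.span (Set.range yw) := by rw [hyw]; exact hxw
    have hW1 : Wlt yw k (Lw w (N ⧸ LinearMap.range (LinearMap.lsmul R N x))) :=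
      (h3 R r yw _ _ x _ hxy (ses_x w N x hx) k).2 (fun p hp => hW p (by omega))
    have hnear := ih (n + 1) (N ⧸ LinearMap.range (LinearMap.lsmul R N x)) (by omega)
      (fun p hp => hW1 p (by omega))
    have hnear2 : Near w (fun q _ _ _ => Function.Injective (LinearMap.lsmul R (Lw q N) x)) :=
      ⟨s, hs, fun q _ _ hsq _ _ _ => hq q hsq⟩
    refine (hnear.and hnear2).mono fun q _ r y hwq hy hh t htt p hp => ?_
    have hxy : x ∈ Ideal.span (Set.range y) := by rw [hy]; exact hwq hxw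
    have h6 : Wlt y (t - n - 1) (Lw q (N ⧸ LinearMap.range (LinearMap.lsmul R N x))) :=
      fun p' hp' => hh.1 t htt p' (by omega)
    exact (h3 R r y _ _ x _ hxy (ses_x q N x hh.2) (t - n - 1)).1 h6 p (by omega)

end OP

open OP in
/-- OP: openness -/
theorem t_OP (h1 : S_WI.{u}) (h2 : S_WL.{u}) (h3 : S_WR.{u}) (h4 : S_RG.{u}) (h5 : S_FD.{u}) :
    S_OP.{u} := by
  intro R _ _ n w _ N _ _ _ hC
  obtain ⟨r, yw, hyw⟩ := Submodule.fg_iff_exists_fin_generating_family.1
    (IsNoetherian.noetherian w)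
  obtain ⟨t0, ht, ht'⟩ := h5 R r yw w hyw
  obtain ⟨s, hs, h⟩ := stepS h1 h2 h3 h4 w r yw hyw t0 ht ht' t0 n N (by omega)
    (fun p hp => hC r yw hyw t0 ht p hp)
  exact ⟨s, hs, fun q _ hwq hsq r y hy t htt p hp => h q hwq hsq r y hy t htt p hp⟩

end Pool.Agent.K6.H47.GL
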