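import Pool.Agent.K6.H59.GL.Com

/-!
# Piece BR: the Čech type resolution
-/

set_option autoImplicit false

open TensorProduct

universe u

namespace Pool.Agent.K6.H47.GL

open Pool.Agent.K6.H59.GL

namespace BrAux

variable {R : Type u} [CommRing R] {r : ℕ} (y : Fin r → R)

/-- `Q ⊗ ... ⊗ Q ⊗ S` -/
noncomputable def It : ℕ → ModuleCat.{u} R → ModuleCat.{u} R
  | 0, S => S
  | p + 1, S => ModuleCat.of R (Qk y ⊗[R] It p S)

theorem It_succ' (S : ModuleCat.{u} R) (p : ℕ) :
    It y p (ModuleCat.of R (Qk y ⊗[R] S)) = It y (p + 1) S := by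
  induction p with
  | zero => rfl
  | succ p ih =>
    show ModuleCat.of R (Qk y ⊗[R] It y p (ModuleCat.of R (Qk y ⊗[R] S))) =
      ModuleCat.of R (Qk y ⊗[R] It y (p + 1) S)
    rw [ih]

theorem W_iff (p : ℕ) : ∀ (X : Type u) [AddCommGroup X] [Module R X],
    W y p X ↔ Function.Injective (eta y (It y p (ModuleCat.of R X))) := by
  induction p with
  | zero => exact fun X _ _ => Iff.rfl
  | succ p ih =>
    intro X _ _
    rw [← It_succ' y (ModuleCat.of R X) p]
    exact ih (Qk y ⊗[R] X)

theorem GKill_iff (a : R) (p : ℕ) : ∀ (X : Type u) [AddCommGroup X] [Module R X],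
    GKill y p a X ↔ ∀ x : It y p (ModuleCat.of R X), eta y _ x = 0 → a • x = 0 := by
  induction p with
  | zero => exact fun X _ _ => Iff.rfl
  | succ p ih =>
    intro X _ _
    rw [← It_succ' y (ModuleCat.of R X) p]
    exact ih (Qk y ⊗[R] X)

theorem flat_BIt (S : ModuleCat.{u} R) (hS : Module.Flat R S) (p : ℕ) :
    Module.Flat R (Bk y ⊗[R] It y p S) := by
  induction p with
  | zero =>
    show Module.Flat R (Bk y ⊗[R] S)
    infer_instance
  | succ p ih => exact flat_BQ y (It y p S) ih

/-- `pr` as a map to `It (p + 1)` -/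
noncomputable def prI (S : ModuleCat.{u} R) (p : ℕ) : Bk y ⊗[R] It y p S →ₗ[R] It y (p + 1) S :=
  pr y (It y p S)

theorem prI_surj (S : ModuleCat.{u} R) (p : ℕ) : Function.Surjective (prI y S p) :=
  pr_surj y (It y p S)

theorem exact_prI (S : ModuleCat.{u} R) (p : ℕ) :
    Function.Exact (eta y (It y p S)) (prI y S p) := exact_eta_pr y (It y p S)

/-- the terms of the resolution -/
noncomputable def Gm (S : ModuleCat.{u} R) : ℕ → ModuleCat.{u} R
  | 0 => S
  | p + 1 => ModuleCat.of R (Bk y ⊗[R] It y p S)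

/-- the maps -/
noncomputable def dl' (S : ModuleCat.{u} R) : ∀ p, Gm y S p →ₗ[R] Bk y ⊗[R] It y p S
  | 0 => eta y S
  | p + 1 => (eta y (It y (p + 1) S)) ∘ₗ (prI y S p)

/-- the maps -/
noncomputable def dl (S : ModuleCat.{u} R) (p : ℕ) : Gm y S p →ₗ[R] Gm y S (p + 1) := dl' y S p

theorem pr_dl (S : ModuleCat.{u} R) (p : ℕ) : (prI y S p) ∘ₗ (dl' y S p) = 0 := by
  cases p with
  | zero =>
    ext x
    exact (exact_prI y S 0).apply_apply_eq_zero x
  | succ p =>
    apply LinearMap.ext
    intro x
    exact (exact_prI y S (p + 1)).apply_apply_eq_zero (prI y S p x)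

theorem mem_range_dl (S : ModuleCat.{u} R) (p : ℕ) (z : Bk y ⊗[R] It y p S)
    (hz : prI y S p z = 0) : ∃ x, dl' y S p x = z := by
  obtain ⟨x, hx⟩ := (exact_prI y S p z).1 hz
  cases p with
  | zero => exact ⟨x, hx⟩
  | succ p =>
    obtain ⟨x', hx'⟩ := prI_surj y S p x
    refine ⟨x', ?_⟩
    show eta y (It y (p + 1) S) (prI y S p x') = z
    rw [hx']
    exact hx

/-- the resolution -/
noncomputable def res (S : ModuleCat.{u} R) (hS : Module.Flat R S) (t : ℕ)
    (h : ∀ p < t, Function.Injective (eta y (It y p S))) : FlatRes R where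
  m := t
  F := fun p => Gm y S p
  acg := fun p => inferInstance
  mod := fun p => inferInstance
  flat := by
    intro p
    cases p with
    | zero => exact hS
    | succ p => exact flat_BIt y S hS p
  δ := dl y S
  inj := fun h0 => h 0 h0
  exact := by
    intro p hp z
    constructor
    · intro hz
      refine mem_range_dl y S p z (h (p + 1) hp ?_)
      rw [map_zero]
      exact hz
    · rintro ⟨x, rfl⟩
      exact (congrArg (eta y (It y (p + 1) S)) (LinearMap.congr_fun (pr_dl y S p) x)).trans
        (map_zero _)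

section tens

variable (X M : Type u) [AddCommGroup X] [Module R X] [AddCommGroup M] [Module R M]

theorem assoc_eta (z : X ⊗[R] M) :
    TensorProduct.assoc R (Bk y) X M ((eta y X).rTensor M z) = eta y (X ⊗[R] M) z := by
  induction z using TensorProduct.induction_on with
  | zero => simp
  | add a b ha hb => rw [map_add, map_add, ha, hb, map_add]
  | tmul x m => simp [eta]

theorem eta_nat {Y : Type u} [AddCommGroup Y] [Module R Y] (f : X →ₗ[R] Y) (x : X) :
    f.lTensor (Bk y) (eta y X x) = eta y Y (f x) := by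
  simp [eta]

/-- `It p S ⊗ M = It p (S ⊗ M)` -/
noncomputable def th (S : ModuleCat.{u} R) : ∀ p,
    (It y p S ⊗[R] M) ≃ₗ[R] It y p (ModuleCat.of R (S ⊗[R] M))
  | 0 => LinearEquiv.refl R _
  | p + 1 => (TensorProduct.assoc R (Qk y) (It y p S) M).trans ((th S p).lTensor (Qk y))

end tens

theorem kill (S : ModuleCat.{u} R) (hS : Module.Flat R S) (t : ℕ)
    (h : ∀ p < t, Function.Injective (eta y (It y p S))) (a : R) (M : Type u) [AddCommGroup M]
    [Module R M] (p : ℕ) (hk : KillAt (res y S hS t h) M a p) :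
    ∀ x : It y p S ⊗[R] M, eta y _ x = 0 → a • x = 0 := by
  intro x hx
  have h0 : (eta y (It y p S)).rTensor M x = 0 := by
    apply (TensorProduct.assoc R (Bk y) (It y p S) M).injective
    rw [assoc_eta, hx, map_zero]
  cases p with
  | zero => exact hk x h0
  | succ p =>
    obtain ⟨z, hz⟩ := LinearMap.rTensor_surjective M (prI_surj y S p) x
    have h1 : ((res y S hS t h).δ (p + 1)).rTensor M z = 0 := by
      have h3 := LinearMap.rTensor_comp_apply M (eta y (It y (p + 1) S)) (prI y S p) z
      rw [hz, h0] at h3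
      exact h3
    obtain ⟨z', hz'⟩ := hk z h1
    have h2 : ∀ z'' : Gm y S p ⊗[R] M,
        (prI y S p).rTensor M ((dl' y S p).rTensor M z'') = 0 := by
      intro z''
      have h3 := LinearMap.rTensor_comp_apply M (prI y S p) (dl' y S p) z''
      rw [pr_dl, LinearMap.rTensor_zero, LinearMap.zero_apply] at h3
      exact h3.symm
    have h4 : (dl' y S p).rTensor M z' = a • z := hz'
    replace h2 := (congrArg ((prI y S p).rTensor M) h4).symm.trans (h2 z')
    rw [map_smul, hz] at h2
    exact h2

end BrAux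

open BrAux in
theorem t_BR (h : S_WI.{u}) : S_BR.{u} := by
  intro R _ r y w _ t hlt
  have hS : Module.Flat R (Lw w R) := by
    exact IsLocalization.flat (Localization w.primeCompl) w.primeCompl
  have hW : ∀ p < t, Function.Injective (eta y (It y p (ModuleCat.of R (Lw w R)))) :=
    fun p hp => (W_iff y p (Lw w R)).1 (hlt p hp)
  refine ⟨res y (ModuleCat.of R (Lw w R)) hS t hW, rfl, fun p hp a M _ _ hk => ?_⟩
  have h1 : GKill y p a ((Lw w R) ⊗[R] M) := by
    rw [GKill_iff]
    intro x hx
    obtain ⟨x, rfl⟩ := (th y M (ModuleCat.of R (Lw w R)) p).surjective x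
    rw [← map_smul, kill y _ hS t hW a M p hk x, map_zero]
    have h2 := eta_nat y _ (th y M (ModuleCat.of R (Lw w R)) p).symm.toLinearMap
      (th y M (ModuleCat.of R (Lw w R)) p x)
    rw [hx, map_zero] at h2
    simpa using h2.symm
  let e : Lw w M ≃ₗ[R] (Lw w R) ⊗[R] M :=
    (LocalizedModule.equivTensorProduct w.primeCompl M).restrictScalars R
  exact ((h R r y _ _).2.2.2.2 e.symm).2.1 p a h1

end Pool.Agent.K6.H47.GL
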