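import Pool.Agent.K6.H49.GLA.Loc2

/-!
# FD: the depth of a local ring is finite
-/

set_option autoImplicit false

open TensorProduct

universe u

namespace Pool.Agent.K6.H47.GL

open Pool.Agent.K6.H49.GLA

theorem t_FD (h1 : S_WI.{u}) (h2 : S_WR.{u}) (h3 : S_RG.{u}) : S_FD.{u} := by
  intro R _ _ r y w _ hy
  by_contra hcon
  push Not at hcon
  have hall : ∀ t, Wlt y t (Lw w R) := by
    intro t
    induction t with
    | zero => intro p hp; omega
    | succ t ih =>
      intro p hp
      rcases Nat.lt_succ_iff_lt_or_eq.1 hp with h | h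
      · exact ih p h
      · subst h
        exact hcon p ih
  have key : ∀ I : Ideal R, I ≤ w → ¬ ∀ e, Wlt y e (Lw w (R ⧸ I)) := by
    intro I
    induction I using WellFoundedGT.induction with
    | ind I ih =>
      intro hI hall
      obtain ⟨x, hx, hinj, -⟩ := h3 R r y w hy (R ⧸ I) (hall 1 0 Nat.zero_lt_one)
      have hxI : x ∉ I := by
        intro hxI
        have h4 : lm w (R ⧸ I) 1 = 0 := by
          refine hinj ?_
          show x • lm w (R ⧸ I) 1 = x • (0 : Lw w (R ⧸ I))
          rw [smul_zero, ← map_smul]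
          have h5 : x • (1 : R ⧸ I) = 0 := by
            rw [Algebra.smul_def, mul_one]
            exact Ideal.Quotient.eq_zero_iff_mem.2 hxI
          rw [h5, map_zero]
        obtain ⟨c, hc, hc'⟩ := (lm_eq_zero_iff w _).1 h4
        apply hc
        apply hI
        rw [Algebra.smul_def, mul_one] at hc'
        exact Ideal.Quotient.eq_zero_iff_mem.1 hc'
      have hlt : I < I ⊔ Ideal.span {x} := by
        refine lt_of_le_of_ne le_sup_left fun h => hxI ?_
        rw [h]
        exact Ideal.mem_sup_right (Ideal.mem_span_singleton_self x)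
      refine ih _ hlt (sup_le hI ((Ideal.span_singleton_le_iff_mem w).2 hx)) fun e => ?_
      let g : (R ⧸ I) →ₗ[R] (R ⧸ (I ⊔ Ideal.span {x})) :=
        Submodule.factor (le_sup_left : I ≤ I ⊔ Ideal.span {x})
      have hg : ∀ a : R, g (Ideal.Quotient.mk I a) = Ideal.Quotient.mk _ a := fun a => rfl
      have hses : SES (LinearMap.lsmul R (Lw w (R ⧸ I)) x) (Lmap w g) := by
        refine ⟨hinj, ?_, ?_⟩
        · rw [← lmap_lsmul]
          refine IsLocalizedModule.map_exact w.primeCompl _ _ _ (LinearMap.lsmul R (R ⧸ I) x) g ?_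
          intro q
          obtain ⟨a, rfl⟩ := Ideal.Quotient.mk_surjective q
          rw [hg, Ideal.Quotient.eq_zero_iff_mem, Submodule.mem_sup]
          constructor
          · rintro ⟨i, hi, z, hz, rfl⟩
            obtain ⟨b, rfl⟩ := Ideal.mem_span_singleton'.1 hz
            refine ⟨Ideal.Quotient.mk I b, ?_⟩
            show x • Ideal.Quotient.mk I b = _
            rw [map_add, Ideal.Quotient.eq_zero_iff_mem.2 hi, zero_add, map_mul, mul_comm,
              Algebra.smul_def]
            rfl
          · rintro ⟨q', hq'⟩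
            obtain ⟨b, rfl⟩ := Ideal.Quotient.mk_surjective q'
            have h6 : x • Ideal.Quotient.mk I b = Ideal.Quotient.mk I a := hq'
            have h7 : Ideal.Quotient.mk I (x * b) = Ideal.Quotient.mk I a := by
              rw [← h6, map_mul, Algebra.smul_def]
              rfl
            refine ⟨a - x * b, ?_, x * b, Ideal.mem_span_singleton'.2 ⟨b, mul_comm b x⟩, by ring⟩
            rw [← Ideal.Quotient.eq_zero_iff_mem, map_sub, h7, sub_self]
        · refine IsLocalizedModule.map_surjective w.primeCompl _ _ g ?_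
          intro q
          obtain ⟨a, rfl⟩ := Ideal.Quotient.mk_surjective q
          exact ⟨Ideal.Quotient.mk I a, rfl⟩
      exact (h2 R r y (Lw w (R ⧸ I)) (Lw w (R ⧸ (I ⊔ Ideal.span {x}))) x (Lmap w g)
        (by rw [hy]; exact hx) hses e).2 (hall (e + 1))
  refine key ⊥ bot_le fun e p hp => ?_
  exact ((h1 R r y (Lw w R) (Lw w (R ⧸ (⊥ : Ideal R)))).2.2.2.2
    (lequiv w (Submodule.quotEquivOfEqBot ⊥ rfl).symm)).1 p (hall e p hp)

end Pool.Agent.K6.H47.GL
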