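import Pool.Agent.K6.H47.GL.Stm

/-!
# Finite generation of the first non-vanishing local cohomology
-/

set_option autoImplicit false

open TensorProduct

universe u

namespace Pool.Agent.K6.H47.GL

namespace FGp

variable {R : Type u} [CommRing R] {r : ℕ} (y : Fin r → R)

theorem eta_apply (X : Type u) [AddCommGroup X] [Module R X] (x : X) :
    eta y X x = (1 : Bk y) ⊗ₜ[R] x := rfl

theorem eta_nat {X Y : Type u} [AddCommGroup X] [Module R X] [AddCommGroup Y] [Module R Y]
    (f : X →ₗ[R] Y) (x : X) : f.lTensor (Bk y) (eta y X x) = eta y Y (f x) := by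
  rw [eta_apply, eta_apply, LinearMap.lTensor_tmul]

theorem pr_nat {X Y : Type u} [AddCommGroup X] [Module R X] [AddCommGroup Y] [Module R Y]
    (f : X →ₗ[R] Y) (b : Bk y ⊗[R] X) :
    f.lTensor (Qk y) (pr y X b) = pr y Y (f.lTensor (Bk y) b) := by
  unfold pr
  rw [← LinearMap.comp_apply, ← LinearMap.comp_apply, LinearMap.lTensor_comp_rTensor,
    LinearMap.rTensor_comp_lTensor]

theorem pr_surj (X : Type u) [AddCommGroup X] [Module R X] : Function.Surjective (pr y X) :=
  LinearMap.rTensor_surjective _ (Submodule.mkQ_surjective _)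

theorem pr_exact (X : Type u) [AddCommGroup X] [Module R X] :
    Function.Exact ((Algebra.linearMap R (Bk y)).rTensor X) (pr y X) :=
  rTensor_exact X (LinearMap.exact_map_mkQ_range _) (Submodule.mkQ_surjective _)

theorem rT_eq (X : Type u) [AddCommGroup X] [Module R X] (z : R ⊗[R] X) :
    (Algebra.linearMap R (Bk y)).rTensor X z = eta y X (TensorProduct.lid R X z) := by
  induction z using TensorProduct.induction_on with
  | zero => simp
  | tmul a x =>
    rw [LinearMap.rTensor_tmul, TensorProduct.lid_tmul, map_smul, eta_apply, Algebra.linearMap_apply,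
      Algebra.algebraMap_eq_smul_one, TensorProduct.smul_tmul']
  | add a b ha hb => rw [map_add, map_add, map_add, ha, hb]

theorem pr_eta (X : Type u) [AddCommGroup X] [Module R X] (x : X) : pr y X (eta y X x) = 0 := by
  have h := rT_eq y X (1 ⊗ₜ x)
  rw [TensorProduct.lid_tmul, one_smul] at h
  rw [← h]
  exact (pr_exact y X _).2 ⟨_, rfl⟩

theorem pr_zero {X : Type u} [AddCommGroup X] [Module R X] {b : Bk y ⊗[R] X}
    (h : pr y X b = 0) : ∃ x : X, eta y X x = b := by
  obtain ⟨z, hz⟩ := (pr_exact y X b).1 h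
  exact ⟨_, (rT_eq y X z).symm.trans hz⟩

section snake

variable {X Y Z : Type u} [AddCommGroup X] [Module R X] [AddCommGroup Y] [Module R Y]
  [AddCommGroup Z] [Module R Z] {f : X →ₗ[R] Y} {g : Y →ₗ[R] Z}

theorem fB_inj (h : SES f g) : Function.Injective (f.lTensor (Bk y)) :=
  Module.Flat.lTensor_preserves_injective_linearMap _ h.inj

theorem gf_zero (h : SES f g) (x : X) : g (f x) = 0 := (h.exact _).2 ⟨x, rfl⟩

theorem gfB_zero (h : SES f g) (b : Bk y ⊗[R] X) :
    g.lTensor (Bk y) (f.lTensor (Bk y) b) = 0 :=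
  (lTensor_exact (Bk y) h.exact h.surj _).2 ⟨b, rfl⟩

theorem snake (h : SES f g) (hZ : W y 0 Z) : SES (f.lTensor (Qk y)) (g.lTensor (Qk y)) where
  exact := lTensor_exact (Qk y) h.exact h.surj
  surj := LinearMap.lTensor_surjective _ h.surj
  inj := by
    rw [injective_iff_map_eq_zero]
    intro c hc
    obtain ⟨b, rfl⟩ := pr_surj y X c
    rw [pr_nat] at hc
    obtain ⟨y0, hy0⟩ := pr_zero y hc
    have h1 : eta y Z (g y0) = 0 := by
      rw [← eta_nat, hy0, gfB_zero y h]
    have h2 : g y0 = 0 := by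
      apply hZ
      rw [h1, map_zero]
    obtain ⟨x0, hx0⟩ := (h.exact _).1 h2
    have h3 : f.lTensor (Bk y) (eta y X x0) = f.lTensor (Bk y) b := by
      rw [eta_nat, hx0, hy0]
    rw [← fB_inj y h h3]
    exact pr_eta y X x0

end snake

section mult

variable {X Z : Type u} [AddCommGroup X] [Module R X] [AddCommGroup Z] [Module R Z]

theorem lsmul_lTensor (A : Type u) [AddCommGroup A] [Module R A] (x : R) :
    (LinearMap.lsmul R X x).lTensor A = LinearMap.lsmul R (A ⊗[R] X) x := by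
  apply TensorProduct.ext'
  intro a b
  simp

theorem snake_smul {x : R} {g : X →ₗ[R] Z} (h : SES (LinearMap.lsmul R X x) g) (hZ : W y 0 Z) :
    SES (LinearMap.lsmul R (Qk y ⊗[R] X) x) (g.lTensor (Qk y)) := by
  have := snake y h hZ
  rwa [lsmul_lTensor] at this

theorem xB_inj {x : R} {g : X →ₗ[R] Z} (h : SES (LinearMap.lsmul R X x) g)
    {b b' : Bk y ⊗[R] X} (hb : x • b = x • b') : b = b' := by
  have h1 := fB_inj y h
  rw [lsmul_lTensor] at h1
  exact h1 hb

theorem gxB_zero {x : R} {g : X →ₗ[R] Z} (h : SES (LinearMap.lsmul R X x) g)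
    (b : Bk y ⊗[R] X) : g.lTensor (Bk y) (x • b) = 0 := by
  have h1 := gfB_zero y h b
  rwa [lsmul_lTensor] at h1

/-- lifting -/
theorem conn {x : R} {g : X →ₗ[R] Z} (h : SES (LinearMap.lsmul R X x) g) {z : Z}
    (hz : eta y Z z = 0) : ∃ (x0 : X) (b : Bk y ⊗[R] X), g x0 = z ∧ x • b = eta y X x0 := by
  obtain ⟨x0, hx0⟩ := h.surj z
  have h1 : g.lTensor (Bk y) (eta y X x0) = 0 := by rw [eta_nat, hx0, hz]
  obtain ⟨b, hb⟩ := (lTensor_exact (Bk y) h.exact h.surj _).1 h1
  rw [lsmul_lTensor] at hb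
  exact ⟨x0, b, hx0, hb⟩

/-- `a z = 0` implies `a (pr b) = 0` -/
theorem kill_down {x : R} {g : X →ₗ[R] Z} (h : SES (LinearMap.lsmul R X x) g) {x0 : X}
    {b : Bk y ⊗[R] X} (hb : x • b = eta y X x0) {a : R} (ha : a • g x0 = 0) :
    a • pr y X b = 0 := by
  rw [← map_smul] at ha
  obtain ⟨u, hu⟩ := (h.exact _).1 ha
  have h1 : x • (a • b) = x • eta y X u := by
    rw [smul_comm, hb, ← map_smul, ← map_smul, ← hu]
    rfl
  rw [← map_smul, xB_inj y h h1]
  exact pr_eta y X u

/-- `a (pr b) = 0` implies `a z = 0` -/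
theorem kill_up {x : R} {g : X →ₗ[R] Z} (h : SES (LinearMap.lsmul R X x) g) (hX : W y 0 X)
    {x0 : X} {b : Bk y ⊗[R] X} (hb : x • b = eta y X x0) {a : R} (ha : a • pr y X b = 0) :
    a • g x0 = 0 := by
  rw [← map_smul] at ha
  obtain ⟨u, hu⟩ := pr_zero y ha
  have h1 : eta y X (a • x0) = eta y X (x • u) := by
    rw [map_smul, map_smul, hu, ← hb, smul_comm]
  have h2 := hX h1
  rw [← map_smul, h2]
  exact (h.exact _).2 ⟨u, rfl⟩

theorem gkill_base (h1 : S_WI.{u}) {x : R} {g : X →ₗ[R] Z} (h : SES (LinearMap.lsmul R X x) g)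
    (hX : W y 0 X) {a : R} (ha : GKill y 1 a X) : GKill y 0 a Z := by
  intro z hz
  obtain ⟨x0, b, rfl, hb⟩ := conn y h hz
  have hw1 := (h1 R r y Z Z).2.1
  have hw2 := (h1 R r y (Qk y ⊗[R] X) X).2.1
  obtain ⟨N, hN⟩ := (hw1 _).1 hz
  have h2 : eta y (Qk y ⊗[R] X) (pr y X b) = 0 :=
    (hw2 _).2 ⟨N, fun c hc => kill_down y h hb (hN c hc)⟩
  exact kill_up y h hX hb (ha _ h2)

theorem tf_base (h1 : S_WI.{u}) {w : Ideal R} (hw : Ideal.span (Set.range y) = w) {x : R}
    {g : X →ₗ[R] Z} (h : SES (LinearMap.lsmul R X x) g)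
    (hx : GKill y 1 x X) (hZ : TF y w 0 Z) : TF y w 1 X := by
  obtain ⟨E, hE, hEk, ⟨s, hs⟩, hEg⟩ := hZ
  obtain ⟨m, z, hz⟩ := Submodule.fg_iff_exists_fin_generating_family.1 hE
  have hzE : ∀ i, z i ∈ E := fun i => hz ▸ Submodule.subset_span ⟨i, rfl⟩
  have hze : ∀ i, eta y Z (z i) = 0 := fun i => hEk (hzE i)
  choose x0 b hx0 hb using fun i => conn y h (hze i)
  have hw2 := (h1 R r y (Qk y ⊗[R] X) X).2.1
  have hkill : ∀ i, ∀ a ∈ w ^ s, a • pr y X (b i) = 0 := by
    intro i a ha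
    apply kill_down y h (hb i)
    rw [hx0]
    exact hs a ha _ (hzE i)
  refine ⟨Submodule.span R (Set.range fun i => pr y X (b i)), Submodule.fg_span (Set.finite_range _),
    ?_, ⟨s, ?_⟩, ?_⟩
  · rw [Submodule.span_le]
    rintro _ ⟨i, rfl⟩
    refine (hw2 _).2 ⟨s, fun a ha => hkill i a ?_⟩
    rwa [← hw]
  · intro a ha e he
    have hle : Submodule.span R (Set.range fun i => pr y X (b i)) ≤
        LinearMap.ker (LinearMap.lsmul R (Qk y ⊗[R] X) a) := by
      rw [Submodule.span_le]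
      rintro _ ⟨i, rfl⟩
      exact hkill i a ha
    exact hle he
  · intro q hq
    obtain ⟨b0, rfl⟩ := pr_surj y X q
    have h2 : x • pr y X b0 = 0 := hx _ hq
    rw [← map_smul] at h2
    obtain ⟨x1, hx1⟩ := pr_zero y h2
    have h3 : eta y Z (g x1) = 0 := by
      rw [← eta_nat, hx1]
      exact gxB_zero y h b0
    obtain ⟨c, hc, hcE⟩ := hEg _ h3
    refine ⟨c, hc, ?_⟩
    rw [← hz] at hcE
    obtain ⟨ρ, hρ⟩ := (Submodule.mem_span_range_iff_exists_fun R).1 hcE
    have h4 : g (c • x1 - ∑ i, ρ i • x0 i) = 0 := by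
      rw [map_sub, map_smul, map_sum, ← hρ]
      simp only [map_smul, hx0, sub_self]
    obtain ⟨u, hu⟩ := (h.exact _).1 h4
    have hu' : x • u = c • x1 - ∑ i, ρ i • x0 i := hu
    have h5 : x • (c • b0) = x • ((∑ i, ρ i • b i) + eta y X u) := by
      rw [smul_add, ← map_smul, hu', map_sub, map_smul, hx1, map_sum, Finset.smul_sum,
        smul_comm x c b0]
      have : ∀ i, x • ρ i • b i = eta y X (ρ i • x0 i) := by
        intro i
        rw [smul_comm, hb, map_smul]
      simp only [this]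
      abel
    have h6 := xB_inj y h h5
    rw [← map_smul, h6, map_add, pr_eta, add_zero, map_sum]
    refine Submodule.sum_mem _ fun i _ => ?_
    rw [map_smul]
    exact Submodule.smul_mem _ _ (Submodule.subset_span ⟨i, rfl⟩)

end mult

theorem gkill_all (h1 : S_WI.{u}) (h3 : S_WR.{u}) {x : R} (hxw : x ∈ Ideal.span (Set.range y))
    (a : R) (j : ℕ) : ∀ (X Z : Type u) [AddCommGroup X] [Module R X] [AddCommGroup Z] [Module R Z]
    (g : X →ₗ[R] Z), SES (LinearMap.lsmul R X x) g → Wlt y (j + 1) X → GKill y (j + 1) a X →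
    GKill y j a Z := by
  induction j with
  | zero =>
    intro X Z _ _ _ _ g h hX ha
    exact gkill_base y h1 h (hX 0 (by omega)) ha
  | succ j ih =>
    intro X Z _ _ _ _ g h hX ha
    have hZ : Wlt y (j + 1) Z := (h3 R r y X Z x g hxw h (j + 1)).2 hX
    have h4 := snake_smul y h (hZ 0 (by omega))
    exact ih (Qk y ⊗[R] X) (Qk y ⊗[R] Z) _ h4 (fun p hp => hX (p + 1) (by omega)) ha

theorem tf_all (h1 : S_WI.{u}) (h3 : S_WR.{u}) {w : Ideal R} (hw : Ideal.span (Set.range y) = w)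
    {x : R} (hxw : x ∈ Ideal.span (Set.range y)) (j : ℕ) :
    ∀ (X Z : Type u) [AddCommGroup X] [Module R X] [AddCommGroup Z] [Module R Z]
    (g : X →ₗ[R] Z), SES (LinearMap.lsmul R X x) g → Wlt y (j + 1) X → GKill y (j + 1) x X →
    TF y w j Z → TF y w (j + 1) X := by
  induction j with
  | zero =>
    intro X Z _ _ _ _ g h _ ha hZ
    exact tf_base y h1 hw h ha hZ
  | succ j ih =>
    intro X Z _ _ _ _ g h hX ha hTZ
    have hZ : Wlt y (j + 1) Z := (h3 R r y X Z x g hxw h (j + 1)).2 hX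
    have h4 := snake_smul y h (hZ 0 (by omega))
    exact ih (Qk y ⊗[R] X) (Qk y ⊗[R] Z) _ h4 (fun p hp => hX (p + 1) (by omega)) ha hTZ

end FGp

open FGp

theorem t_FG (h1 : S_WI.{u}) (h3 : S_WR.{u}) (h4 : S_RG.{u}) : S_FG.{u} := by
  intro R _ _ r y w _ hw j
  induction j with
  | zero =>
    intro N _ _ _ hW hk
    obtain ⟨s, hs⟩ := hk
    set μ := LocalizedModule.mkLinearMap w.primeCompl N with hμ
    refine ⟨(LinearMap.ker (eta y (Lw w N) ∘ₗ μ)).map μ,
      (IsNoetherian.noetherian (LinearMap.ker (eta y (Lw w N) ∘ₗ μ))).map μ, ?_, ⟨s, ?_⟩, ?_⟩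
    · rintro _ ⟨n, hn, rfl⟩
      exact hn
    · rintro a ha _ ⟨n, hn, rfl⟩
      exact hs a ha _ hn
    · intro x hx
      obtain ⟨⟨n, c⟩, rfl⟩ := IsLocalizedModule.mk'_surjective w.primeCompl μ x
      refine ⟨c, c.2, ⟨n, ?_, ?_⟩⟩
      · show eta y (Lw w N) (μ n) = 0
        have : μ n = (c : R) • IsLocalizedModule.mk' μ n c := by
          have := IsLocalizedModule.mk'_cancel' μ n c
          exact this.symm
        rw [this, map_smul]
        have h5 : eta y (Lw w N) (IsLocalizedModule.mk' μ n c) = 0 := hx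
        rw [h5, smul_zero]
      · exact (IsLocalizedModule.mk'_cancel' μ n c).symm
  | succ j ih =>
    intro N _ _ _ hW hk
    obtain ⟨s, hs⟩ := hk
    obtain ⟨x, hxw, hxi, -⟩ := h4 R r y w hw N (hW 0 (by omega))
    set x' := x ^ (s + 1) with hx'
    have hx'w : x' ∈ w := Ideal.pow_mem_of_mem _ hxw _ (by omega)
    have hx's : x' ∈ w ^ s := Ideal.pow_le_pow_right (by omega : s ≤ s + 1) (Ideal.pow_mem_pow hxw _)
    have hx'i : Function.Injective (LinearMap.lsmul R (Lw w N) x') := by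
      have : ∀ n : ℕ, Function.Injective (LinearMap.lsmul R (Lw w N) (x ^ n)) := by
        intro n
        induction n with
        | zero => intro a b hab; simpa using hab
        | succ n ihn =>
          intro a b hab
          apply ihn
          apply hxi
          simp only [LinearMap.lsmul_apply, smul_smul] at hab ⊢
          rwa [← pow_succ']
      exact this _
    set K := LinearMap.range (LinearMap.lsmul R N x') with hK
    have hmap : Lmap w (LinearMap.lsmul R N x') = LinearMap.lsmul R (Lw w N) x' := by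
      apply IsLocalizedModule.linearMap_ext w.primeCompl
        (LocalizedModule.mkLinearMap w.primeCompl N) (LocalizedModule.mkLinearMap w.primeCompl N)
      rw [IsLocalizedModule.map_comp]
      ext n
      simp
    have hses : SES (LinearMap.lsmul R (Lw w N) x') (Lmap w K.mkQ) := by
      refine ⟨hx'i, ?_, ?_⟩
      · rw [← hmap]
        exact IsLocalizedModule.map_exact w.primeCompl _ _ _ _ _ (LinearMap.exact_map_mkQ_range _)
      · exact IsLocalizedModule.map_surjective w.primeCompl _ _ _ (Submodule.mkQ_surjective _)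
    have hx'sp : x' ∈ Ideal.span (Set.range y) := by rwa [hw]
    have hW1 : Wlt y j (Lw w (N ⧸ K)) := by
      have := (h3 R r y (Lw w N) (Lw w (N ⧸ K)) x' _ hx'sp hses j)
      exact this.2 hW
    have hk1 : ∃ s : ℕ, ∀ a ∈ w ^ s, GKill y j a (Lw w (N ⧸ K)) :=
      ⟨s, fun a ha => gkill_all y h1 h3 hx'sp a j _ _ _ hses hW (hs a ha)⟩
    exact tf_all y h1 h3 hw hx'sp j _ _ _ hses hW (hs x' hx's) (ih (N ⧸ K) hW1 hk1)

end Pool.Agent.K6.H47.GL
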