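import Pool.Agent.K6.H49.GLA.Loc2

/-!
# G0: the case of depth zero
-/

set_option autoImplicit false

open TensorProduct

universe u

namespace Pool.Agent.K6.H47.GL

open Pool.Agent.K6.H49.GLA

namespace G0

/-- one exponent for a finitely generated submodule -/
theorem unif {R : Type u} [CommRing R] (w : Ideal R) {X Y : Type u} [AddCommGroup X] [Module R X]
    [AddCommGroup Y] [Module R Y] (g : X →ₗ[R] Y) (K : Submodule R X) (hK : K.FG)
    (h : ∀ k ∈ K, ∃ N : ℕ, ∀ a ∈ w ^ N, a • g k = 0) :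
    ∃ s : ℕ, ∀ a ∈ w ^ s, ∀ k ∈ K, a • g k = 0 := by
  classical
  obtain ⟨T, rfl⟩ := hK
  induction T using Finset.induction_on with
  | empty =>
    refine ⟨0, fun a _ k hk => ?_⟩
    simp at hk
    simp [hk]
  | insert t T ht ih =>
    obtain ⟨s, hs⟩ := ih fun k hk => h k (Submodule.span_mono (by simp) hk)
    obtain ⟨N, hN⟩ := h t (Submodule.subset_span (by simp))
    refine ⟨max N s, fun a ha k hk => ?_⟩
    rw [Finset.coe_insert, Submodule.mem_span_insert] at hk
    obtain ⟨b, z, hz, rfl⟩ := hk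
    rw [map_add, map_smul, smul_add, smul_comm, hN a (Ideal.pow_le_pow_right (le_max_left _ _) ha),
      hs a (Ideal.pow_le_pow_right (le_max_right _ _) ha) z hz, smul_zero, add_zero]

end G0

theorem t_G0 (h : S_WI.{u}) : S_G0.{u} := by
  intro R _ _ r y w _ hy N M _ _ _ _ _ φ hW
  have hW' : Function.Injective (eta y (Lw w M)) := hW
  have hch : ∀ (X : Type u) [AddCommGroup X] [Module R X] (x : X),
      eta y X x = 0 ↔ ∃ N : ℕ, ∀ a ∈ w ^ N, a • x = 0 := by
    intro X _ _ x
    have h1 := (h R r y X X).2.1 x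
    rwa [hy] at h1
  let K0 : Submodule R N := LinearMap.ker (eta y (Lw w N) ∘ₗ lm w N)
  have hK0 : ∀ n, n ∈ K0 ↔ ∃ N0 : ℕ, ∀ a ∈ w ^ N0, a • lm w N n = 0 := fun n => hch _ _
  have hfg : K0.FG := IsNoetherian.noetherian _
  -- `φ` of `K0` dies in the localization
  obtain ⟨c, hc, hc'⟩ := exists_kill w (K0.map φ) (hfg.map φ) fun k hk => by
    obtain ⟨n, hn, rfl⟩ := Submodule.mem_map.1 hk
    apply hW'
    rw [map_zero, hch]
    obtain ⟨N0, hN0⟩ := (hK0 n).1 hn
    refine ⟨N0, fun a ha => ?_⟩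
    rw [← lmap_lm, ← map_smul, hN0 a ha, map_zero]
  obtain ⟨s, hs⟩ := G0.unif w (lm w N) K0 hfg fun k hk => (hK0 k).1 hk
  obtain ⟨c', hc1, hc1'⟩ := exists_kill w (w ^ s • K0) (IsNoetherian.noetherian _) fun k hk => by
    refine Submodule.smul_induction_on hk (fun a ha n hn => ?_) (fun x y hx hy => ?_)
    · rw [map_smul]
      exact hs a ha n hn
    · rw [map_add, hx, hy, add_zero]
  have hKs : ∀ a ∈ w ^ s, ∀ x ∈ K0.map (LinearMap.lsmul R N (c * c')), a • x = 0 := by
    intro a ha x hx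
    obtain ⟨n, hn, rfl⟩ := Submodule.mem_map.1 hx
    show a • ((c * c') • n) = 0
    have h2 : c' • (a • n) = 0 := hc1' _ (Submodule.smul_mem_smul ha hn)
    rw [mul_smul, smul_comm a c, smul_comm a c', h2, smul_zero]
  refine ⟨K0.map (LinearMap.lsmul R N (c * c')), ?_, ⟨s, hKs⟩, ?_⟩
  · intro x hx
    obtain ⟨n, hn, rfl⟩ := Submodule.mem_map.1 hx
    show φ ((c * c') • n) = 0
    rw [map_smul, mul_comm, mul_smul, hc' _ (Submodule.mem_map_of_mem hn), smul_zero]
  · show Function.Injective (eta y (Lw w (N ⧸ K0.map (LinearMap.lsmul R N (c * c')))))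
    rw [← LinearMap.ker_eq_bot, LinearMap.ker_eq_bot']
    intro ξ hξ
    obtain ⟨N0, hN0⟩ := (hch _ _).1 hξ
    obtain ⟨q, v, hv, hq⟩ := lw_surj w ξ
    obtain ⟨n, rfl⟩ := Submodule.mkQ_surjective _ q
    have hn : n ∈ K0 := by
      rw [hK0]
      refine ⟨N0 + s, fun a ha => ?_⟩
      rw [pow_add] at ha
      refine Submodule.mul_induction_on ha (fun a ha b hb => ?_) (fun a b ha hb => ?_)
      · have h3 : lm w (N ⧸ K0.map (LinearMap.lsmul R N (c * c')))
            (Submodule.mkQ (K0.map (LinearMap.lsmul R N (c * c'))) (a • n)) = 0 := by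
          rw [map_smul, map_smul, ← hq, smul_comm, hN0 a ha, smul_zero]
        obtain ⟨u, hu, hu'⟩ := (lm_eq_zero_iff w _).1 h3
        rw [← map_smul, Submodule.mkQ_apply, Submodule.Quotient.mk_eq_zero] at hu'
        have h4 := hKs b hb _ hu'
        refine lw_smul_inj w hu ?_
        rw [← map_smul, ← map_smul]
        have h5 : u • ((a * b) • n) = b • (u • (a • n)) := by
          rw [smul_smul, smul_smul, smul_smul]
          congr 1
          ring
        rw [h5, h4, map_zero]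
      · rw [add_smul, ha, hb, add_zero]
    have h6 : (c * c') • Submodule.mkQ (K0.map (LinearMap.lsmul R N (c * c'))) n = 0 := by
      rw [← map_smul, Submodule.mkQ_apply, Submodule.Quotient.mk_eq_zero]
      exact Submodule.mem_map_of_mem (f := LinearMap.lsmul R N (c * c')) hn
    refine lw_smul_inj w hv (lw_smul_inj w (mul_notMem w hc hc1) ?_)
    rw [hq, ← map_smul, h6, map_zero]

end Pool.Agent.K6.H47.GL
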