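import Pool.Agent.K6.H47.GL.Stm

/-!
# Piece GL: globalizing an extension
-/

set_option autoImplicit false

open TensorProduct

universe u

namespace Pool.Agent.K6.H47.GL

theorem gl_isUnit {R : Type u} [CommRing R] {w : Ideal R} [w.IsPrime] {X : Type u}
    [AddCommGroup X] [Module R X] (hX : WLoc w X) (s : w.primeCompl) :
    IsUnit (algebraMap R (Module.End R X) s) := by
  rw [Module.End.isUnit_iff]
  exact hX s s.2

theorem gl_main {R : Type u} [CommRing R] (w : Ideal R) [w.IsPrime]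
    {N C M G X' : Type u} [AddCommGroup N] [Module R N] [AddCommGroup C] [Module R C]
    [AddCommGroup M] [Module R M] [AddCommGroup G] [Module R G] [AddCommGroup X'] [Module R X']
    (hX' : WLoc w X') (i : Lw w N →ₗ[R] X') (π : X' →ₗ[R] Lw w C) (hS : SES i π)
    (φ : N →ₗ[R] M) (p : G →ₗ[R] C) (hp : Function.Surjective p) (l : G →ₗ[R] X')
    (hl : ∀ g, π (l g) = LocalizedModule.mkLinearMap w.primeCompl C (p g))
    (c : R) (hc : c ∉ w) (h : LinearMap.ker p →ₗ[R] N)
    (hh : ∀ y, i (LocalizedModule.mkLinearMap w.primeCompl N (h y)) = c • l y)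
    (k' : G →ₗ[R] M) (hk' : ∀ y : LinearMap.ker p, k' y = φ (h y)) [Module.Finite R N]
    [Module.Finite R G] :
    ∃ (N' : Type u) (_ : AddCommGroup N') (_ : Module R N') (_ : Module.Finite R N')
      (ι : N →ₗ[R] N') (ρ : N' →ₗ[R] C) (ψ : N' →ₗ[R] M), SES ι ρ ∧ ψ ∘ₗ ι = φ ∧
      Nonempty (X' ≃ₗ[R] Lw w N') := by
  let mkN := LocalizedModule.mkLinearMap w.primeCompl N
  let mkC := LocalizedModule.mkLinearMap w.primeCompl C
  let s0 : LinearMap.ker p →ₗ[R] N × G := h.prod (-(LinearMap.ker p).subtype)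
  have hs0 : ∀ y, s0 y = (h y, -(y : G)) := fun y => rfl
  let Sb : Submodule R (N × G) := LinearMap.range s0
  have hSb : ∀ y, (h y, -(y : G)) ∈ Sb := fun y => ⟨y, hs0 y⟩
  let q : N × G →ₗ[R] (N × G) ⧸ Sb := Sb.mkQ
  have hq0 : ∀ z, q z = 0 ↔ ∃ y : LinearMap.ker p, z = (h y, -(y : G)) := by
    intro z
    rw [show q z = Submodule.Quotient.mk z from rfl, Submodule.Quotient.mk_eq_zero]
    constructor
    · rintro ⟨y, hy⟩
      exact ⟨y, hy.symm⟩
    · rintro ⟨y, rfl⟩
      exact hSb y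
  let ι : N →ₗ[R] (N × G) ⧸ Sb := q ∘ₗ LinearMap.inl R N G
  let ρ : (N × G) ⧸ Sb →ₗ[R] C := Sb.liftQ (p ∘ₗ LinearMap.snd R N G) (by
    rintro _ ⟨y, rfl⟩
    rw [LinearMap.mem_ker, hs0, LinearMap.comp_apply, LinearMap.snd_apply, map_neg,
      LinearMap.mem_ker.mp y.2, neg_zero])
  let ψ : (N × G) ⧸ Sb →ₗ[R] M := Sb.liftQ (φ.coprod k') (by
    rintro _ ⟨y, rfl⟩
    rw [LinearMap.mem_ker, hs0, LinearMap.coprod_apply]
    simp only [map_neg, hk']
    exact add_neg_cancel _)
  let Θ : (N × G) ⧸ Sb →ₗ[R] X' := Sb.liftQ ((i ∘ₗ mkN).coprod (c • l)) (by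
    rintro _ ⟨y, rfl⟩
    rw [LinearMap.mem_ker, hs0, LinearMap.coprod_apply]
    simp only [LinearMap.comp_apply, LinearMap.smul_apply, map_neg]
    rw [show i (mkN (h y)) = c • l y from hh y]
    exact add_neg_cancel _)
  have hρ : ∀ n g, ρ (q (n, g)) = p g := fun n g => rfl
  have hψ : ∀ n g, ψ (q (n, g)) = φ n + k' g := fun n g => rfl
  have hΘ : ∀ n g, Θ (q (n, g)) = i (mkN n) + c • l g := fun n g => rfl
  have hιq : ∀ n, ι n = q (n, 0) := fun n => rfl
  have hmod : ∀ (n : N) (y : LinearMap.ker p), q (n, (y : G)) = ι (n + h y) := by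
    intro n y
    rw [hιq, ← sub_eq_zero, ← map_sub]
    rw [hq0]
    refine ⟨-y, ?_⟩
    ext
    · simp
    · simp
  have hιinj : Function.Injective ι := by
    rw [← LinearMap.ker_eq_bot, LinearMap.ker_eq_bot']
    intro n hn
    rw [hιq, hq0] at hn
    obtain ⟨y, hy⟩ := hn
    have h1 := congrArg Prod.snd hy
    have h2 := congrArg Prod.fst hy
    simp only at h1 h2
    have h3 : y = 0 := by
      apply Subtype.ext
      rw [Submodule.coe_zero]
      exact neg_eq_zero.mp h1.symm
    rw [h2, h3, map_zero]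
  have hfin : Module.Finite R ((N × G) ⧸ Sb) := inferInstance
  refine ⟨(N × G) ⧸ Sb, inferInstance, inferInstance, hfin, ι, ρ, ψ, ⟨hιinj, ?_, ?_⟩, ?_, ?_⟩
  · -- exactness
    intro z
    obtain ⟨⟨n, g⟩, rfl⟩ := Sb.mkQ_surjective z
    change ρ (q (n, g)) = 0 ↔ _
    rw [hρ]
    constructor
    · intro hg
      exact ⟨n + h ⟨g, hg⟩, (hmod n ⟨g, hg⟩).symm⟩
    · rintro ⟨n', hn'⟩
      have h1 : ρ (ι n') = ρ (q (n, g)) := congrArg ρ hn'
      rw [hιq, hρ, hρ, map_zero] at h1
      exact h1.symm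
  · intro x
    obtain ⟨g, rfl⟩ := hp x
    exact ⟨q (0, g), hρ 0 g⟩
  · ext n
    rw [LinearMap.comp_apply, hιq, hψ, map_zero, add_zero]
  · -- the localization
    have hloc : IsLocalizedModule w.primeCompl Θ := by
      refine ⟨gl_isUnit hX', ?_, ?_⟩
      · intro x
        obtain ⟨⟨c0, s⟩, hs⟩ := IsLocalizedModule.surj w.primeCompl mkC (π x)
        obtain ⟨g0, rfl⟩ := hp c0
        have h1 : π ((s : R) • x - l g0) = 0 := by
          rw [map_sub, map_smul, hl, sub_eq_zero]
          exact hs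
        obtain ⟨u, hu⟩ := (hS.exact _).mp h1
        obtain ⟨⟨n, s'⟩, hs'⟩ := IsLocalizedModule.surj w.primeCompl mkN u
        have hs'' : (s' : R) • u = mkN n := hs'
        refine ⟨(q (c • n, (s' : R) • g0), ⟨c, hc⟩ * s' * s), ?_⟩
        change ((c * (s' : R)) * (s : R)) • x = Θ (q (c • n, (s' : R) • g0))
        rw [hΘ, map_smul, map_smul, ← hs'', map_smul, map_smul, hu]
        simp only [smul_sub, smul_smul]
        rw [sub_add_cancel, mul_assoc]
      · intro x₁ x₂ hx
        obtain ⟨⟨n, g⟩, hng⟩ := Sb.mkQ_surjective (x₁ - x₂)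
        have h0 : Θ (q (n, g)) = 0 := by
          change Θ (Sb.mkQ (n, g)) = 0
          rw [hng, map_sub, hx, sub_self]
        suffices hsuf : ∃ t : R, t ∉ w ∧ t • q (n, g) = 0 by
          obtain ⟨t, ht, ht0⟩ := hsuf
          refine ⟨⟨t, ht⟩, ?_⟩
          change t • x₁ = t • x₂
          rw [← sub_eq_zero, ← smul_sub, ← hng]
          exact ht0
        have h1 : π (Θ (q (n, g))) = c • mkC (p g) := by
          rw [hΘ, map_add, map_smul, hl, hS.exact.apply_apply_eq_zero, zero_add]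
        rw [h0, map_zero, ← map_smul, ← map_smul] at h1
        obtain ⟨s, hs⟩ := (IsLocalizedModule.eq_zero_iff w.primeCompl mkC).mp h1.symm
        have hs1 : p (((s : R) * c) • g) = 0 := by
          rw [mul_smul, map_smul]
          exact hs
        have hsc : (s : R) * c ∉ w := fun hmem =>
          ((inferInstance : w.IsPrime).mem_or_mem hmem).elim s.2 hc
        let y : LinearMap.ker p := ⟨((s : R) * c) • g, hs1⟩
        have h2 : ((s : R) * c) • q (n, g) = ι (((s : R) * c) • n + h y) := by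
          rw [← map_smul, Prod.smul_mk]
          exact hmod _ y
        have h3 : i (mkN (((s : R) * c) • n + h y)) = 0 := by
          have h4 : Θ (ι (((s : R) * c) • n + h y)) = i (mkN (((s : R) * c) • n + h y)) := by
            rw [hιq, hΘ, map_zero, smul_zero, add_zero]
          rw [← h4, ← h2, map_smul, h0, smul_zero]
        have h4 : mkN (((s : R) * c) • n + h y) = 0 := by
          apply hS.inj
          rw [h3, map_zero]
        obtain ⟨t, ht⟩ := (IsLocalizedModule.eq_zero_iff w.primeCompl mkN).mp h4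
        refine ⟨(t : R) * ((s : R) * c), fun hmem =>
          ((inferInstance : w.IsPrime).mem_or_mem hmem).elim t.2 hsc, ?_⟩
        have ht' : (t : R) • (((s : R) * c) • n + h y) = 0 := ht
        rw [mul_smul, h2, ← map_smul, ht', map_zero]
    exact ⟨IsLocalizedModule.linearEquiv w.primeCompl Θ
      (LocalizedModule.mkLinearMap w.primeCompl ((N × G) ⧸ Sb))⟩

theorem t_GL : S_GL.{u} := by
  intro R _ _ w _ N C M _ _ _ _ _ _ _ _ X' _ _ hX' i π hS φ φ' hφ
  obtain ⟨m, p, hp⟩ := Module.Finite.exists_fin' R C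
  let mkN := LocalizedModule.mkLinearMap w.primeCompl N
  let mkC := LocalizedModule.mkLinearMap w.primeCompl C
  let mkM := LocalizedModule.mkLinearMap w.primeCompl M
  obtain ⟨l, hl⟩ := Module.projective_lifting_property π (mkC ∘ₗ p) hS.surj
  have hl' : ∀ g, π (l g) = mkC (p g) := fun g => LinearMap.congr_fun hl g
  -- the lift to the kernel
  have hmem : ∀ y : LinearMap.ker p, (l ∘ₗ (LinearMap.ker p).subtype) y ∈ LinearMap.range i := by
    intro y
    have h1 : π (l y) = 0 := by
      rw [hl', LinearMap.mem_ker.mp y.2, map_zero]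
    exact (hS.exact _).mp h1
  let g : LinearMap.ker p →ₗ[R] Lw w N := (LinearEquiv.ofInjective i hS.inj).symm.toLinearMap ∘ₗ
    (l ∘ₗ (LinearMap.ker p).subtype).codRestrict (LinearMap.range i) hmem
  have hg : ∀ y, i (g y) = l y := by
    intro y
    have h1 := (LinearEquiv.ofInjective i hS.inj).apply_symm_apply
      ((l ∘ₗ (LinearMap.ker p).subtype).codRestrict (LinearMap.range i) hmem y)
    exact congrArg Subtype.val h1
  have hfp : Module.FinitePresentation R (LinearMap.ker p) :=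
    Module.finitePresentation_of_finite R _
  have hfpG : Module.FinitePresentation R (Fin m → R) :=
    Module.finitePresentation_of_finite R _
  obtain ⟨h0, s, hs⟩ := Module.FinitePresentation.exists_lift_of_isLocalizedModule
    w.primeCompl mkN g
  obtain ⟨k0, s2, hs2⟩ := Module.FinitePresentation.exists_lift_of_isLocalizedModule
    w.primeCompl mkM (φ' ∘ₗ l)
  have hs' : ∀ y, mkN (h0 y) = (s : R) • g y := fun y => LinearMap.congr_fun hs y
  have hs2' : ∀ x, mkM (k0 x) = (s2 : R) • φ' (l x) := fun x => LinearMap.congr_fun hs2 x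
  have hφ' : ∀ n, φ' (i (mkN n)) = mkM (φ n) := by
    intro n
    have h1 := LinearMap.congr_fun hφ (mkN n)
    rw [LinearMap.comp_apply] at h1
    rw [h1]
    exact IsLocalizedModule.map_apply _ _ _ _ _
  have hcomp : mkM ∘ₗ ((s : R) • (k0 ∘ₗ (LinearMap.ker p).subtype)) =
      mkM ∘ₗ ((s2 : R) • (φ ∘ₗ h0)) := by
    refine LinearMap.ext fun y => ?_
    simp only [LinearMap.comp_apply, LinearMap.smul_apply, map_smul, Submodule.subtype_apply]
    rw [hs2' y, ← hφ' (h0 y), hs' y, map_smul, map_smul, hg y, smul_comm]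
  obtain ⟨s3, hs3⟩ := Module.Finite.exists_smul_of_comp_eq_of_isLocalizedModule w.primeCompl mkM
    _ _ hcomp
  have hs3' : ∀ y : LinearMap.ker p, (s3 : R) • (s : R) • k0 y = (s3 : R) • (s2 : R) • φ (h0 y) :=
    fun y => LinearMap.congr_fun hs3 y
  refine gl_main w hX' i π hS φ p hp l hl' ((s3 : R) * (s2 : R) * (s : R)) ?_
    (((s3 : R) * (s2 : R)) • h0) ?_ (((s3 : R) * (s : R)) • k0) ?_
  · exact (s3 * s2 * s).2
  · intro y
    rw [LinearMap.smul_apply, map_smul, map_smul]
    rw [show LocalizedModule.mkLinearMap w.primeCompl N (h0 y) = (s : R) • g y from hs' y]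
    rw [map_smul, hg y, smul_smul]
  · intro y
    rw [LinearMap.smul_apply, LinearMap.smul_apply, map_smul, mul_smul, hs3' y, mul_smul]

end Pool.Agent.K6.H47.GL
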