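import Pool.Agent.K6.H47.GL.Stm

/-!
# Piece IS: closure properties of `ExAt`
-/

set_option autoImplicit false

open TensorProduct

universe u

namespace Pool.Agent.K6.H47.GL

namespace IsP

variable {R : Type u} [CommRing R] (C : FlatRes R)

/-- the submodule of boundaries -/
def BS (X : Type u) [AddCommGroup X] [Module R X] :
    ∀ p : ℕ, Submodule R (C.F p ⊗[R] X)
  | 0 => ⊥
  | p + 1 => LinearMap.range ((C.δ p).rTensor X)

theorem bd_iff (X : Type u) [AddCommGroup X] [Module R X] (p : ℕ) (z : C.F p ⊗[R] X) :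
    Bd C X p z ↔ z ∈ BS C X p := by
  cases p with
  | zero => exact Iff.rfl
  | succ q => exact Iff.rfl

theorem lT_rT {X Y : Type u} [AddCommGroup X] [Module R X] [AddCommGroup Y] [Module R Y]
    (f : X →ₗ[R] Y) (p : ℕ) (z : C.F p ⊗[R] X) :
    (C.δ p).rTensor Y (f.lTensor (C.F p) z) = f.lTensor (C.F (p + 1)) ((C.δ p).rTensor X z) := by
  rw [← LinearMap.comp_apply, ← LinearMap.comp_apply, LinearMap.rTensor_comp_lTensor,
    LinearMap.lTensor_comp_rTensor]

theorem bd_map {X Y : Type u} [AddCommGroup X] [Module R X] [AddCommGroup Y] [Module R Y]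
    (f : X →ₗ[R] Y) (p : ℕ) (z : C.F p ⊗[R] X) (h : Bd C X p z) :
    Bd C Y p (f.lTensor (C.F p) z) := by
  cases p with
  | zero =>
    have hz : z = 0 := h
    show f.lTensor (C.F 0) z = 0
    rw [hz, map_zero]
  | succ q =>
    obtain ⟨y, rfl⟩ := h
    exact ⟨f.lTensor (C.F q) y, lT_rT C f q y⟩

theorem flat (X : Type u) [AddCommGroup X] [Module R X] (hX : Module.Flat R X) (p : ℕ)
    (hp : p < C.m) : ExAt C X p := by
  intro z hz
  cases p with
  | zero =>
    have h := Module.Flat.rTensor_preserves_injective_linearMap (M := X) (C.δ 0) (C.inj hp)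
    exact h (by rw [hz, map_zero])
  | succ q =>
    have h := Module.Flat.rTensor_exact X (C.exact q hp)
    exact (h z).1 hz

theorem tens (X S : Type u) [AddCommGroup X] [Module R X] [AddCommGroup S] [Module R S]
    (hS : Module.Flat R S) (p : ℕ) (hp : p < C.m) (h : ExAt C X p) : ExAt C (S ⊗[R] X) p := by
  have nat : ∀ (q : ℕ) (z : C.F q ⊗[R] (S ⊗[R] X)),
      TensorProduct.leftComm R (C.F (q + 1)) S X ((C.δ q).rTensor (S ⊗[R] X) z) =
      ((C.δ q).rTensor X).lTensor S (TensorProduct.leftComm R (C.F q) S X z) := by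
    intro q z
    have : (TensorProduct.leftComm R (C.F (q + 1)) S X).toLinearMap ∘ₗ
        (C.δ q).rTensor (S ⊗[R] X) =
        ((C.δ q).rTensor X).lTensor S ∘ₗ (TensorProduct.leftComm R (C.F q) S X).toLinearMap := by
      ext a s x
      simp
    exact LinearMap.congr_fun this z
  intro z hz
  have h1 : ((C.δ p).rTensor X).lTensor S (TensorProduct.leftComm R (C.F p) S X z) = 0 := by
    rw [← nat, hz, map_zero]
  cases p with
  | zero =>
    have hinj : Function.Injective ((C.δ 0).rTensor X) := by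
      rw [injective_iff_map_eq_zero]
      exact fun z hz => h z hz
    have h2 := Module.Flat.lTensor_preserves_injective_linearMap (M := S) _ hinj
    have h3 : TensorProduct.leftComm R (C.F 0) S X z = 0 := h2 (by rw [h1, map_zero])
    exact (TensorProduct.leftComm R (C.F 0) S X).injective (by rw [h3, map_zero])
  | succ q =>
    have hex : Function.Exact ((C.δ q).rTensor X) ((C.δ (q + 1)).rTensor X) := by
      intro y
      refine ⟨fun hy => h y hy, ?_⟩
      rintro ⟨x, rfl⟩
      rw [← LinearMap.comp_apply, ← LinearMap.rTensor_comp, (C.exact q hp).linearMap_comp_eq_zero,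
        LinearMap.rTensor_zero, LinearMap.zero_apply]
    have h2 := Module.Flat.lTensor_exact S hex
    obtain ⟨y, hy⟩ := (h2 _).1 h1
    refine ⟨(TensorProduct.leftComm R (C.F q) S X).symm y, ?_⟩
    apply (TensorProduct.leftComm R (C.F (q + 1)) S X).injective
    rw [nat, LinearEquiv.apply_symm_apply, hy]

theorem retract (X Y : Type u) [AddCommGroup X] [Module R X] [AddCommGroup Y] [Module R Y]
    (i : X →ₗ[R] Y) (π : Y →ₗ[R] X) (hi : π ∘ₗ i = LinearMap.id) (p : ℕ) (h : ExAt C Y p) :
    ExAt C X p := by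
  intro z hz
  have h1 : Bd C Y p (i.lTensor (C.F p) z) := h _ (by rw [lT_rT, hz, map_zero])
  have h2 := bd_map C π p _ h1
  rwa [← LinearMap.comp_apply, ← LinearMap.lTensor_comp, hi, LinearMap.lTensor_id,
    LinearMap.id_apply] at h2

theorem fsupp (X : Type u) [AddCommGroup X] [Module R X] (ι : Type u) (p : ℕ) (h : ExAt C X p) :
    ExAt C (ι →₀ X) p := by
  classical
  have key : ∀ z : C.F p ⊗[R] (ι →₀ X), ∃ s : Finset ι, ∀ t, s ⊆ t →
      z = ∑ i ∈ t, (Finsupp.lsingle i : X →ₗ[R] (ι →₀ X)).lTensor (C.F p)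
        ((Finsupp.lapply i : (ι →₀ X) →ₗ[R] X).lTensor (C.F p) z) := by
    intro z
    induction z using TensorProduct.induction_on with
    | zero => exact ⟨∅, fun t _ => by simp⟩
    | tmul a f =>
      refine ⟨f.support, fun t ht => ?_⟩
      have hf : f = ∑ i ∈ t, Finsupp.single i (f i) := by
        rw [← Finset.sum_subset ht]
        · exact (Finsupp.sum_single f).symm
        · intro i _ hi
          rw [Finsupp.notMem_support_iff.1 hi, Finsupp.single_zero]
      conv_lhs => rw [hf, TensorProduct.tmul_sum]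
      exact Finset.sum_congr rfl fun i _ => by simp
    | add x y hx hy =>
      obtain ⟨s, hs⟩ := hx
      obtain ⟨s', hs'⟩ := hy
      refine ⟨s ∪ s', fun t ht => ?_⟩
      have h1 := hs t (Finset.subset_union_left.trans ht)
      have h2 := hs' t (Finset.subset_union_right.trans ht)
      simp only [map_add, Finset.sum_add_distrib]
      rw [← h1, ← h2]
  intro z hz
  obtain ⟨s, hs⟩ := key z
  rw [bd_iff, hs s (Finset.Subset.refl s)]
  refine Submodule.sum_mem _ fun i _ => ?_
  rw [← bd_iff]
  refine bd_map C _ p _ (h _ ?_)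
  rw [lT_rT, hz, map_zero]

theorem union (X : Type u) [AddCommGroup X] [Module R X] (U : ℕ → Submodule R X)
    (hU : Monotone U) (hUx : ∀ x, ∃ k, x ∈ U k) (p : ℕ) (h : ∀ k, ExAt C (U k) p) :
    ExAt C X p := by
  have key : ∀ z : C.F p ⊗[R] X, ∃ (k : ℕ) (y : C.F p ⊗[R] (U k)),
      (U k).subtype.lTensor (C.F p) y = z := by
    intro z
    induction z using TensorProduct.induction_on with
    | zero => exact ⟨0, 0, map_zero _⟩
    | tmul a x =>
      obtain ⟨k, hk⟩ := hUx x
      exact ⟨k, a ⊗ₜ ⟨x, hk⟩, by simp⟩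
    | add x y hx hy =>
      obtain ⟨k, x', rfl⟩ := hx
      obtain ⟨l, y', rfl⟩ := hy
      refine ⟨max k l, (Submodule.inclusion (hU (le_max_left k l))).lTensor (C.F p) x' +
        (Submodule.inclusion (hU (le_max_right k l))).lTensor (C.F p) y', ?_⟩
      rw [map_add, ← LinearMap.comp_apply, ← LinearMap.comp_apply, ← LinearMap.lTensor_comp,
        ← LinearMap.lTensor_comp, Submodule.subtype_comp_inclusion,
        Submodule.subtype_comp_inclusion]
  intro z hz
  obtain ⟨k, y, rfl⟩ := key z
  refine bd_map C _ p _ (h k y ?_)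
  have hfl := C.flat (p + 1)
  have hinj := Module.Flat.lTensor_preserves_injective_linearMap (M := C.F (p + 1))
    (U k).subtype (U k).subtype_injective
  apply hinj
  rw [map_zero, ← lT_rT, hz]

end IsP

theorem t_IS : S_IS.{u} := by
  intro R _ C p hp
  exact ⟨fun X _ _ hX => IsP.flat C X hX p hp, fun X S _ _ _ _ hS h => IsP.tens C X S hS p hp h,
    fun X Y _ _ _ _ i π hi h => IsP.retract C X Y i π hi p h,
    fun X _ _ ι h => IsP.fsupp C X ι p h,
    fun X _ _ U hU hUx h => IsP.union C X U hU hUx p h⟩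

end Pool.Agent.K6.H47.GL
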