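import Pool.Agent.K6.H9.KK.Ba

/-!
# KK: killing a local cohomology module by an extension
-/

set_option autoImplicit false

open TensorProduct

universe u

namespace Pool.Agent.K6.H47.GL

open Pool.Agent.K6.H9.KK

namespace KKp

/-- the conclusion of KK -/
def Concl {R : Type u} [CommRing R] {r : ℕ} (y : Fin r → R) (w : Ideal R) [w.IsPrime] (j : ℕ)
    (X : Type u) [AddCommGroup X] [Module R X] : Prop :=
  ∃ (C : Type u) (_ : AddCommGroup C) (_ : Module R C) (_ : Module.Finite R C)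
      (X' : Type u) (_ : AddCommGroup X') (_ : Module R X') (i : X →ₗ[R] X')
      (π : X' →ₗ[R] Lw w C), Off w C ∧ WLoc w X' ∧ SES i π ∧ Wlt y (j + 1) X' ∧
      ∀ (Z : Type u) [AddCommGroup Z] [Module R Z], WLoc w Z → Wlt y (j + 1) Z →
        ∀ φ : X →ₗ[R] Z, ∃ φ' : X' →ₗ[R] Z, φ' ∘ₗ i = φ

theorem lift_inj {R : Type u} [CommRing R] {A B C : Type u} [AddCommGroup A] [Module R A]
    [AddCommGroup B] [Module R B] [AddCommGroup C] [Module R C] (f : B →ₗ[R] C)
    (hf : Function.Injective f) (h : A →ₗ[R] C) (h0 : ∀ a, h a ∈ LinearMap.range f) :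
    ∃ φ : A →ₗ[R] B, ∀ a, f (φ a) = h a := by
  let e : B ≃ₗ[R] LinearMap.range f := LinearEquiv.ofInjective f hf
  refine ⟨e.symm.toLinearMap ∘ₗ LinearMap.codRestrict (LinearMap.range f) h h0, ?_⟩
  intro a
  have h2 : e (e.symm (LinearMap.codRestrict (LinearMap.range f) h h0 a)) =
      LinearMap.codRestrict (LinearMap.range f) h h0 a := e.apply_symm_apply _
  exact congrArg Subtype.val h2

section

variable {R : Type u} [CommRing R] {w : Ideal R}

theorem Lw_sub {q : Ideal R} [q.IsPrime] {E : Type u} [AddCommGroup E] [Module R E]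
    (a : R) (ha : a ∉ q) (h : ∀ x : E, a • x = 0) : Subsingleton (Lw q E) := by
  refine ⟨?_⟩
  have h1 : ∀ x : Lw q E, x = 0 := by
    intro x
    obtain ⟨n, s, hs, hn⟩ := mk_surj' q x
    have h2 : mk q E n = 0 := (mk_eq_zero' q n).2 ⟨a, ha, h n⟩
    apply (wloc_Lw (w := q) E s hs).1
    change s • x = s • (0 : Lw q E)
    rw [hn, h2, smul_zero]
  intro a b
  rw [h1 a, h1 b]

theorem exAt_sub (D : FlatRes R) (X : Type u) [AddCommGroup X] [Module R X] [Subsingleton X]
    (p : ℕ) : ExAt D X p := by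
  intro z _
  have h1 : z = 0 := Subsingleton.elim _ _
  rw [h1]
  cases p with
  | zero => exact rfl
  | succ p => exact Submodule.zero_mem _

theorem off_tors {E : Type u} [AddCommGroup E] [Module R E] (s : ℕ)
    (h : ∀ a ∈ w ^ s, ∀ x : E, a • x = 0) : Off w E := by
  intro q hq hwq D p _
  obtain ⟨a, ha, haq⟩ := Set.not_subset.1 hwq
  have h1 : a ^ s ∉ q := fun h2 => haq (hq.mem_of_pow_mem s h2)
  have := Lw_sub (q := q) (E := E) (a ^ s) h1 (h _ (Ideal.pow_mem_pow ha s))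
  exact exAt_sub D _ p

end

theorem base (h1 : S_WI.{u}) (h2 : S_WL.{u}) {R : Type u} [CommRing R] {r : ℕ} (y : Fin r → R)
    (w : Ideal R) [w.IsPrime] (X : Type u) [AddCommGroup X] [Module R X]
    (hX : WLoc w X) (hW : Wlt y 1 X) (hT : TF y w 1 X) : Concl y w 1 X := by
  obtain ⟨E, hEfg, hEk, ⟨s, hs⟩, hE⟩ := hT
  have hinj : Function.Injective (eta y X) := hW 0 (by omega)
  have hP : WLoc w (Qk y ⊗[R] X) := wloc_tensor _ hX
  have hBP : WLoc w (Bk y ⊗[R] (Qk y ⊗[R] X)) := wloc_tensor _ hP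
  have hBX : WLoc w (Bk y ⊗[R] X) := wloc_tensor _ hX
  obtain ⟨κ, hκ⟩ : ∃ κ : Lw w E →ₗ[R] Qk y ⊗[R] X, κ = xl hP E.subtype := ⟨_, rfl⟩
  have hκi : Function.Injective κ := by
    rw [hκ]
    exact xl_inj hP _ (Submodule.injective_subtype E)
  have hκe : ∀ x, eta y _ (κ x) = 0 := by
    have h3 : eta y _ ∘ₗ κ = 0 := by
      apply xl_unique hBP
      apply LinearMap.ext
      intro e
      rw [hκ]
      simp only [LinearMap.comp_apply, xl_mk, LinearMap.zero_apply]
      exact hEk e.2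
    intro x
    exact congrArg (fun f => f x) h3
  have hκs : ∀ x, eta y (Qk y ⊗[R] X) x = 0 → ∃ z, κ z = x := by
    intro x hx
    obtain ⟨c, hc, hcx⟩ := hE x hx
    obtain ⟨z, hz⟩ := (wloc_Lw (w := w) E c hc).2 (mk w E ⟨c • x, hcx⟩)
    refine ⟨z, ?_⟩
    apply (hP c hc).1
    change c • κ z = c • x
    rw [← map_smul]
    have h3 : c • z = mk w E ⟨c • x, hcx⟩ := hz
    rw [h3, hκ, xl_mk]
    rfl
  have : Module.Finite R E := Module.Finite.iff_fg.2 hEfg
  obtain ⟨K, hK⟩ : ∃ K : Submodule R (Bk y ⊗[R] X), K = LinearMap.ker (eta y _ ∘ₗ pr y X) :=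
    ⟨_, rfl⟩
  have hKm : ∀ b, b ∈ K ↔ eta y _ (pr y X b) = 0 := by
    intro b
    rw [hK]
    exact Iff.rfl
  obtain ⟨π, hπ⟩ := lift_inj (A := K) κ hκi (pr y X ∘ₗ K.subtype) (by
    intro b
    have h6 : eta y _ (pr y X (b : K).1) = 0 := (hKm (b : K).1).1 (b : K).2
    obtain ⟨z, hz⟩ := hκs (pr y X (b : K).1) h6
    exact ⟨z, hz⟩)
  have hπ' : ∀ b : K, κ (π b) = pr y X b.1 := hπ
  obtain ⟨i, hi⟩ := lift_inj (A := X) (B := K) (C := Bk y ⊗[R] X) K.subtype
    (Submodule.injective_subtype K) (eta y X) (by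
    intro x
    refine ⟨⟨eta y X x, (hKm _).2 ?_⟩, rfl⟩
    rw [pr_eta, map_zero])
  have hi' : ∀ x : X, (i x).1 = eta y X x := hi
  refine ⟨E, inferInstance, inferInstance, inferInstance, K, inferInstance, inferInstance, i, π,
    ?_, ?_, ?_, ?_, ?_⟩
  · exact off_tors s (fun a ha x => Subtype.ext (hs a ha x.1 x.2))
  · rw [hK]
    exact wloc_ker _ hBX hBP
  · refine ⟨?_, ?_, ?_⟩
    · intro a b hab
      apply hinj
      rw [← hi', ← hi', hab]
    · intro b
      constructor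
      · intro hb
        have h3 : pr y X b.1 = 0 := by rw [← hπ', hb, map_zero]
        obtain ⟨x, hx⟩ := (pr_exact y X b.1).1 h3
        exact ⟨x, Subtype.ext (by rw [hi', hx])⟩
      · rintro ⟨x, rfl⟩
        apply hκi
        rw [hπ', hi', pr_eta, map_zero]
    · intro c
      obtain ⟨b, hb⟩ := pr_surj y X (κ c)
      refine ⟨⟨b, (hKm b).2 (by rw [hb, hκe])⟩, ?_⟩
      apply hκi
      rw [hπ']
      exact hb
  · have hses : SES (X := K) K.subtype (Submodule.mkQ (LinearMap.ker (eta y (Qk y ⊗[R] X))) ∘ₗ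
        pr y X) := by
      refine ⟨Submodule.injective_subtype K, ?_, ?_⟩
      · intro b
        rw [LinearMap.comp_apply, Submodule.mkQ_apply, Submodule.Quotient.mk_eq_zero,
          LinearMap.mem_ker, ← hKm]
        constructor
        · intro hb
          exact ⟨⟨b, hb⟩, rfl⟩
        · rintro ⟨b', rfl⟩
          exact b'.2
      · exact (Submodule.mkQ_surjective _).comp (pr_surj y X)
    refine (h2 R r y _ _ _ _ _ hses 1).2.1 ?_ ?_
    · intro p _
      exact (h1 R r y X X).2.2.1 p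
    · intro p hp
      obtain rfl : p = 0 := by omega
      change Function.Injective (eta y _)
      rw [injective_iff_map_eq_zero]
      intro x hx
      obtain ⟨x, rfl⟩ := Submodule.mkQ_surjective _ x
      rw [Submodule.mkQ_apply, Submodule.Quotient.mk_eq_zero, LinearMap.mem_ker]
      rw [(h1 R r y _ X).1] at hx ⊢
      intro k
      obtain ⟨N, hN⟩ := hx k
      rw [← map_smul, Submodule.mkQ_apply, Submodule.Quotient.mk_eq_zero, LinearMap.mem_ker,
        (h1 R r y _ X).1] at hN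
      obtain ⟨M, hM⟩ := hN k
      exact ⟨M + N, by rw [pow_add, mul_smul, hM]⟩
  · intro Z _ _ hZ hWZ φ
    have hZ0 : W y 0 Z := hWZ 0 (by omega)
    have hZ1 : Function.Injective (eta y (Qk y ⊗[R] Z)) := hWZ 1 (by omega)
    obtain ⟨φ', hφ'⟩ := lift_eta (A := K) y hZ0
        (LinearMap.lTensor (Bk y) φ ∘ₗ K.subtype) (by
      intro b
      rw [LinearMap.comp_apply, pr_nat]
      apply hZ1
      rw [← eta_nat, map_zero]
      change LinearMap.lTensor _ _ (eta y _ (pr y X b.1)) = 0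
      rw [(hKm _).1 b.2, map_zero])
    refine ⟨φ', ?_⟩
    apply LinearMap.ext
    intro x
    apply hZ0
    rw [LinearMap.comp_apply, hφ', LinearMap.comp_apply]
    change LinearMap.lTensor _ _ (i x).1 = _
    rw [hi', eta_nat]

theorem wlt_prod (h2 : S_WL.{u}) {R : Type u} [CommRing R] {r : ℕ} (y : Fin r → R) (e : ℕ)
    {X Y : Type u} [AddCommGroup X] [Module R X] [AddCommGroup Y] [Module R Y]
    (hX : Wlt y e X) (hY : Wlt y e Y) : Wlt y e (X × Y) := by
  have hses : SES (LinearMap.inl R X Y) (LinearMap.snd R X Y) := by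
    refine ⟨LinearMap.inl_injective, ?_, LinearMap.snd_surjective⟩
    intro b
    constructor
    · intro hb
      exact ⟨b.1, Prod.ext rfl hb.symm⟩
    · rintro ⟨x, rfl⟩
      rfl
  exact (h2 R r y _ _ _ _ _ hses e).1 hX hY

/-- `R → R^(m+1) → R^m` -/
theorem ses_fin (R : Type u) [CommRing R] (m : ℕ) :
    ∃ (f : R →ₗ[R] (Fin (m + 1) → R)) (g : (Fin (m + 1) → R) →ₗ[R] (Fin m → R)), SES f g := by
  refine ⟨LinearMap.single R (fun _ => R) 0, LinearMap.funLeft R R Fin.succ, ?_, ?_, ?_⟩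
  · intro a b hab
    have := congrFun hab 0
    simpa using this
  · intro b
    constructor
    · intro hb
      refine ⟨b 0, ?_⟩
      funext i
      refine Fin.cases ?_ (fun i => ?_) i
      · simp
      · have := congrFun hb i
        simp only [LinearMap.funLeft_apply, Pi.zero_apply] at this
        simp [this]
    · rintro ⟨x, rfl⟩
      funext i
      simp
  · intro b
    refine ⟨Fin.cons 0 b, ?_⟩
    funext i
    simp [LinearMap.funLeft_apply]

theorem wlt_free (h2 : S_WL.{u}) {R : Type u} [CommRing R] {r : ℕ} (y : Fin r → R)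
    (w : Ideal R) [w.IsPrime] (t : ℕ) (ht : Wlt y t (Lw w R)) (m : ℕ) :
    Wlt y t (Lw w (Fin m → R)) := by
  induction m with
  | zero =>
    have : Subsingleton (Lw w (Fin 0 → R)) := Lw_sub (1 : R)
      (fun h => Ideal.IsPrime.ne_top ‹_› ((Ideal.eq_top_iff_one w).2 h))
      (fun x => Subsingleton.elim _ _)
    exact fun p _ => W_subsingleton y p _
  | succ m ih =>
    obtain ⟨f, g, h⟩ := ses_fin R m
    exact (h2 R r y _ _ _ _ _ (ses_Lmap (w := w) h) t).1 ht ih

theorem flat_Lw {R : Type u} [CommRing R] (q : Ideal R) [q.IsPrime] (M : Type u) [AddCommGroup M]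
    [Module R M] [Module.Flat R M] : Module.Flat R (Lw q M) := by
  have : Module.Flat R (Localization q.primeCompl) := IsLocalization.flat _ q.primeCompl
  exact Module.Flat.trans R (Localization q.primeCompl) (Lw q M)

theorem step (h1 : S_WI.{u}) (h2 : S_WL.{u}) (h3 : S_CH.{u}) (h4 : S_IS.{u}) {R : Type u}
    [CommRing R] [IsNoetherianRing R] {r : ℕ} (y : Fin r → R)
    (w : Ideal R) [w.IsPrime] (t : ℕ) (ht : Wlt y t (Lw w R)) (j : ℕ) (hjt : j + 1 < t)
    (hj : 1 ≤ j) (X : Type u) [AddCommGroup X] [Module R X]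
    (hX : WLoc w X) (hW : Wlt y (j + 1) X) (hT : Concl y w j (Qk y ⊗[R] X)) :
    Concl y w (j + 1) X := by
  obtain ⟨C', _, _, _, P', _, _, i', π', hoff, hP', hses', hWP', hext⟩ := hT
  have hinj : Function.Injective (eta y X) := hW 0 (by omega)
  have hP : WLoc w (Qk y ⊗[R] X) := wloc_tensor _ hX
  have hBX : WLoc w (Bk y ⊗[R] X) := wloc_tensor _ hX
  obtain ⟨m, g, hg⟩ := Module.Finite.exists_fin' R C'
  obtain ⟨l0, hl0⟩ := Module.projective_lifting_property π' (mk w C' ∘ₗ g) hses'.surj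
  obtain ⟨l, hl⟩ : ∃ l : Lw w (Fin m → R) →ₗ[R] P', l = xl hP' l0 := ⟨_, rfl⟩
  have hlmk : ∀ x, l (mk w _ x) = l0 x := by
    intro x
    rw [hl, xl_mk]
  have hπl : ∀ z, π' (l z) = Lmap w g z := by
    have h5 : π' ∘ₗ l = Lmap w g := by
      apply xl_unique (wloc_Lw (w := w) C')
      apply LinearMap.ext
      intro x
      rw [LinearMap.comp_apply, LinearMap.comp_apply, LinearMap.comp_apply, hlmk, Lmap_mk]
      exact congrArg (fun f => f x) hl0
    intro z
    exact congrArg (fun f => f z) h5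
  have hsesC : SES (LinearMap.ker g).subtype g :=
    ⟨Submodule.injective_subtype _, LinearMap.exact_subtype_ker_map g, hg⟩
  have hsesL := ses_Lmap (w := w) hsesC
  obtain ⟨T, hT⟩ : ∃ T : (Bk y ⊗[R] X) × Lw w (Fin m → R) →ₗ[R] P',
      T = (i' ∘ₗ pr y X).coprod l := ⟨_, rfl⟩
  have hTa : ∀ b z, T (b, z) = i' (pr y X b) + l z := by
    intro b z
    rw [hT]
    rfl
  have hTs : Function.Surjective T := by
    intro p
    obtain ⟨z, hz⟩ := hsesL.surj (π' p)
    have h5 : π' (p - l z) = 0 := by rw [map_sub, hπl, hz, sub_self]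
    obtain ⟨x, hx⟩ := (hses'.exact _).1 h5
    obtain ⟨b, hb⟩ := pr_surj y X x
    exact ⟨(b, z), by rw [hTa, hb, hx, sub_add_cancel]⟩
  obtain ⟨K, hK⟩ : ∃ K : Submodule R ((Bk y ⊗[R] X) × Lw w (Fin m → R)), K = LinearMap.ker T :=
    ⟨_, rfl⟩
  have hKm : ∀ b z, (b, z) ∈ K ↔ i' (pr y X b) + l z = 0 := by
    intro b z
    rw [hK, LinearMap.mem_ker, hTa]
  have hK2 : ∀ x : K, i' (pr y X x.1.1) + l x.1.2 = 0 := fun x => (hKm _ _).1 x.2
  have hK3 : ∀ x : K, Lmap w g x.1.2 = 0 := by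
    intro x
    have h5 := congrArg π' (hK2 x)
    rw [map_add, map_zero, hπl, hses'.exact.apply_apply_eq_zero, zero_add] at h5
    exact h5
  obtain ⟨π, hπ⟩ := lift_inj (A := K) (Lmap w (LinearMap.ker g).subtype) hsesL.inj
    (LinearMap.snd R (Bk y ⊗[R] X) (Lw w (Fin m → R)) ∘ₗ K.subtype) (by
      intro x
      exact (hsesL.exact x.1.2).1 (hK3 x))
  have hπ2 : ∀ x : K, Lmap w (LinearMap.ker g).subtype (π x) = x.1.2 := hπ
  obtain ⟨i, hi⟩ := lift_inj (A := X) (B := K) (C := (Bk y ⊗[R] X) × Lw w (Fin m → R)) K.subtype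
    (Submodule.injective_subtype K)
    (LinearMap.inl R (Bk y ⊗[R] X) (Lw w (Fin m → R)) ∘ₗ eta y X) (by
      intro x
      refine ⟨⟨(eta y X x, 0), (hKm _ _).2 ?_⟩, rfl⟩
      rw [pr_eta, map_zero, map_zero, add_zero])
  have hi2 : ∀ x : X, (i x).1 = (eta y X x, 0) := hi
  have hfinC : Module.Finite R (LinearMap.ker g) := inferInstance
  refine ⟨LinearMap.ker g, inferInstance, inferInstance, hfinC, K, inferInstance, inferInstance,
    i, π, ?_, ?_, ?_, ?_, ?_⟩
  · intro q hq hwq D p hp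
    refine (h3 R D _ _ _ _ _ (ses_Lmap (w := q) hsesC)).2.1 p hp ?_ ?_
    · exact (h4 R D p hp).1 _ (flat_Lw q _)
    · intro q' hq'
      exact hoff q hwq D q' (by omega)
  · rw [hK]
    exact wloc_ker _ (wloc_prod hBX (wloc_Lw _)) hP'
  · refine ⟨?_, ?_, ?_⟩
    · intro a b hab
      apply hinj
      have h5 := hi2 a
      rw [hab, hi2 b] at h5
      exact (congrArg Prod.fst h5).symm
    · intro b
      constructor
      · intro hb
        have h5 : b.1.2 = 0 := by rw [← hπ2, hb, map_zero]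
        have h6 := hK2 b
        rw [h5, map_zero, add_zero] at h6
        have h7 : pr y X b.1.1 = 0 := hses'.inj (by rw [h6, map_zero])
        obtain ⟨x, hx⟩ := (pr_exact y X b.1.1).1 h7
        exact ⟨x, Subtype.ext (by rw [hi2, hx, ← h5])⟩
      · rintro ⟨x, rfl⟩
        apply hsesL.inj
        rw [hπ2, hi2, map_zero]
    · intro c
      have h5 : π' (l (Lmap w (LinearMap.ker g).subtype c)) = 0 := by
        rw [hπl, hsesL.exact.apply_apply_eq_zero]
      obtain ⟨x, hx⟩ := (hses'.exact _).1 h5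
      obtain ⟨b, hb⟩ := pr_surj y X x
      refine ⟨⟨(-b, Lmap w (LinearMap.ker g).subtype c), (hKm _ _).2 ?_⟩, ?_⟩
      · rw [map_neg, hb, map_neg, hx, neg_add_cancel]
      · apply hsesL.inj
        rw [hπ2]
  · have hses : SES (X := K) K.subtype T := by
      refine ⟨Submodule.injective_subtype K, ?_, hTs⟩
      intro b
      rw [← LinearMap.mem_ker, ← hK]
      constructor
      · intro hb
        exact ⟨⟨b, hb⟩, rfl⟩
      · rintro ⟨b', rfl⟩
        exact b'.2
    refine (h2 R r y _ _ _ _ _ hses (j + 1)).2.1 ?_ hWP'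
    refine wlt_prod h2 y _ ?_ ?_
    · intro p _
      exact (h1 R r y X X).2.2.1 p
    · intro p hp
      exact wlt_free h2 y w t ht m p (by omega)
  · intro Z _ _ hZ hWZ φ
    have hZ0 : W y 0 Z := hWZ 0 (by omega)
    have hQZ : WLoc w (Qk y ⊗[R] Z) := wloc_tensor _ hZ
    have hBZ : WLoc w (Bk y ⊗[R] Z) := wloc_tensor _ hZ
    obtain ⟨ψ, hψ⟩ := hext (Qk y ⊗[R] Z) hQZ (fun p hp => hWZ (p + 1) (by omega))
      (LinearMap.lTensor (Qk y) φ)
    obtain ⟨μ0, hμ0⟩ := Module.projective_lifting_property (pr y Z) (ψ ∘ₗ l0) (pr_surj y Z)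
    obtain ⟨μ, hμ⟩ : ∃ μ : Lw w (Fin m → R) →ₗ[R] Bk y ⊗[R] Z, μ = xl hBZ μ0 := ⟨_, rfl⟩
    have hμ2 : ∀ z, pr y Z (μ z) = ψ (l z) := by
      have h5 : pr y Z ∘ₗ μ = ψ ∘ₗ l := by
        apply xl_unique hQZ
        apply LinearMap.ext
        intro x
        simp only [LinearMap.comp_apply]
        rw [hlmk, hμ, xl_mk]
        exact congrArg (fun f => f x) hμ0
      intro z
      exact congrArg (fun f => f z) h5
    obtain ⟨φ', hφ'⟩ := lift_eta (A := K) y hZ0
        ((LinearMap.lTensor (Bk y) φ).coprod μ ∘ₗ K.subtype) (by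
      intro b
      have h5 : ((LinearMap.lTensor (Bk y) φ).coprod μ ∘ₗ K.subtype) b =
        LinearMap.lTensor (Bk y) φ b.1.1 + μ b.1.2 := rfl
      rw [h5, map_add, pr_nat, hμ2]
      have h6 : LinearMap.lTensor (Qk y) φ (pr y X b.1.1) = ψ (i' (pr y X b.1.1)) :=
        (congrArg (fun f => f (pr y X b.1.1)) hψ).symm
      rw [h6, ← map_add, hK2, map_zero])
    refine ⟨φ', ?_⟩
    apply LinearMap.ext
    intro x
    apply hZ0
    rw [LinearMap.comp_apply, hφ']
    have h5 : ((LinearMap.lTensor (Bk y) φ).coprod μ ∘ₗ K.subtype) (i x) =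
      LinearMap.lTensor (Bk y) φ (i x).1.1 + μ (i x).1.2 := rfl
    rw [h5, hi2, eta_nat, map_zero, add_zero]

end KKp

theorem t_KK (h1 : S_WI.{u}) (h2 : S_WL.{u}) (h3 : S_CH.{u}) (h4 : S_IS.{u}) : S_KK.{u} := by
  intro R _ _ r y w _ _ t ht j hj hjt
  induction j, hj using Nat.le_induction with
  | base =>
    intro X _ _ hX hW hT
    exact KKp.base h1 h2 y w X hX hW hT
  | succ j hj ih =>
    intro X _ _ hX hW hT
    exact KKp.step h1 h2 h3 h4 y w t ht j hjt hj X hX hW
      (ih (by omega) (Qk y ⊗[R] X) (wloc_tensor _ hX) (fun p hp => hW (p + 1) (by omega)) hT)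

end Pool.Agent.K6.H47.GL
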