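import Pool.Agent.K6.H47.GL.PIS

/-!
# Piece LT: homology local at `w` which vanishes below `w` is `w`-torsion
-/

set_option autoImplicit false

open TensorProduct

universe u

namespace Pool.Agent.K6.H47.GL

namespace LtP

variable {R : Type u} [CommRing R]

theorem loc_surj (S : Submonoid R) (F X : Type u) [AddCommGroup F] [Module R F] [AddCommGroup X]
    [Module R X] (y : F ⊗[R] LocalizedModule S X) :
    ∃ c ∈ S, ∃ x : F ⊗[R] X, c • y = (LocalizedModule.mkLinearMap S X).lTensor F x := by
  have h : IsLocalizedModule S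
    (TensorProduct.AlgebraTensorModule.rTensor R F (LocalizedModule.mkLinearMap S X)) :=
    IsLocalizedModule.rTensor (S := S) (N := F) (g := LocalizedModule.mkLinearMap S X)
  obtain ⟨⟨x, c⟩, hx⟩ := h.surj (TensorProduct.comm R F (LocalizedModule S X) y)
  refine ⟨c, c.2, TensorProduct.comm R X F x, ?_⟩
  have h1 : ((LocalizedModule.mkLinearMap S X).rTensor F) x =
      (c : R) • TensorProduct.comm R F (LocalizedModule S X) y := hx.symm
  apply (TensorProduct.comm R F (LocalizedModule S X)).injective
  rw [map_smul, ← h1]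
  clear hx h1
  induction x using TensorProduct.induction_on with
  | zero => simp
  | tmul a b => simp
  | add a b ha hb => rw [map_add, ha, hb, map_add, map_add, map_add]

theorem loc_inj (S : Submonoid R) (F X : Type u) [AddCommGroup F] [Module R F] [AddCommGroup X]
    [Module R X] (x : F ⊗[R] X) (hx : (LocalizedModule.mkLinearMap S X).lTensor F x = 0) :
    ∃ c ∈ S, c • x = 0 := by
  have h : IsLocalizedModule S
    (TensorProduct.AlgebraTensorModule.rTensor R F (LocalizedModule.mkLinearMap S X)) :=
    IsLocalizedModule.rTensor (S := S) (N := F) (g := LocalizedModule.mkLinearMap S X)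
  have h2 : ((LocalizedModule.mkLinearMap S X).rTensor F) (TensorProduct.comm R F X x) =
      TensorProduct.comm R F (LocalizedModule S X)
        ((LocalizedModule.mkLinearMap S X).lTensor F x) := by
    clear hx
    induction x using TensorProduct.induction_on with
    | zero => simp
    | tmul a b => simp
    | add a b ha hb => rw [map_add, map_add, ha, hb, map_add, map_add]
  rw [hx, map_zero] at h2
  have h3 : (TensorProduct.AlgebraTensorModule.rTensor R F (LocalizedModule.mkLinearMap S X))
      (TensorProduct.comm R F X x) = 0 := h2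
  obtain ⟨c, hc⟩ := (IsLocalizedModule.eq_zero_iff S _).1 h3
  refine ⟨c, c.2, ?_⟩
  apply (TensorProduct.comm R F X).injective
  rw [map_smul, map_zero]
  exact hc

/-- Bd is detected after localization. -/
theorem bd_loc (C : FlatRes R) (X : Type u) [AddCommGroup X] [Module R X] (S : Submonoid R)
    (p : ℕ) (z : C.F p ⊗[R] X)
    (h : Bd C (LocalizedModule S X) p ((LocalizedModule.mkLinearMap S X).lTensor (C.F p) z)) :
    ∃ c ∈ S, Bd C X p (c • z) := by
  cases p with
  | zero =>
    obtain ⟨c, hc, h1⟩ := loc_inj S (C.F 0) X z h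
    exact ⟨c, hc, h1⟩
  | succ q =>
    obtain ⟨y', hy'⟩ := h
    obtain ⟨c, hc, y, hy⟩ := loc_surj S (C.F q) X y'
    have h1 : (LocalizedModule.mkLinearMap S X).lTensor (C.F (q + 1))
        (c • z - (C.δ q).rTensor X y) = 0 := by
      rw [map_sub, map_smul, ← hy', ← map_smul, hy, IsP.lT_rT, sub_self]
    obtain ⟨c', hc', h2⟩ := loc_inj S (C.F (q + 1)) X _ h1
    refine ⟨c' * c, S.mul_mem hc' hc, c' • y, ?_⟩
    rw [map_smul, mul_smul]
    rw [smul_sub, sub_eq_zero] at h2
    exact h2.symm

theorem bd_local (C : FlatRes R) (w : Ideal R) (X : Type u) [AddCommGroup X] [Module R X]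
    (hloc : ∀ p, WLoc w (C.F p ⊗[R] X)) (p : ℕ) (z : C.F p ⊗[R] X) (c : R) (hc : c ∉ w)
    (h : Bd C X p (c • z)) : Bd C X p z := by
  cases p with
  | zero =>
    have h1 : c • z = 0 := h
    exact (hloc 0 c hc).1 (by simpa using h1)
  | succ q =>
    obtain ⟨u, hu⟩ := h
    obtain ⟨u', rfl⟩ := (hloc q c hc).2 u
    refine ⟨u', ?_⟩
    have h1 : c • ((C.δ q).rTensor X u') = c • z := by
      rw [← map_smul]
      exact hu
    exact (hloc (q + 1) c hc).1 h1

end LtP

theorem t_LT : S_LT.{u} := by
  intro R _ C w hw X _ _ hloc p hp hq z hz a ha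
  by_contra hcon
  push Not at hcon
  -- the ideal of `c` with `Bd (c z)`
  let I : Ideal R :=
    { carrier := {c | Bd C X p (c • z)}
      add_mem' := by
        intro c d hc hd
        rw [Set.mem_ofPred_eq, IsP.bd_iff] at *
        rw [add_smul]
        exact add_mem hc hd
      zero_mem' := by
        rw [Set.mem_ofPred_eq, IsP.bd_iff, zero_smul]
        exact zero_mem _
      smul_mem' := by
        intro d c hc
        rw [Set.mem_ofPred_eq, IsP.bd_iff] at *
        rw [smul_eq_mul, mul_smul]
        exact Submodule.smul_mem _ _ hc }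
  let S : Submonoid R :=
    { carrier := {x | ∃ c ∉ w, ∃ N : ℕ, x = c * a ^ N}
      mul_mem' := by
        rintro _ _ ⟨c, hc, N, rfl⟩ ⟨c', hc', N', rfl⟩
        refine ⟨c * c', fun h => ?_, N + N', by ring⟩
        rcases hw.mem_or_mem h with h | h
        · exact hc h
        · exact hc' h
      one_mem' := ⟨1, fun h => hw.ne_top ((Ideal.eq_top_iff_one w).2 h), 0, by simp⟩ }
  have hdis : Disjoint (I : Set R) (S : Set R) := by
    rw [Set.disjoint_left]
    rintro x hx ⟨c, hc, N, rfl⟩
    have hx' : Bd C X p ((c * a ^ N) • z) := hx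
    rw [mul_smul] at hx'
    exact hcon N (LtP.bd_local C w X hloc p _ c hc hx')
  obtain ⟨q, hqp, hIq, hqS⟩ := Ideal.exists_le_prime_disjoint I S hdis
  rw [Set.disjoint_left] at hqS
  have hqw : q ≤ w := by
    intro x hx
    by_contra hxw
    exact hqS hx ⟨x, hxw, 0, by simp⟩
  have haq : a ∉ q := fun h => hqS h
    ⟨1, fun h => hw.ne_top ((Ideal.eq_top_iff_one w).2 h), 1, by simp⟩
  have hlt : q < w := lt_of_le_of_ne hqw fun h => haq (h ▸ ha)
  have h1 := hq q hlt ((LocalizedModule.mkLinearMap q.primeCompl X).lTensor (C.F p) z)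
    (by rw [IsP.lT_rT, hz, map_zero])
  obtain ⟨c, hc, h2⟩ := LtP.bd_loc C X q.primeCompl p z h1
  exact hc (hIq h2)

end Pool.Agent.K6.H47.GL
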