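import Pool.Agent.K6.H47.GL.Stm

/-!
# Piece PI: products of flat modules over a noetherian ring
-/

set_option autoImplicit false

open TensorProduct

universe u

namespace Pool.Agent.K6.H47.GL

section PI

variable {R : Type u} [CommRing R] {F : Type u} [AddCommGroup F] [Module R F]

/-- the components -/
noncomputable abbrev cmp (N : Type*) [AddCommGroup N] [Module R N] (k : ℕ) :
    (ℕ → F) ⊗[R] N →ₗ[R] F ⊗[R] N :=
  (LinearMap.proj k : (ℕ → F) →ₗ[R] F).rTensor N

theorem cmp_nat {N N' : Type*} [AddCommGroup N] [Module R N] [AddCommGroup N'] [Module R N']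
    (f : N →ₗ[R] N') (k : ℕ) (z : (ℕ → F) ⊗[R] N) :
    cmp N' k (f.lTensor (ℕ → F) z) = f.lTensor F (cmp N k z) := by
  have h : (cmp (F := F) N' k) ∘ₗ (f.lTensor (ℕ → F)) = (f.lTensor F) ∘ₗ (cmp N k) := by
    rw [LinearMap.rTensor_comp_lTensor, LinearMap.lTensor_comp_rTensor]
  exact LinearMap.congr_fun h z

theorem free_apply {n : ℕ} (k : ℕ) (z : (ℕ → F) ⊗[R] (Fin n → R)) (j : Fin n) :
    TensorProduct.piScalarRight R R F (Fin n) (cmp (Fin n → R) k z) j =
      TensorProduct.piScalarRight R R (ℕ → F) (Fin n) z j k := by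
  induction z with
  | zero => simp
  | tmul x f => simp
  | add x y hx hy => simp only [map_add, Pi.add_apply, hx, hy]

theorem free_inj {n : ℕ} (z : (ℕ → F) ⊗[R] (Fin n → R))
    (hz : ∀ k, cmp (Fin n → R) k z = 0) : z = 0 := by
  apply (TensorProduct.piScalarRight R R (ℕ → F) (Fin n)).injective
  rw [map_zero]
  funext j k
  rw [← free_apply, hz, map_zero]
  rfl

theorem free_surj {n : ℕ} (e : ℕ → F ⊗[R] (Fin n → R)) :
    ∃ z : (ℕ → F) ⊗[R] (Fin n → R), ∀ k, cmp (Fin n → R) k z = e k := by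
  refine ⟨(TensorProduct.piScalarRight R R (ℕ → F) (Fin n)).symm
    (fun j k => TensorProduct.piScalarRight R R F (Fin n) (e k) j), fun k => ?_⟩
  apply (TensorProduct.piScalarRight R R F (Fin n)).injective
  funext j
  rw [free_apply, LinearEquiv.apply_symm_apply]

theorem pi_surj {N : Type*} [AddCommGroup N] [Module R N] [Module.Finite R N]
    (e : ℕ → F ⊗[R] N) : ∃ z : (ℕ → F) ⊗[R] N, ∀ k, cmp N k z = e k := by
  obtain ⟨n, π, hπ⟩ := Module.Finite.exists_fin' R N
  have hπ' : Function.Surjective (π.lTensor F) := LinearMap.lTensor_surjective F hπ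
  choose e' he' using fun k => hπ' (e k)
  obtain ⟨z', hz'⟩ := free_surj e'
  refine ⟨π.lTensor (ℕ → F) z', fun k => ?_⟩
  rw [cmp_nat, hz', he']

theorem pi_inj [IsNoetherianRing R] {N : Type*} [AddCommGroup N] [Module R N] [Module.Finite R N]
    (z : (ℕ → F) ⊗[R] N) (hz : ∀ k, cmp N k z = 0) : z = 0 := by
  obtain ⟨n, π, hπ⟩ := Module.Finite.exists_fin' R N
  have hfg : Module.Finite R (LinearMap.ker π) := inferInstance
  obtain ⟨m, σ, hσ⟩ := Module.Finite.exists_fin' R (LinearMap.ker π)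
  let ρ : (Fin m → R) →ₗ[R] (Fin n → R) := (LinearMap.ker π).subtype ∘ₗ σ
  have hex : Function.Exact ρ π := by
    intro x
    constructor
    · intro hx
      obtain ⟨w, hw⟩ := hσ ⟨x, hx⟩
      exact ⟨w, by simp only [ρ, LinearMap.comp_apply, hw, Submodule.subtype_apply]⟩
    · rintro ⟨w, rfl⟩
      exact (σ w).2
  obtain ⟨z', rfl⟩ := LinearMap.lTensor_surjective (ℕ → F) hπ z
  have h1 : ∀ k, ∃ w, ρ.lTensor F w = cmp (Fin n → R) k z' := by
    intro k
    have h2 := hz k
    rw [cmp_nat] at h2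
    exact (lTensor_exact F hex hπ _).mp h2
  choose w hw using h1
  obtain ⟨v, hv⟩ := free_surj w
  have h2 : z' - ρ.lTensor (ℕ → F) v = 0 := by
    apply free_inj
    intro k
    rw [map_sub, cmp_nat, hv, hw, sub_self]
  rw [sub_eq_zero.mp h2, ← LinearMap.comp_apply, ← LinearMap.lTensor_comp]
  have h3 : π ∘ₗ ρ = 0 := by
    ext x
    simp only [LinearMap.comp_apply, LinearMap.zero_apply]
    exact hex.apply_apply_eq_zero _
  rw [h3, LinearMap.lTensor_zero, LinearMap.zero_apply]

end PI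

theorem t_PI : S_PI.{u} := by
  intro R _ _ N _ _ _ F _ _
  refine ⟨fun z hz => pi_inj z hz, fun e => pi_surj e, fun hF => ?_⟩
  rw [Module.Flat.iff_lTensor_injective']
  intro I
  rw [← LinearMap.ker_eq_bot, LinearMap.ker_eq_bot']
  intro z hz
  apply pi_inj
  intro k
  have h1 : I.subtype.lTensor F (cmp I k z) = 0 := by
    rw [← cmp_nat, hz, map_zero]
  have h2 := (Module.Flat.iff_lTensor_injective').mp hF I
  apply h2
  rw [h1, map_zero]

end Pool.Agent.K6.H47.GL
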