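import Pool.Agent.K6.H49.GLA.Loc

/-!
# RG: regular elements
-/

set_option autoImplicit false

open TensorProduct

universe u

namespace Pool.Agent.K6.H47.GL

open Pool.Agent.K6.H49.GLA

theorem t_RG (h : S_WI.{u}) : S_RG.{u} := by
  intro R _ _ r y w _ hy N _ _ _ hW
  have hW' : Function.Injective (eta y (Lw w N)) := hW
  -- no element is killed by `w`
  have hno : ∀ ξ : Lw w N, (∀ a ∈ w, a • ξ = 0) → ξ = 0 := by
    intro ξ hξ
    apply hW'
    rw [map_zero]
    refine ((h R r y (Lw w N) (Lw w N)).2.1 ξ).2 ⟨1, ?_⟩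
    rw [hy, pow_one]
    exact hξ
  have hfin : Module.Finite R (LinearMap.range (lm w N)) := inferInstance
  have hom0 : Subsingleton ((R ⧸ w) →ₗ[R] LinearMap.range (lm w N)) := by
    refine subsingleton_of_forall_eq 0 fun g => ?_
    have hz : g 1 = 0 := by
      apply Subtype.ext
      refine hno _ fun a ha => ?_
      have h1 : a • g 1 = 0 := by
        rw [← map_smul]
        have h2 : a • (1 : R ⧸ w) = 0 := by
          rw [Algebra.smul_def, mul_one]
          exact Ideal.Quotient.eq_zero_iff_mem.2 ha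
        rw [h2, map_zero]
      exact congrArg Subtype.val h1
    apply LinearMap.ext
    intro q
    obtain ⟨a, rfl⟩ := Ideal.Quotient.mk_surjective q
    have h3 : Ideal.Quotient.mk w a = a • (1 : R ⧸ w) := by
      rw [Algebra.smul_def, mul_one]
      rfl
    rw [h3, map_smul, hz, smul_zero, map_smul, LinearMap.zero_apply, smul_zero]
  obtain ⟨x, hx, hreg⟩ := IsSMulRegular.subsingleton_linearMap_iff.1 hom0
  rw [Ideal.annihilator_quotient] at hx
  have hinj : ∀ ξ : Lw w N, x • ξ = 0 → ξ = 0 := by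
    intro ξ hξ
    obtain ⟨m, s, hs, hm⟩ := lw_surj w ξ
    have h4 : x • (⟨lm w N m, ⟨m, rfl⟩⟩ : LinearMap.range (lm w N)) = x • 0 := by
      apply Subtype.ext
      show x • lm w N m = x • (0 : Lw w N)
      rw [← hm, smul_comm, hξ, smul_zero, smul_zero]
    have h5 : lm w N m = 0 := congrArg Subtype.val (hreg h4)
    exact lw_smul_inj w hs (by rw [hm, h5])
  refine ⟨x, hx, ?_, ?_⟩
  · rw [← LinearMap.ker_eq_bot, LinearMap.ker_eq_bot']
    exact fun ξ hξ => hinj ξ hξ
  · obtain ⟨s, hs, hs'⟩ := exists_kill w (LinearMap.ker (LinearMap.lsmul R N x))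
      (IsNoetherian.noetherian _) fun k hk => by
        refine hinj _ ?_
        rw [← map_smul]
        have : x • k = 0 := hk
        rw [this, map_zero]
    refine ⟨s, hs, fun q _ hq => ?_⟩
    rw [← LinearMap.ker_eq_bot, LinearMap.ker_eq_bot']
    intro ξ hξ
    have hξ' : x • ξ = 0 := hξ
    obtain ⟨m, v, hv, hm⟩ := lw_surj q ξ
    have h6 : lm q N (x • m) = 0 := by
      rw [map_smul, ← hm, smul_comm, hξ', smul_zero]
    obtain ⟨c, hc, hcm⟩ := (lm_eq_zero_iff q _).1 h6
    have h7 : s • (c • m) = 0 := hs' (c • m) (by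
      show x • (c • m) = 0
      rw [smul_comm, hcm])
    refine lw_smul_inj q hv ?_
    rw [hm]
    refine (lm_eq_zero_iff q _).2 ⟨s * c, mul_notMem q hq hc, ?_⟩
    rw [mul_smul, h7]

end Pool.Agent.K6.H47.GL
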