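import Pool.Agent.K6.H59.GL.Com

/-!
# Piece ST
-/

set_option autoImplicit false

open TensorProduct

universe u

namespace Pool.Agent.K6.H47.GL

open Pool.Agent.K6.H59.GL

namespace StAux

variable {R : Type u} [CommRing R]

/-- exactness at distance `v` from the end -/
def V (C : FlatRes R) (v : ℕ) (X : Type u) [AddCommGroup X] [Module R X] : Prop :=
  ∀ p, p + v = C.m → ExAt C X p

section lem

variable {C : FlatRes R} {X Y Z : Type u} [AddCommGroup X] [Module R X] [AddCommGroup Y]
  [Module R Y] [AddCommGroup Z] [Module R Z] {f : X →ₗ[R] Y} {g : Y →ₗ[R] Z}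

theorem v1 (h2 : S_CH.{u}) (hs : SES f g) {v : ℕ} (hv : 1 ≤ v) (hX : V C v X) (hZ : V C v Z) :
    V C v Y := fun p hp =>
  (h2 R C X Y Z f g hs).1 p (by omega) (hX p hp) (hZ p hp)

theorem v2 (h2 : S_CH.{u}) (hs : SES f g) {v : ℕ} (hv : 1 ≤ v) (hY : V C v Y)
    (hZ : V C (v + 1) Z) : V C v X := fun p hp =>
  (h2 R C X Y Z f g hs).2.1 p (by omega) (hY p hp) fun q hq => hZ q (by omega)

theorem vflat (h3 : S_IS.{u}) {v : ℕ} (hv : 1 ≤ v) (hY : Module.Flat R Y) : V C v Y := fun p hp =>
  (h3 R C p (by omega)).1 Y hY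

theorem v3 (h2 : S_CH.{u}) (h3 : S_IS.{u}) (hs : SES f g) {v : ℕ} (hv : 1 ≤ v)
    (hY : Module.Flat R Y) (hX : V C v X) : V C (v + 1) Z := fun p hp =>
  (h2 R C X Y Z f g hs).2.2 p (by omega) ((h3 R C p (by omega)).1 Y hY) (hX (p + 1) (by omega))

theorem vretract (h3 : S_IS.{u}) {v : ℕ} (hv : 1 ≤ v) (i : X →ₗ[R] Y) (π : Y →ₗ[R] X)
    (h : π ∘ₗ i = LinearMap.id) (hY : V C v Y) : V C v X := fun p hp =>
  (h3 R C p (by omega)).2.2.1 X Y i π h (hY p hp)

theorem viso (h3 : S_IS.{u}) {v : ℕ} (hv : 1 ≤ v) (e : X ≃ₗ[R] Y) (hY : V C v Y) : V C v X :=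
  vretract h3 hv e.toLinearMap e.symm.toLinearMap (by ext; simp) hY

end lem

/-- the residue field -/
abbrev RF (w : Ideal R) [w.IsPrime] : Type u :=
  Localization.AtPrime w ⧸ IsLocalRing.maximalIdeal (Localization.AtPrime w)

theorem exists_basis (w : Ideal R) [w.IsPrime] (X : Type u) [AddCommGroup X] [Module R X]
    (hX : WLoc w X) (hk : ∀ a ∈ w, ∀ x : X, a • x = 0) :
    ∃ ι : Type u, Nonempty (X ≃ₗ[R] (ι →₀ RF w)) := by
  let A := Localization.AtPrime w
  let M := LocalizedModule w.primeCompl X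
  have hid : IsLocalizedModule w.primeCompl (LinearMap.id : X →ₗ[R] X) :=
    { map_units := fun s => (Module.End.isUnit_iff _).2 (hX s s.2)
      surj := fun x => ⟨(x, 1), by simp⟩
      exists_of_eq := fun h => ⟨1, by simpa using h⟩ }
  let e0 : X ≃ₗ[R] M := IsLocalizedModule.linearEquiv w.primeCompl LinearMap.id
    (LocalizedModule.mkLinearMap w.primeCompl X)
  have ht : Module.IsTorsionBySet A M (IsLocalRing.maximalIdeal A : Set A) := by
    have h1 : IsLocalRing.maximalIdeal A ≤ Module.annihilator A M := by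
      rw [← Localization.AtPrime.map_eq_maximalIdeal, Ideal.map_le_iff_le_comap]
      intro a ha
      rw [Ideal.mem_comap, Module.mem_annihilator]
      intro m
      rw [algebraMap_smul]
      obtain ⟨x, rfl⟩ := e0.surjective m
      rw [← map_smul, hk a ha, map_zero]
    intro m a
    exact Module.mem_annihilator.1 (h1 a.2) m
  let _ : Module (A ⧸ IsLocalRing.maximalIdeal A) M := ht.module
  let _ : Field (A ⧸ IsLocalRing.maximalIdeal A) := Ideal.Quotient.field _
  have : IsScalarTower R (A ⧸ IsLocalRing.maximalIdeal A) M := ht.isScalarTower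
  let b := Module.Basis.ofVectorSpace (A ⧸ IsLocalRing.maximalIdeal A) M
  exact ⟨_, ⟨e0.trans (b.repr.restrictScalars R)⟩⟩

section mainpart

variable {r : ℕ} (y : Fin r → R)

/-- torsion modules local at `w` -/
def T (w : Ideal R) (C : FlatRes R) (v : ℕ) : Prop :=
  ∀ (A : Type u) [AddCommGroup A] [Module R A], WLoc w A → (∀ x : A, eta y A x = 0) → V C v A

theorem eta_eq_zero_of_mem (h1 : S_WI.{u}) {A : Type u} [AddCommGroup A] [Module R A]
    {X : Type u} [AddCommGroup X] [Module R X] (g : X →ₗ[R] A) (hg : Function.Injective g)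
    (x : X) (hx : eta y A (g x) = 0) : eta y X x = 0 := by
  rw [(h1 R r y X X).1 x]
  intro k
  obtain ⟨N, hN⟩ := ((h1 R r y A A).1 (g x)).1 hx k
  exact ⟨N, hg (by rw [map_smul, hN, map_zero])⟩

theorem partB (h1 : S_WI.{u}) (h2 : S_CH.{u}) (h3 : S_IS.{u}) {w : Ideal R} {C : FlatRes R} {u : ℕ}
    (hT : ∀ u', u < u' → T y w C u') :
    ∀ n u', u < u' → C.m < u' + n → ∀ (X : Type u) [AddCommGroup X] [Module R X], WLoc w X →
      Module.Flat R (Bk y ⊗[R] X) → V C u' X := by
  intro n
  induction n with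
  | zero =>
    intro u' _ hm X _ _ _ _ p hp
    omega
  | succ n ih =>
    intro u' hu hm X _ _ hX hF
    have hBX : WLoc w (Bk y ⊗[R] X) := wloc_tensor hX _
    have hsat := sat_ker (w := w) _ hBX (eta y X)
    refine v1 h2 (ses_sub (LinearMap.ker (eta y X))) (by omega) ?_ ?_
    · refine hT u' hu _ (wloc_sub hX _ hsat) fun x => ?_
      exact eta_eq_zero_of_mem y h1 (LinearMap.ker (eta y X)).subtype
        (Submodule.injective_subtype _) x x.2
    · exact v2 h2 (ses_quot y X) (by omega) (vflat h3 (by omega) hF)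
        (ih (u' + 1) (by omega) (by omega) (Qk y ⊗[R] X) (wloc_tensor hX _) (flat_BQ y X hF))

theorem partA (h2 : S_CH.{u}) (h3 : S_IS.{u}) {w : Ideal R} {C : FlatRes R} :
    ∀ (t : ℕ) (S : Type u) [AddCommGroup S] [Module R S] (j : ℕ), WLoc w S →
      Module.Flat R (Bk y ⊗[R] S) → Wlt y t S → ¬ W y t S → (∀ v, j < v → V C v S) →
      ∃ (X : Type u) (_ : AddCommGroup X) (_ : Module R X), WLoc w X ∧
        Module.Flat R (Bk y ⊗[R] X) ∧ ¬ W y 0 X ∧ ∀ v, j + t < v → V C v X := by
  intro t
  induction t with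
  | zero =>
    intro S _ _ j hS hF _ hn hv
    exact ⟨S, _, _, hS, hF, hn, hv⟩
  | succ t ih =>
    intro S _ _ j hS hF hlt hn hv
    have h0 : W y 0 S := hlt 0 (by omega)
    obtain ⟨X, i1, i2, hX, hXF, hXn, hXv⟩ := ih (Qk y ⊗[R] S) (j + 1) (wloc_tensor hS _)
      (flat_BQ y S hF) (fun p hp => hlt (p + 1) (by omega)) hn (fun v hv' => by
        obtain ⟨v, rfl⟩ : ∃ v', v = v' + 1 := ⟨v - 1, by omega⟩
        exact v3 h2 h3 (ses_eta y S h0) (by omega) hF (hv v (by omega)))
    exact ⟨X, i1, i2, hX, hXF, hXn, fun v hv' => hXv v (by omega)⟩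

/-- the elements killed by `w ^ i` -/
def U (w : Ideal R) (A : Type u) [AddCommGroup A] [Module R A] (i : ℕ) : Submodule R A where
  carrier := {x | ∀ a ∈ w ^ i, a • x = 0}
  add_mem' h h' a ha := by rw [smul_add, h a ha, h' a ha, add_zero]
  zero_mem' a _ := smul_zero a
  smul_mem' c x h a ha := by rw [smul_comm, h a ha, smul_zero]

theorem mem_U {w : Ideal R} {A : Type u} [AddCommGroup A] [Module R A] {i : ℕ} {x : A} :
    x ∈ U w A i ↔ ∀ a ∈ w ^ i, a • x = 0 := Iff.rfl

theorem U_mono (w : Ideal R) (A : Type u) [AddCommGroup A] [Module R A] : Monotone (U w A) :=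
  fun _ _ hij _ hx a ha => hx a (Ideal.pow_le_pow_right hij ha)

theorem U_sat {w : Ideal R} {A : Type u} [AddCommGroup A] [Module R A] (hA : WLoc w A) (i : ℕ) :
    ∀ s ∉ w, ∀ x, s • x ∈ U w A i → x ∈ U w A i := by
  intro s hs x hx a ha
  refine (hA s hs).1 ?_
  show s • a • x = s • (0 : A)
  rw [smul_comm, hx a ha, smul_zero]

/-- step (e) -/
theorem partE (h2 : S_CH.{u}) (h3 : S_IS.{u}) {w : Ideal R} [w.IsPrime] {C : FlatRes R} {v : ℕ}
    (hv : 1 ≤ v) (hk : V C v (RF w)) (A : Type u) [AddCommGroup A] [Module R A] (hA : WLoc w A)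
    (hU : ∀ x : A, ∃ k, x ∈ U w A k) : V C v A := by
  have key : ∀ (X : Type u) [AddCommGroup X] [Module R X], WLoc w X →
      (∀ a ∈ w, ∀ x : X, a • x = 0) → V C v X := by
    intro X _ _ hX hwX
    obtain ⟨ι, ⟨e⟩⟩ := exists_basis w X hX hwX
    exact viso h3 hv e fun p hp => (h3 R C p (by omega)).2.2.2.1 (RF w) ι (hk p hp)
  have hi : ∀ i, V C v (U w A i) := by
    intro i
    induction i with
    | zero =>
      have : Subsingleton (U w A 0) := by
        refine ⟨fun a b => Subtype.ext ?_⟩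
        have h1 := a.2 1 (by simp)
        have h2 := b.2 1 (by simp)
        rw [one_smul] at h1 h2
        rw [h1, h2]
      exact vflat h3 hv inferInstance
    | succ i ih =>
      have hle : U w A i ≤ U w A (i + 1) := U_mono w A (by omega)
      have hloc : WLoc w (U w A (i + 1)) := wloc_sub hA _ (U_sat hA _)
      refine v1 h2 (ses_sub (Submodule.comap (U w A (i + 1)).subtype (U w A i))) hv
        (viso h3 hv (Submodule.comapSubtypeEquivOfLe hle) ih) (key _ ?_ ?_)
      · exact wloc_quot hloc _ fun s hs x hx => U_sat hA i s hs x hx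
      · intro a ha x
        obtain ⟨x, rfl⟩ := Submodule.mkQ_surjective _ x
        rw [← map_smul, ← LinearMap.mem_ker, Submodule.ker_mkQ, Submodule.mem_comap]
        intro b hb
        show b • a • (x : A) = 0
        rw [smul_smul]
        exact x.2 _ (by rw [pow_succ]; exact Ideal.mul_mem_mul hb ha)
  exact fun p hp => (h3 R C p (by omega)).2.2.2.2 A (U w A) (U_mono w A) hU fun k => hi k p hp

end mainpart

end StAux

open StAux in
theorem t_ST (h1 : S_WI.{u}) (h2 : S_CH.{u}) (h3 : S_IS.{u}) : S_ST.{u} := by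
  intro R _ _ r y w _ hy t hlt hn C
  have hS : WLoc w (Lw w R) := wloc_Lw w R
  have hSf : Module.Flat R (Lw w R) := by
    exact IsLocalization.flat (Localization w.primeCompl) w.primeCompl
  obtain ⟨X0, _, _, hX0, hX0F, hX0n, hX0v⟩ := partA y h2 h3 (C := C) t (Lw w R) 0 hS
    inferInstance hlt hn (fun v hv => vflat h3 (by omega) hSf)
  have main : ∀ n u, t < u → C.m < u + n → T y w C u := by
    intro n
    induction n with
    | zero =>
      intro u _ hm A _ _ _ _ p hp
      omega
    | succ n ih =>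
      intro u hu hm
      have hT : ∀ u', u < u' → T y w C u' := fun u' hu' => ih u' (by omega) (by omega)
      have hB := partB y h1 h2 h3 hT
      have hu1 : 1 ≤ u := by omega
      -- the torsion part of `X0`
      have hVX0 : V C u X0 := hX0v u (by omega)
      have hsat := sat_ker (w := w) _ (wloc_tensor hX0 (Bk y)) (eta y X0)
      have hA0 : V C u (LinearMap.ker (eta y X0)) := by
        refine v2 h2 (ses_sub _) hu1 hVX0 ?_
        exact v2 h2 (ses_quot y X0) (by omega) (vflat h3 (by omega) hX0F)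
          (hB C.m (u + 1 + 1) (by omega) (by omega) (Qk y ⊗[R] X0) (wloc_tensor hX0 _)
            (flat_BQ y X0 hX0F))
      have hA0l : WLoc w (LinearMap.ker (eta y X0)) := wloc_sub hX0 _ hsat
      have htor : ∀ x : LinearMap.ker (eta y X0), eta y _ x = 0 := fun x =>
        eta_eq_zero_of_mem y h1 (LinearMap.ker (eta y X0)).subtype
          (Submodule.injective_subtype _) x x.2
      -- the elements killed by `w`
      let G := U w (LinearMap.ker (eta y X0)) 1
      have hG : V C u G := by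
        refine v2 h2 (ses_sub _) hu1 hA0 (hT (u + 1) (by omega) _ (wloc_quot hA0l _ (U_sat hA0l 1))
          fun x => ?_)
        obtain ⟨x, rfl⟩ := Submodule.mkQ_surjective _ x
        rw [(h1 R r y _ X0).1 _]
        intro k
        obtain ⟨N, hN⟩ := ((h1 R r y _ X0).1 _).1 (htor x) k
        exact ⟨N, by rw [← map_smul, hN, map_zero]⟩
      have hGw : ∀ a ∈ w, ∀ x : G, a • x = 0 := fun a ha x => Subtype.ext (x.2 a (by simpa using ha))
      obtain ⟨ι, ⟨e⟩⟩ := exists_basis w G (wloc_sub hA0l _ (U_sat hA0l 1)) hGw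
      have hne : Nonempty ι := by
        by_contra hι
        rw [not_nonempty_iff] at hι
        apply hX0n
        show Function.Injective (eta y X0)
        rw [← LinearMap.ker_eq_bot, Submodule.eq_bot_iff]
        intro x hx
        obtain ⟨N, hN⟩ := ((h1 R r y X0 X0).2.1 x).1 hx
        rw [hy] at hN
        by_contra hx0
        have hex : ∃ N : ℕ, ∀ a ∈ w ^ N, a • x = 0 := ⟨N, hN⟩
        classical
        have hspec := Nat.find_spec hex
        have hpos : Nat.find hex ≠ 0 := by
          intro h0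
          rw [h0] at hspec
          exact hx0 (by simpa using hspec 1 (by simp))
        obtain ⟨m, hm'⟩ := Nat.exists_eq_succ_of_ne_zero hpos
        have hlt' : ¬ ∀ a ∈ w ^ m, a • x = 0 := Nat.find_min hex (by omega)
        push Not at hlt'
        obtain ⟨b, hb, hbx⟩ := hlt'
        have hbm : b • x ∈ LinearMap.ker (eta y X0) := Submodule.smul_mem _ _ hx
        have hbG : (⟨b • x, hbm⟩ : LinearMap.ker (eta y X0)) ∈ G := by
          intro a ha
          refine Subtype.ext ?_
          show a • b • x = 0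
          rw [smul_smul]
          refine hspec _ ?_
          rw [hm', Nat.succ_eq_add_one, pow_succ, mul_comm a b]
          exact Ideal.mul_mem_mul hb (by simpa using ha)
        have h0 : (⟨_, hbG⟩ : G) = 0 := e.injective (Subsingleton.elim _ _)
        exact hbx (congrArg (fun z : G => ((z : LinearMap.ker (eta y X0)) : X0)) h0)
      obtain ⟨i0⟩ := hne
      have hk : V C u (RF w) :=
        vretract h3 hu1 (Finsupp.lsingle i0) (Finsupp.lapply i0) (by ext; simp)
          (viso h3 hu1 e.symm hG)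
      intro A _ _ hA hAt
      refine partE h2 h3 hu1 hk A hA fun x => ?_
      obtain ⟨N, hN⟩ := ((h1 R r y A A).2.1 x).1 (hAt x)
      rw [hy] at hN
      exact ⟨N, hN⟩
  intro A _ _ hA hAt p hp
  exact main C.m (C.m - p) (by omega) (by omega) A hA hAt p (by omega)

end Pool.Agent.K6.H47.GL
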