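import Pool.Agent.K6.H47.GL.Stm

/-! # WI: iso-invariance, the kernel of `eta`, `W p (B ⊗ X)` -/

set_option autoImplicit false

open TensorProduct

universe u

namespace Pool.Agent.K6.H47.GL

section

variable {R : Type u} [CommRing R] {r : ℕ} (y : Fin r → R)

lemma eta_apply (X : Type u) [AddCommGroup X] [Module R X] (x : X) :
    eta y X x = (1 : Bk y) ⊗ₜ[R] x := rfl

/-- naturality of `eta` -/
lemma eta_nat {X Y : Type u} [AddCommGroup X] [Module R X] [AddCommGroup Y] [Module R Y]
    (f : X →ₗ[R] Y) (x : X) : f.lTensor (Bk y) (eta y X x) = eta y Y (f x) := by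
  simp [eta_apply]

lemma eta_eq_zero_iff (X : Type u) [AddCommGroup X] [Module R X] (x : X) :
    eta y X x = 0 ↔ ∀ k, ∃ N : ℕ, y k ^ N • x = 0 := by
  constructor
  · intro h k
    have h1 : (LinearMap.proj k : Bk y →ₗ[R] Localization.Away (y k)).rTensor X (eta y X x) = 0 := by
      rw [h, map_zero]
    rw [eta_apply, LinearMap.rTensor_tmul] at h1
    have h2 : TensorProduct.mk R (Localization.Away (y k)) X 1 x = 0 := h1
    rw [IsLocalizedModule.eq_zero_iff (Submonoid.powers (y k))] at h2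
    obtain ⟨⟨c, n, rfl⟩, hc⟩ := h2
    exact ⟨n, hc⟩
  · intro h
    have h1 : (1 : Bk y) = ∑ k, (LinearMap.single R (fun k => Localization.Away (y k)) k)
        (1 : Localization.Away (y k)) := by
      ext j
      simp [Finset.sum_apply]
    rw [eta_apply, h1, TensorProduct.sum_tmul]
    refine Finset.sum_eq_zero fun k _ => ?_
    have h2 : TensorProduct.mk R (Localization.Away (y k)) X 1 x = 0 := by
      rw [IsLocalizedModule.eq_zero_iff (Submonoid.powers (y k))]
      obtain ⟨n, hn⟩ := h k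
      exact ⟨⟨y k ^ n, n, rfl⟩, hn⟩
    have h3 : (1 : Localization.Away (y k)) ⊗ₜ[R] x = 0 := h2
    rw [← LinearMap.rTensor_tmul, h3, map_zero]

lemma eta_eq_zero_iff_pow (X : Type u) [AddCommGroup X] [Module R X] (x : X) :
    eta y X x = 0 ↔ ∃ N : ℕ, ∀ a ∈ Ideal.span (Set.range y) ^ N, a • x = 0 := by
  rw [eta_eq_zero_iff]
  constructor
  · intro h
    have h1 : Ideal.span (Set.range y) ≤ Ideal.radical (LinearMap.ker (LinearMap.toSpanSingleton R X x) : Ideal R) := by
      rw [Ideal.span_le]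
      rintro _ ⟨k, rfl⟩
      obtain ⟨n, hn⟩ := h k
      exact ⟨n, by simpa [LinearMap.mem_ker] using hn⟩
    have h2 : (Ideal.span (Set.range y)).FG := Submodule.fg_span (Set.finite_range y)
    obtain ⟨N, hN⟩ := Ideal.exists_pow_le_of_le_radical_of_fg h1 h2
    refine ⟨N, fun a ha => ?_⟩
    simpa [LinearMap.mem_ker] using hN ha
  · rintro ⟨N, hN⟩ k
    exact ⟨N, hN _ (Ideal.pow_mem_pow (Ideal.subset_span (Set.mem_range_self k)) N)⟩

/-- `eta` on `B ⊗ X` is injective -/
lemma eta_B_injective (X : Type u) [AddCommGroup X] [Module R X] :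
    Function.Injective (eta y (Bk y ⊗[R] X)) := by
  let ρ : Bk y ⊗[R] (Bk y ⊗[R] X) →ₗ[R] Bk y ⊗[R] X :=
    (LinearMap.mul' R (Bk y)).rTensor X ∘ₗ (TensorProduct.assoc R (Bk y) (Bk y) X).symm.toLinearMap
  have h : ρ ∘ₗ eta y (Bk y ⊗[R] X) = LinearMap.id := by
    ext b x
    simp [ρ, eta_apply]
  intro a b hab
  have := congrArg ρ hab
  rw [← LinearMap.comp_apply, ← LinearMap.comp_apply, h] at this
  simpa using this

/-- the part (5) -/
lemma iso_inv : ∀ (p : ℕ) (X Y : Type u) [AddCommGroup X] [Module R X]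
    [AddCommGroup Y] [Module R Y] (_ : X ≃ₗ[R] Y), (W y p X → W y p Y) ∧
      (∀ a, GKill y p a X → GKill y p a Y) ∧ (∀ (w : Ideal R), TF y w p X → TF y w p Y)
  | 0, X, Y, _, _, _, _, e => by
    have key : ∀ z : Y, eta y Y z = 0 → eta y X (e.symm z) = 0 := by
      intro z hz
      have := eta_nat y e.symm.toLinearMap z
      rw [hz, map_zero] at this
      exact this.symm
    have key2 : ∀ x : X, eta y X x = 0 → eta y Y (e x) = 0 := by
      intro x hx
      have := eta_nat y e.toLinearMap x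
      rw [hx, map_zero] at this
      exact this.symm
    refine ⟨?_, ?_, ?_⟩
    · intro h
      change Function.Injective (eta y Y)
      rw [injective_iff_map_eq_zero]
      intro z hz
      have h1 := key z hz
      have h2 : e.symm z = 0 := (injective_iff_map_eq_zero _).mp h _ h1
      simpa using h2
    · intro a h z hz
      have h1 := h _ (key z hz)
      have : e (a • e.symm z) = 0 := by rw [h1, map_zero]
      simpa using this
    · rintro w ⟨E, hE, hker, ⟨s, hs⟩, htop⟩
      refine ⟨E.map e.toLinearMap, hE.map _, ?_, ⟨s, ?_⟩, ?_⟩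
      · rintro _ ⟨x, hx, rfl⟩
        exact key2 x (hker hx)
      · rintro a ha _ ⟨x, hx, rfl⟩
        have := hs a ha x hx
        change a • e x = 0
        rw [← map_smul, this, map_zero]
      · intro z hz
        obtain ⟨c, hc, hcx⟩ := htop _ (key z hz)
        refine ⟨c, hc, ?_⟩
        refine ⟨c • e.symm z, hcx, ?_⟩
        simp
  | p + 1, X, Y, _, _, _, _, e => iso_inv p (Qk y ⊗[R] X) (Qk y ⊗[R] Y) (e.lTensor (Qk y))

lemma W_B : ∀ (p : ℕ) (X : Type u) [AddCommGroup X] [Module R X], W y p (Bk y ⊗[R] X)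
  | 0, X, _, _ => eta_B_injective y X
  | p + 1, X, _, _ => (iso_inv y p _ _ (TensorProduct.leftComm R (Bk y) (Qk y) X)).1
      (W_B p (Qk y ⊗[R] X))

lemma W_iff_GKill : ∀ (p : ℕ) (X : Type u) [AddCommGroup X] [Module R X],
    W y p X ↔ GKill y p 1 X
  | 0, X, _, _ => by
    change Function.Injective (eta y X) ↔ ∀ x : X, eta y X x = 0 → (1 : R) • x = 0
    rw [injective_iff_map_eq_zero]
    simp
  | p + 1, X, _, _ => W_iff_GKill p (Qk y ⊗[R] X)

end

theorem t_WI : S_WI.{u} := by
  intro R _ r y X Y _ _ _ _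
  exact ⟨eta_eq_zero_iff y X, eta_eq_zero_iff_pow y X, fun p => W_B y p X,
    fun p => W_iff_GKill y p X, fun e => ⟨fun p => (iso_inv y p X Y e).1,
      fun p => (iso_inv y p X Y e).2.1, fun w p => (iso_inv y p X Y e).2.2 w⟩⟩

end Pool.Agent.K6.H47.GL
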