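import Pool.Agent.K6.H47.GL.Stm
import Pool.Agent.K6.H47.GL.PWI

/-! # WL: depth lemmas -/

set_option autoImplicit false

open TensorProduct

universe u

namespace Pool.Agent.K6.H47.GL

section Gen

variable (R B : Type u) [CommRing R] [CommRing B] [Algebra R B]

/-- `b', b ↦ b ⊗ b' - b b' ⊗ 1` -/
noncomputable def sec0 : B →ₗ[R] B →ₗ[R] B ⊗[R] B :=
  LinearMap.mk₂ R (fun b' b => b ⊗ₜ[R] b' - (b * b') ⊗ₜ[R] (1 : B))
    (by intro a b c; rw [mul_add, TensorProduct.tmul_add, TensorProduct.add_tmul]; abel)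
    (by intro c a b; rw [mul_smul_comm, TensorProduct.tmul_smul, smul_sub,
          TensorProduct.smul_tmul', TensorProduct.smul_tmul'])
    (by intro a b c; rw [add_mul, TensorProduct.add_tmul, TensorProduct.add_tmul]; abel)
    (by intro c a b; rw [smul_mul_assoc, ← TensorProduct.smul_tmul', smul_sub,
          ← TensorProduct.smul_tmul'])

lemma sec0_apply (b' b : B) :
    sec0 R B b' b = b ⊗ₜ[R] b' - (b * b') ⊗ₜ[R] (1 : B) := rfl

lemma sec0_ker : LinearMap.range (Algebra.linearMap R B) ≤ LinearMap.ker (sec0 R B) := by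
  intro b' hb'
  obtain ⟨a, rfl⟩ := hb'
  rw [LinearMap.mem_ker]
  refine LinearMap.ext fun b => ?_
  rw [sec0_apply, LinearMap.zero_apply, Algebra.linearMap_apply]
  rw [Algebra.algebraMap_eq_smul_one, TensorProduct.tmul_smul, mul_smul_comm, mul_one,
    TensorProduct.smul_tmul', sub_self]

/-- the section `B ⊗ Q → B ⊗ B`, `b ⊗ b' ↦ b ⊗ b' - b b' ⊗ 1` -/
noncomputable def secQ : (B ⧸ LinearMap.range (Algebra.linearMap R B)) →ₗ[R] B →ₗ[R] B ⊗[R] B :=
  Submodule.liftQ (LinearMap.range (Algebra.linearMap R B)) (sec0 R B) (sec0_ker R B)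

lemma secQ_mk (b b' : B) :
    secQ R B (Submodule.Quotient.mk b') b = b ⊗ₜ[R] b' - (b * b') ⊗ₜ[R] (1 : B) := rfl

lemma gen_flat [Module.Flat R B] :
    Module.Flat R (B ⊗[R] (B ⧸ LinearMap.range (Algebra.linearMap R B))) := by
  refine Module.Flat.of_retract (M := B ⊗[R] B) (TensorProduct.lift (secQ R B).flip)
    ((Submodule.mkQ (LinearMap.range (Algebra.linearMap R B))).lTensor B) ?_
  apply TensorProduct.ext'
  intro b q
  obtain ⟨b', rfl⟩ := Submodule.Quotient.mk_surjective _ q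
  simp only [LinearMap.comp_apply, TensorProduct.lift.tmul, LinearMap.flip_apply, secQ_mk,
    map_sub, LinearMap.lTensor_tmul, Submodule.mkQ_apply, LinearMap.id_apply]
  have h1 : (Submodule.Quotient.mk (1 : B) : B ⧸ LinearMap.range (Algebra.linearMap R B)) = 0 := by
    rw [Submodule.Quotient.mk_eq_zero]
    exact ⟨1, by simp⟩
  rw [h1, TensorProduct.tmul_zero, sub_zero]

lemma gen_exact (X : Type u) [AddCommGroup X] [Module R X] (b : B ⊗[R] X) :
    (Submodule.mkQ (LinearMap.range (Algebra.linearMap R B))).rTensor X b = 0 ↔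
      ∃ x : X, (1 : B) ⊗ₜ[R] x = b := by
  have h1 : Function.Exact (Algebra.linearMap R B)
      (Submodule.mkQ (LinearMap.range (Algebra.linearMap R B))) := by
    rw [LinearMap.exact_iff, Submodule.ker_mkQ]
  have h2 := rTensor_exact X h1 (Submodule.mkQ_surjective _)
  have h3 : (Algebra.linearMap R B).rTensor X =
      TensorProduct.mk R B X 1 ∘ₗ (TensorProduct.lid R X).toLinearMap := by
    apply TensorProduct.ext'
    intro a x
    simp only [LinearMap.rTensor_tmul, LinearMap.comp_apply, LinearEquiv.coe_coe,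
      TensorProduct.lid_tmul, TensorProduct.mk_apply, Algebra.linearMap_apply]
    rw [Algebra.algebraMap_eq_smul_one, TensorProduct.smul_tmul]
  constructor
  · intro h
    obtain ⟨z, hz⟩ := (h2 b).mp h
    refine ⟨TensorProduct.lid R X z, ?_⟩
    rw [← hz, h3]
    rfl
  · rintro ⟨x, rfl⟩
    refine (h2 _).mpr ⟨(TensorProduct.lid R X).symm x, ?_⟩
    rw [h3]
    simp

end Gen

section

variable {R : Type u} [CommRing R] {r : ℕ} (y : Fin r → R)

instance Bk_flat : Module.Flat R (Bk y) :=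
  Module.Flat.of_linearEquiv (DirectSum.linearEquivFunOnFintype R (Fin r)
    (fun k => Localization.Away (y k))).symm

instance BQ_flat : Module.Flat R (Bk y ⊗[R] Qk y) := gen_flat R (Bk y)

/-- `X → B ⊗ X → Q ⊗ X` is exact -/
lemma pr_eq_zero_iff (X : Type u) [AddCommGroup X] [Module R X] (b : Bk y ⊗[R] X) :
    pr y X b = 0 ↔ ∃ x, eta y X x = b :=
  gen_exact R (Bk y) X b

lemma pr_surjective (X : Type u) [AddCommGroup X] [Module R X] :
    Function.Surjective (pr y X) :=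
  LinearMap.rTensor_surjective X (Submodule.mkQ_surjective _)

lemma pr_nat {X Y : Type u} [AddCommGroup X] [Module R X] [AddCommGroup Y] [Module R Y]
    (f : X →ₗ[R] Y) (b : Bk y ⊗[R] X) :
    pr y Y (f.lTensor (Bk y) b) = f.lTensor (Qk y) (pr y X b) := by
  unfold pr
  rw [← LinearMap.comp_apply, ← LinearMap.comp_apply, LinearMap.rTensor_comp_lTensor,
    LinearMap.lTensor_comp_rTensor]

variable {X Y Z : Type u} [AddCommGroup X] [Module R X] [AddCommGroup Y] [Module R Y]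
  [AddCommGroup Z] [Module R Z] {f : X →ₗ[R] Y} {g : Y →ₗ[R] Z}

lemma B_inj (hf : Function.Injective f) : Function.Injective (f.lTensor (Bk y)) :=
  Module.Flat.lTensor_preserves_injective_linearMap f hf

lemma BQ_inj (hf : Function.Injective f) :
    Function.Injective ((f.lTensor (Qk y)).lTensor (Bk y)) := by
  have h1 : Function.Injective (f.lTensor (Bk y ⊗[R] Qk y)) :=
    Module.Flat.lTensor_preserves_injective_linearMap f hf
  rw [LinearMap.lTensor_tensor] at h1
  intro a b hab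
  obtain ⟨a', rfl⟩ := (TensorProduct.assoc R (Bk y) (Qk y) X).surjective a
  obtain ⟨b', rfl⟩ := (TensorProduct.assoc R (Bk y) (Qk y) X).surjective b
  congr 1
  apply h1
  simp only [LinearMap.comp_apply, LinearEquiv.coe_coe]
  rw [hab]

/-- snake lemma -/
lemma snake (h : SES f g) (hZ : W y 0 Z) : SES (f.lTensor (Qk y)) (g.lTensor (Qk y)) where
  surj := LinearMap.lTensor_surjective _ h.surj
  exact := lTensor_exact _ h.exact h.surj
  inj := by
    rw [injective_iff_map_eq_zero]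
    intro c hc
    obtain ⟨b, rfl⟩ := pr_surjective y X c
    rw [← pr_nat, pr_eq_zero_iff] at hc
    obtain ⟨y0, hy0⟩ := hc
    have h1 : eta y Z (g y0) = 0 := by
      rw [← eta_nat, hy0, ← LinearMap.comp_apply, ← LinearMap.lTensor_comp,
        h.exact.linearMap_comp_eq_zero, LinearMap.lTensor_zero, LinearMap.zero_apply]
    have h2 : g y0 = 0 := (injective_iff_map_eq_zero _).mp hZ _ h1
    obtain ⟨x0, rfl⟩ := (h.exact y0).mp h2
    rw [pr_eq_zero_iff]
    refine ⟨x0, B_inj y h.inj ?_⟩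
    rw [← hy0, eta_nat]

lemma W0_mid (h : SES f g) (hX : W y 0 X) (hZ : W y 0 Z) : W y 0 Y := by
  change Function.Injective (eta y Y)
  rw [injective_iff_map_eq_zero]
  intro y0 hy0
  have h1 : eta y Z (g y0) = 0 := by rw [← eta_nat, hy0, map_zero]
  have h2 : g y0 = 0 := (injective_iff_map_eq_zero _).mp hZ _ h1
  obtain ⟨x0, rfl⟩ := (h.exact y0).mp h2
  have h3 : eta y X x0 = 0 := by
    apply B_inj y h.inj
    rw [eta_nat, hy0, map_zero]
  have h4 : x0 = 0 := (injective_iff_map_eq_zero _).mp hX _ h3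
  rw [h4, map_zero]

lemma W0_sub (h : SES f g) (hY : W y 0 Y) : W y 0 X := by
  change Function.Injective (eta y X)
  rw [injective_iff_map_eq_zero]
  intro x0 hx0
  have h1 : eta y Y (f x0) = 0 := by rw [← eta_nat, hx0, map_zero]
  have h2 : f x0 = 0 := (injective_iff_map_eq_zero _).mp hY _ h1
  exact h.inj (by rw [h2, map_zero])

lemma W0_quot (h : SES f g) (hX1 : W y 1 X) (hY : W y 0 Y) : W y 0 Z := by
  change Function.Injective (eta y Z)
  rw [injective_iff_map_eq_zero]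
  intro z hz
  obtain ⟨y0, rfl⟩ := h.surj z
  rw [← eta_nat] at hz
  obtain ⟨b, hb⟩ := (lTensor_exact (Bk y) h.exact h.surj _).mp hz
  have h1 : f.lTensor (Qk y) (pr y X b) = 0 := by
    rw [← pr_nat, hb, pr_eq_zero_iff]
    exact ⟨y0, rfl⟩
  have h2 : eta y (Qk y ⊗[R] X) (pr y X b) = 0 := by
    apply BQ_inj y h.inj
    rw [eta_nat, h1, map_zero, map_zero]
  have h3 : pr y X b = 0 := (injective_iff_map_eq_zero _).mp
    (show Function.Injective (eta y (Qk y ⊗[R] X)) from hX1) _ h2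
  rw [pr_eq_zero_iff] at h3
  obtain ⟨x0, rfl⟩ := h3
  rw [eta_nat] at hb
  have h4 : f x0 = y0 := (show Function.Injective (eta y Y) from hY) hb
  rw [← h4, h.exact.apply_apply_eq_zero]

omit [AddCommGroup Y] [Module R Y] [AddCommGroup Z] [Module R Z] in
lemma Wlt_succ (e : ℕ) : Wlt y (e + 1) X ↔ W y 0 X ∧ Wlt y e (Qk y ⊗[R] X) := by
  constructor
  · intro h
    exact ⟨h 0 (by omega), fun p hp => h (p + 1) (by omega)⟩
  · rintro ⟨h0, h1⟩ p hp
    rcases p with _ | p
    · exact h0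
    · exact h1 p (by omega)

omit [AddCommGroup Y] [Module R Y] [AddCommGroup Z] [Module R Z] in
lemma Wlt_mono {e e' : ℕ} (hee : e ≤ e') (h : Wlt y e' X) : Wlt y e X :=
  fun p hp => h p (by omega)

end

section

variable {R : Type u} [CommRing R] {r : ℕ} (y : Fin r → R)

lemma wl1 : ∀ (e : ℕ) (X Y Z : Type u) [AddCommGroup X] [Module R X] [AddCommGroup Y] [Module R Y]
    [AddCommGroup Z] [Module R Z] (f : X →ₗ[R] Y) (g : Y →ₗ[R] Z), SES f g →
    Wlt y e X → Wlt y e Z → Wlt y e Y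
  | 0, _, _, _, _, _, _, _, _, _, _, _, _, _, _ => fun p hp => absurd hp (by omega)
  | e + 1, X, Y, Z, _, _, _, _, _, _, f, g, h, hX, hZ => by
    rw [Wlt_succ] at hX hZ ⊢
    exact ⟨W0_mid y h hX.1 hZ.1, wl1 e _ _ _ _ _ (snake y h hZ.1) hX.2 hZ.2⟩

lemma wl2 : ∀ (e : ℕ) (X Y Z : Type u) [AddCommGroup X] [Module R X] [AddCommGroup Y] [Module R Y]
    [AddCommGroup Z] [Module R Z] (f : X →ₗ[R] Y) (g : Y →ₗ[R] Z), SES f g →
    Wlt y (e + 1) Y → Wlt y e Z → Wlt y (e + 1) X
  | 0, X, Y, Z, _, _, _, _, _, _, f, g, h, hY, _ => by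
    rw [Wlt_succ] at hY ⊢
    exact ⟨W0_sub y h hY.1, fun p hp => absurd hp (by omega)⟩
  | e + 1, X, Y, Z, _, _, _, _, _, _, f, g, h, hY, hZ => by
    rw [Wlt_succ y (e + 1)] at hY ⊢
    rw [Wlt_succ] at hZ
    exact ⟨W0_sub y h hY.1, wl2 e _ _ _ _ _ (snake y h hZ.1) hY.2 hZ.2⟩

lemma wl3 : ∀ (e : ℕ) (X Y Z : Type u) [AddCommGroup X] [Module R X] [AddCommGroup Y] [Module R Y]
    [AddCommGroup Z] [Module R Z] (f : X →ₗ[R] Y) (g : Y →ₗ[R] Z), SES f g →
    Wlt y (e + 1) X → Wlt y e Y → Wlt y e Z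
  | 0, _, _, _, _, _, _, _, _, _, _, _, _, _, _ => fun p hp => absurd hp (by omega)
  | e + 1, X, Y, Z, _, _, _, _, _, _, f, g, h, hX, hY => by
    have hZ0 : W y 0 Z := W0_quot y h (hX 1 (by omega)) (hY 0 (by omega))
    rw [Wlt_succ y (e + 1)] at hX
    rw [Wlt_succ] at hY ⊢
    exact ⟨hZ0, wl3 e _ _ _ _ _ (snake y h hZ0) hX.2 hY.2⟩

end

theorem t_WL : S_WL.{u} := by
  intro R _ r y X Y Z _ _ _ _ _ _ f g h e
  exact ⟨wl1 y e X Y Z f g h, wl2 y e X Y Z f g h, wl3 y e X Y Z f g h⟩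

end Pool.Agent.K6.H47.GL
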