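import Pool.Agent.K6.H47.GL.Stm

/-!
# Statement of the comparison with the Tor functor
-/

set_option autoImplicit false

open TensorProduct CategoryTheory CategoryTheory.Limits

universe u

namespace Pool.Agent.K6.H47.GL

/-- the image of the previous differential -/
def FlatRes.im {R : Type u} [CommRing R] (C : FlatRes R) : ∀ p : ℕ, Submodule R (C.F p)
  | 0 => ⊥
  | p + 1 => LinearMap.range (C.δ p)

/-- the resolved module -/
abbrev FlatRes.T {R : Type u} [CommRing R] (C : FlatRes R) : Type u := C.F C.m ⧸ C.im C.m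

/-- TB: comparison with the Tor functor of Mathlib -/
def S_TB : Prop :=
  ∀ (R : Type u) [CommRing R] (C : FlatRes R) (M : Type u) [AddCommGroup M] [Module R M] (i : ℕ),
    (1 ≤ i → i ≤ C.m →
      (IsZero (((Tor (ModuleCat.{u} R) i).obj (ModuleCat.of R C.T)).obj (ModuleCat.of R M)) ↔
        ExAt C M (C.m - i))) ∧
    (C.m < i →
      IsZero (((Tor (ModuleCat.{u} R) i).obj (ModuleCat.of R C.T)).obj (ModuleCat.of R M)))

end Pool.Agent.K6.H47.GL
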