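import Pool.Agent.K6.H47.GL.Stm

/-!
# UA: uniform annihilation (the product trick)
-/

set_option autoImplicit false

open TensorProduct

universe u

namespace Pool.Agent.K6.H47.GL

section

variable {R : Type u} [CommRing R]

theorem UA_flat_Lw (w : Ideal R) [w.IsPrime] (F : Type u) [AddCommGroup F] [Module R F]
    [Module.Flat R F] : Module.Flat R (Lw w F) := by
  have h1 : Module.Flat R (Localization w.primeCompl) :=
    IsLocalization.flat (Localization w.primeCompl) w.primeCompl
  have h2 : Module.Flat (Localization w.primeCompl) (Lw w F) := inferInstance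
  exact Module.Flat.trans R (Localization w.primeCompl) (Lw w F)

theorem UA_loc_r (w : Ideal R) [w.IsPrime] (F N : Type u) [AddCommGroup F] [Module R F]
    [AddCommGroup N] [Module R N] :
    IsLocalizedModule w.primeCompl
      ((LocalizedModule.mkLinearMap w.primeCompl F).rTensor N) :=
  IsLocalizedModule.rTensor (R := R) (A := R) w.primeCompl
    (LocalizedModule.mkLinearMap w.primeCompl F)

theorem UA_loc_l (w : Ideal R) [w.IsPrime] (F N : Type u) [AddCommGroup F] [Module R F]
    [AddCommGroup N] [Module R N] :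
    IsLocalizedModule w.primeCompl
      ((LocalizedModule.mkLinearMap w.primeCompl N).lTensor F) := by
  have h1 := UA_loc_r w N F
  have h2 : (LocalizedModule.mkLinearMap w.primeCompl N).lTensor F =
      ((TensorProduct.comm R (Lw w N) F).toLinearMap ∘ₗ
        ((LocalizedModule.mkLinearMap w.primeCompl N).rTensor F)) ∘ₗ
          (TensorProduct.comm R F N).toLinearMap := by
    ext x z
    simp
  rw [h2]
  have h3 : IsLocalizedModule w.primeCompl ((TensorProduct.comm R (Lw w N) F).toLinearMap ∘ₗ
        ((LocalizedModule.mkLinearMap w.primeCompl N).rTensor F)) :=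
    IsLocalizedModule.of_linearEquiv _ _ _
  exact IsLocalizedModule.of_linearEquiv_right _ _ _

/-- `F ⊗ N_w = F_w ⊗ N` -/
noncomputable def UA_e (w : Ideal R) [w.IsPrime] (F N : Type u) [AddCommGroup F] [Module R F]
    [AddCommGroup N] [Module R N] : F ⊗[R] Lw w N ≃ₗ[R] Lw w F ⊗[R] N :=
  haveI := UA_loc_l w F N
  haveI := UA_loc_r w F N
  IsLocalizedModule.linearEquiv w.primeCompl
    ((LocalizedModule.mkLinearMap w.primeCompl N).lTensor F)
    ((LocalizedModule.mkLinearMap w.primeCompl F).rTensor N)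

theorem UA_e_nat (w : Ideal R) [w.IsPrime] {F G : Type u} (N : Type u) [AddCommGroup F] [Module R F]
    [AddCommGroup G] [Module R G] [AddCommGroup N] [Module R N] (δ : F →ₗ[R] G)
    (z : F ⊗[R] Lw w N) :
    UA_e w G N (δ.rTensor (Lw w N) z) = (Lmap w δ).rTensor N (UA_e w F N z) := by
  have := UA_loc_l w F N
  have := UA_loc_r w F N
  have := UA_loc_l w G N
  have := UA_loc_r w G N
  have h : (UA_e w G N).toLinearMap ∘ₗ δ.rTensor (Lw w N) =
      (Lmap w δ).rTensor N ∘ₗ (UA_e w F N).toLinearMap := by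
    refine IsLocalizedModule.linearMap_ext w.primeCompl
      ((LocalizedModule.mkLinearMap w.primeCompl N).lTensor F)
      ((LocalizedModule.mkLinearMap w.primeCompl G).rTensor N) ?_
    refine LinearMap.ext fun x => ?_
    have h1 : UA_e w F N ((LocalizedModule.mkLinearMap w.primeCompl N).lTensor F x) =
        (LocalizedModule.mkLinearMap w.primeCompl F).rTensor N x :=
      IsLocalizedModule.linearEquiv_apply _ _ _ _
    have h2 : δ.rTensor (Lw w N) ((LocalizedModule.mkLinearMap w.primeCompl N).lTensor F x) =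
        (LocalizedModule.mkLinearMap w.primeCompl N).lTensor G (δ.rTensor N x) := by
      rw [← LinearMap.comp_apply, ← LinearMap.comp_apply, LinearMap.rTensor_comp_lTensor,
        LinearMap.lTensor_comp_rTensor]
    have h3 : UA_e w G N ((LocalizedModule.mkLinearMap w.primeCompl N).lTensor G (δ.rTensor N x)) =
        (LocalizedModule.mkLinearMap w.primeCompl G).rTensor N (δ.rTensor N x) :=
      IsLocalizedModule.linearEquiv_apply _ _ _ _
    have h4 : (Lmap w δ).rTensor N ((LocalizedModule.mkLinearMap w.primeCompl F).rTensor N x) =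
        (LocalizedModule.mkLinearMap w.primeCompl G).rTensor N (δ.rTensor N x) := by
      rw [← LinearMap.comp_apply, ← LinearMap.comp_apply, ← LinearMap.rTensor_comp,
        ← LinearMap.rTensor_comp, IsLocalizedModule.map_comp]
    simp only [LinearMap.comp_apply, LinearEquiv.coe_coe]
    rw [h1, h2, h3, h4]
  exact LinearMap.congr_fun h z

/-- the product complex `ℕ → C_w` -/
noncomputable def UA_C (w : Ideal R) [w.IsPrime] (C : FlatRes R)
    (hfl : ∀ p, Module.Flat R (ℕ → Lw w (C.F p))) : FlatRes R where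
  m := C.m
  F := fun p => ℕ → Lw w (C.F p)
  flat := hfl
  δ := fun p => (Lmap w (C.δ p)).compLeft ℕ
  inj := fun h x y hxy => by
    funext k
    exact IsLocalizedModule.map_injective w.primeCompl
      (LocalizedModule.mkLinearMap w.primeCompl (C.F 0))
      (LocalizedModule.mkLinearMap w.primeCompl (C.F 1)) (C.δ 0) (C.inj h) (congrFun hxy k)
  exact := fun p hp x => by
    have h := IsLocalizedModule.map_exact w.primeCompl
      (LocalizedModule.mkLinearMap w.primeCompl (C.F p))
      (LocalizedModule.mkLinearMap w.primeCompl (C.F (p + 1)))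
      (LocalizedModule.mkLinearMap w.primeCompl (C.F (p + 1 + 1))) (C.δ p) (C.δ (p + 1))
      (C.exact p hp)
    constructor
    · intro hx
      have h1 : ∀ k, ∃ u, Lmap w (C.δ p) u = x k := fun k => (h (x k)).1 (congrFun hx k)
      choose u hu using h1
      exact ⟨u, funext hu⟩
    · rintro ⟨u, rfl⟩
      funext k
      exact (h _).2 ⟨u k, rfl⟩

theorem UA_wloc (w : Ideal R) [w.IsPrime] (F N : Type u) [AddCommGroup F] [Module R F]
    [AddCommGroup N] [Module R N] : WLoc w ((ℕ → Lw w F) ⊗[R] N) := by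
  intro s hs
  have h1 : Function.Bijective (LinearMap.lsmul R (Lw w F) s) :=
    (Module.End.isUnit_iff _).1
      (IsLocalizedModule.map_units (LocalizedModule.mkLinearMap w.primeCompl F)
        (⟨s, hs⟩ : w.primeCompl))
  have h2 : Function.Bijective (LinearMap.lsmul R (ℕ → Lw w F) s) := by
    constructor
    · intro x y hxy
      funext k
      exact h1.1 (congrFun hxy k)
    · intro x
      choose u hu using fun k => h1.2 (x k)
      exact ⟨u, funext hu⟩
  have h3 := (LinearEquiv.rTensor N (LinearEquiv.ofBijective _ h2)).bijective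
  have h4 : (fun x : (ℕ → Lw w F) ⊗[R] N => s • x) =
      (LinearEquiv.rTensor N (LinearEquiv.ofBijective _ h2)) := by
    funext x
    have h5 : (LinearEquiv.rTensor N (LinearEquiv.ofBijective _ h2)).toLinearMap =
        LinearMap.lsmul R _ s := by
      ext a b
      simp [TensorProduct.smul_tmul']
    exact (LinearMap.congr_fun h5 x).symm
  rw [h4]
  exact h3

theorem UA_proj {A B : Type u} (N : Type u) [AddCommGroup A] [Module R A] [AddCommGroup B]
    [Module R B] [AddCommGroup N] [Module R N] (f : A →ₗ[R] B) (k : ℕ) (x : (ℕ → A) ⊗[R] N) :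
    (LinearMap.proj k : (ℕ → B) →ₗ[R] B).rTensor N ((f.compLeft ℕ).rTensor N x) =
      f.rTensor N ((LinearMap.proj k : (ℕ → A) →ₗ[R] A).rTensor N x) := by
  rw [← LinearMap.comp_apply, ← LinearMap.comp_apply, ← LinearMap.rTensor_comp,
    ← LinearMap.rTensor_comp]
  rfl

theorem UA_add {C : FlatRes R} {X : Type u} [AddCommGroup X] [Module R X] :
    ∀ (p : ℕ) (z z' : C.F p ⊗[R] X), Bd C X p z → Bd C X p z' → Bd C X p (z + z')
  | 0, z, z', h, h' => by
    have h1 : z = 0 := h
    have h2 : z' = 0 := h'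
    show z + z' = 0
    rw [h1, h2, add_zero]
  | _ + 1, _, _, h, h' => Submodule.add_mem _ h h'

theorem UA_smul {C : FlatRes R} {X : Type u} [AddCommGroup X] [Module R X] (c : R) :
    ∀ (p : ℕ) (z : C.F p ⊗[R] X), Bd C X p z → Bd C X p (c • z)
  | 0, z, h => by
    have h1 : z = 0 := h
    show c • z = 0
    rw [h1, smul_zero]
  | _ + 1, _, h => Submodule.smul_mem _ _ h

theorem UA_zero {C : FlatRes R} {X : Type u} [AddCommGroup X] [Module R X] :
    ∀ (p : ℕ), Bd C X p (0 : C.F p ⊗[R] X)
  | 0 => rfl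
  | _ + 1 => Submodule.zero_mem _

/-- the ideal of the elements which kill the homology -/
def UA_J (C : FlatRes R) (X : Type u) [AddCommGroup X] [Module R X] (p : ℕ) : Ideal R where
  carrier := {a | KillAt C X a p}
  add_mem' := fun {a b} ha hb z hz => by
    rw [add_smul]
    exact UA_add p _ _ (ha z hz) (hb z hz)
  zero_mem' := fun z _ => by
    rw [zero_smul]
    exact UA_zero p
  smul_mem' := fun c a ha z hz => by
    rw [smul_eq_mul, mul_smul]
    exact UA_smul c p _ (ha z hz)

end

theorem t_UA (h1 : S_PI.{u}) (h2 : S_LT.{u}) : S_UA.{u} := by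
  intro R _ _ n w _ N _ _ _ hq C p hp
  have hfl : ∀ p, Module.Flat R (ℕ → Lw w (C.F p)) := fun p =>
    (h1 R R (Lw w (C.F p))).2.2 (UA_flat_Lw w (C.F p))
  -- torsion for the product complex
  have key : ∀ z : (UA_C w C hfl).F p ⊗[R] N, ((UA_C w C hfl).δ p).rTensor N z = 0 →
      ∀ a ∈ w, ∃ K : ℕ, Bd (UA_C w C hfl) N p (a ^ K • z) :=
    h2 R (UA_C w C hfl) w N (fun p => UA_wloc w (C.F p) N) p (by
      have h : (UA_C w C hfl).m = C.m := rfl
      omega) fun q _ hqw => hq q hqw (UA_C w C hfl) p hp
  -- a power of each element of `w` kills the homology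
  have hrad : ∀ a ∈ w, ∃ K : ℕ, KillAt C (Lw w N) (a ^ K) p := by
    intro a ha
    by_contra hcon
    push Not at hcon
    have h3 : ∀ K : ℕ, ∃ e : C.F p ⊗[R] Lw w N, (C.δ p).rTensor (Lw w N) e = 0 ∧
        ¬ Bd C (Lw w N) p (a ^ K • e) := by
      intro K
      have h4 := hcon K
      unfold KillAt at h4
      push Not at h4
      exact h4
    choose e he0 he using h3
    obtain ⟨z, hz⟩ := (h1 R N (Lw w (C.F p))).2.1 fun k => UA_e w (C.F p) N (e k)
    have hz0 : ((Lmap w (C.δ p)).compLeft ℕ).rTensor N z = 0 := by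
      refine (h1 R N (Lw w (C.F (p + 1)))).1 _ fun k => ?_
      rw [UA_proj N (Lmap w (C.δ p)) k z, hz k, ← UA_e_nat, he0 k, map_zero]
    obtain ⟨K, hK⟩ := key z hz0 a ha
    refine he K ?_
    cases p with
    | zero =>
      have h5 : (a ^ K • z : (ℕ → Lw w (C.F 0)) ⊗[R] N) = 0 := hK
      show a ^ K • e K = 0
      apply (UA_e w (C.F 0) N).injective
      rw [map_smul, ← hz K, ← map_smul, h5, map_zero, map_zero]
    | succ q =>
      have h5 : ∃ u : (ℕ → Lw w (C.F q)) ⊗[R] N, ((Lmap w (C.δ q)).compLeft ℕ).rTensor N u =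
          a ^ K • z := hK
      obtain ⟨u, hu⟩ := h5
      refine ⟨(UA_e w (C.F q) N).symm
        ((LinearMap.proj K : (ℕ → Lw w (C.F q)) →ₗ[R] Lw w (C.F q)).rTensor N u), ?_⟩
      apply (UA_e w (C.F (q + 1)) N).injective
      rw [UA_e_nat, LinearEquiv.apply_symm_apply, ← UA_proj N (Lmap w (C.δ q)) K u, hu, map_smul,
        map_smul, hz K]
  -- so a power of `w` kills it
  obtain ⟨s, hs⟩ := Ideal.exists_radical_pow_le_of_fg (UA_J C (Lw w N) p)
    (IsNoetherian.noetherian _)
  refine ⟨s, fun a ha => hs (Ideal.pow_right_mono (fun b hb => ?_) s ha)⟩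
  obtain ⟨K, hK⟩ := hrad b hb
  exact ⟨K, hK⟩

end Pool.Agent.K6.H47.GL
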