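import Pool.Agent.K6.H47.GL.Stm

/-! Piece WR: depth and a regular element. -/

set_option autoImplicit false

open TensorProduct

universe u

namespace Pool.Agent.K6.H47.GL

namespace WR

variable {R : Type u} [CommRing R] {r : ℕ} (y : Fin r → R)

theorem flat_Bk : Module.Flat R (Bk y) := by
  have : ∀ k, Module.Flat R (Localization.Away (y k)) :=
    fun k => IsLocalization.flat _ (Submonoid.powers (y k))
  have h : Module.Flat R (Π₀ k : Fin r, Localization.Away (y k)) := inferInstance
  exact Module.Flat.of_linearEquiv (DFinsupp.linearEquivFunOnFintype (R := R)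
    (M := fun k : Fin r => Localization.Away (y k))).symm

variable (X : Type u) [AddCommGroup X] [Module R X]

theorem pr_eta (x : X) : pr y X (eta y X x) = 0 := by
  unfold pr eta
  rw [TensorProduct.mk_apply, LinearMap.rTensor_tmul, Submodule.mkQ_apply]
  have : (Submodule.Quotient.mk (1 : Bk y) : Qk y) = 0 := by
    rw [Submodule.Quotient.mk_eq_zero]
    exact ⟨1, by simp⟩
  rw [this, zero_tmul]

theorem pr_surj : Function.Surjective (pr y X) :=
  LinearMap.rTensor_surjective X (Submodule.mkQ_surjective _)

theorem pr_zero (b : Bk y ⊗[R] X) (h : pr y X b = 0) : ∃ z : X, eta y X z = b := by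
  have h1 : Function.Exact (Algebra.linearMap R (Bk y))
      (Submodule.mkQ (LinearMap.range (Algebra.linearMap R (Bk y)))) := by
    intro z
    rw [Submodule.mkQ_apply, Submodule.Quotient.mk_eq_zero]
    rfl
  have h2 := rTensor_exact X h1 (Submodule.mkQ_surjective _)
  obtain ⟨c, hc⟩ := (h2 b).1 h
  refine ⟨TensorProduct.lid R X c, ?_⟩
  rw [← hc]
  induction c with
  | zero => simp
  | tmul s z =>
    rw [TensorProduct.lid_tmul, LinearMap.rTensor_tmul]
    unfold eta
    rw [TensorProduct.mk_apply, tmul_smul, smul_tmul', Algebra.linearMap_apply,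
      Algebra.algebraMap_eq_smul_one]
  | add a b ha hb =>
    have hA : ∀ c : R ⊗[R] X, eta y X (TensorProduct.lid R X c) =
        (Algebra.linearMap R (Bk y)).rTensor X c := by
      intro c
      induction c with
      | zero => simp
      | tmul s z =>
        rw [TensorProduct.lid_tmul, LinearMap.rTensor_tmul]
        unfold eta
        rw [TensorProduct.mk_apply, tmul_smul, smul_tmul', Algebra.linearMap_apply,
          Algebra.algebraMap_eq_smul_one]
      | add a b ha hb => rw [map_add, map_add, map_add, ha, hb]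
    exact hA _

theorem eta_nat {X Z : Type u} [AddCommGroup X] [Module R X] [AddCommGroup Z] [Module R Z]
    (g : X →ₗ[R] Z) (x : X) : g.lTensor (Bk y) (eta y X x) = eta y Z (g x) := by
  unfold eta
  rw [TensorProduct.mk_apply, TensorProduct.mk_apply, LinearMap.lTensor_tmul]

theorem lsmul_lTensor (Q : Type u) [AddCommGroup Q] [Module R Q] (x : R) :
    (LinearMap.lsmul R X x).lTensor Q = LinearMap.lsmul R (Q ⊗[R] X) x := by
  ext q z
  simp

/-- the snake -/
theorem step {X Z : Type u} [AddCommGroup X] [Module R X] [AddCommGroup Z] [Module R Z] {x : R}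
    {g : X →ₗ[R] Z} (h : SES (LinearMap.lsmul R X x) g) (h0 : W y 0 Z) :
    SES (LinearMap.lsmul R (Qk y ⊗[R] X) x) (g.lTensor (Qk y)) := by
  have hflat := flat_Bk y
  refine ⟨?_, ?_, LinearMap.lTensor_surjective _ h.surj⟩
  · rw [← LinearMap.ker_eq_bot, LinearMap.ker_eq_bot']
    intro q hq
    obtain ⟨b, rfl⟩ := pr_surj y X q
    have h1 : pr y X (x • b) = 0 := by rw [map_smul]; exact hq
    obtain ⟨z, hz⟩ := pr_zero y X _ h1
    have h2 : g.lTensor (Bk y) (x • b) = 0 := by
      have h3 : Function.Exact ((LinearMap.lsmul R X x).lTensor (Bk y)) (g.lTensor (Bk y)) :=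
        lTensor_exact (Bk y) h.exact h.surj
      rw [lsmul_lTensor] at h3
      exact (h3 _).2 ⟨b, rfl⟩
    rw [← hz, eta_nat] at h2
    have h3 : g z = 0 := by
      have h4 : eta y Z (g z) = eta y Z 0 := by rw [h2, map_zero]
      exact h0 h4
    obtain ⟨z', hz'⟩ := (h.exact z).1 h3
    have h4 : x • (b - eta y X z') = 0 := by
      rw [smul_sub, ← hz, ← map_smul]
      rw [sub_eq_zero, ← hz']
      rfl
    have h5 : Function.Injective (LinearMap.lsmul R (Bk y ⊗[R] X) x) := by
      rw [← lsmul_lTensor]
      exact Module.Flat.lTensor_preserves_injective_linearMap _ h.inj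
    have h6 : b - eta y X z' = 0 := by
      apply h5
      rw [map_zero]
      exact h4
    rw [sub_eq_zero] at h6
    rw [h6, pr_eta]
  · have h3 : Function.Exact ((LinearMap.lsmul R X x).lTensor (Qk y)) (g.lTensor (Qk y)) :=
      lTensor_exact (Qk y) h.exact h.surj
    rwa [lsmul_lTensor] at h3

theorem zero_case (hWI : S_WI.{u}) {X : Type u} [AddCommGroup X] [Module R X] {x : R}
    (hx : x ∈ Ideal.span (Set.range y)) (h : Function.Injective (LinearMap.lsmul R X x)) :
    W y 0 X := by
  change Function.Injective (eta y X)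
  rw [← LinearMap.ker_eq_bot, LinearMap.ker_eq_bot']
  intro z hz
  obtain ⟨N, hN⟩ := ((hWI R r y X X).2.1 z).1 hz
  have h1 := hN (x ^ N) (Ideal.pow_mem_pow hx N)
  have h2 : ∀ n : ℕ, ∀ z : X, x ^ n • z = 0 → z = 0 := by
    intro n
    induction n with
    | zero => intro z hz; simpa using hz
    | succ n ih =>
      intro z hz
      rw [pow_succ, mul_smul] at hz
      have h3 := ih _ hz
      apply h
      rw [map_zero]
      exact h3
  exact h2 N z h1

theorem up (hWI : S_WI.{u}) {x : R} (hx : x ∈ Ideal.span (Set.range y)) (e : ℕ) :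
    ∀ (X Z : Type u) [AddCommGroup X] [Module R X] [AddCommGroup Z] [Module R Z] (g : X →ₗ[R] Z),
      SES (LinearMap.lsmul R X x) g → Wlt y e Z → Wlt y (e + 1) X := by
  induction e with
  | zero =>
    intro X Z _ _ _ _ g h _ p hp
    have : p = 0 := by omega
    subst this
    exact zero_case y hWI hx h.inj
  | succ e ih =>
    intro X Z _ _ _ _ g h hZ p hp
    cases p with
    | zero => exact zero_case y hWI hx h.inj
    | succ p =>
      have h0 := hZ 0 (by omega)
      have h1 := ih (Qk y ⊗[R] X) (Qk y ⊗[R] Z) (g.lTensor (Qk y)) (step y h h0)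
        (fun p hp => hZ (p + 1) (by omega))
      exact h1 p (by omega)

end WR

/-- WR -/
theorem t_WR (hWL : S_WL.{u}) (hWI : S_WI.{u}) : S_WR.{u} := by
  intro R _ r y X Z _ _ _ _ x g hx h e
  refine ⟨WR.up y hWI hx e X Z g h, fun hX => ?_⟩
  exact (hWL R r y X X Z (LinearMap.lsmul R X x) g h e).2.2 hX (fun p hp => hX p (by omega))

end Pool.Agent.K6.H47.GL
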