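import Pool.Agent.K6.H47.GL.PMN
import Pool.Agent.K6.H47.GL.StmTor
import Pool.Agent.K6.H47.GL.CH
import Pool.Agent.K6.H47.GL.PIS
import Pool.Agent.K6.H47.GL.PWI
import Pool.Agent.K6.H47.GL.PWL
import Pool.Agent.K6.H47.GL.WR
import Pool.Agent.K6.H47.GL.LG
import Pool.Agent.K6.H47.GL.PLT
import Pool.Agent.K6.H47.GL.PPI
import Pool.Agent.K6.H47.GL.UA
import Pool.Agent.K6.H47.GL.PFG
import Pool.Agent.K6.H47.GL.PRG
import Pool.Agent.K6.H47.GL.OP
import Pool.Agent.K6.H47.GL.PBB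
import Pool.Agent.K6.H47.GL.PBR
import Pool.Agent.K6.H47.GL.PFD
import Pool.Agent.K6.H47.GL.PG0
import Pool.Agent.K6.H47.GL.PGL
import Pool.Agent.K6.H47.GL.PKK
import Pool.Agent.K6.H47.GL.PST
import Pool.Agent.K6.H7.LZ.Laz

/-!
# The main theorem
-/

set_option autoImplicit false

universe u

namespace Pool.Agent.K6.H47.GL

theorem main (R : Type u) [CommRing R] [IsNoetherianRing R] (n : ℕ) (M : Type u) [AddCommGroup M]
    [Module R M] (hM : RfdLE R n M) :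
    ∃ (ι : Type u) (_ : Preorder ι) (_ : IsDirectedOrder ι) (_ : Nonempty ι) (_ : DecidableEq ι)
      (G : ι → Type u) (_ : ∀ i, AddCommGroup (G i)) (_ : ∀ i, Module R (G i))
      (f : ∀ i j, i ≤ j → G i →ₗ[R] G j) (_ : DirectedSystem G fun i j h => f i j h),
      (∀ i, Module.Finite R (G i) ∧ RfdLE R n (G i)) ∧
      Nonempty (Module.DirectLimit G f ≃ₗ[R] M) := by
  have hWR : S_WR.{u} := t_WR t_WL t_WI
  have hRG : S_RG.{u} := t_RG t_WI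
  have hFD : S_FD.{u} := t_FD t_WI hWR hRG
  have hST : S_ST.{u} := t_ST t_WI t_CH t_IS
  have hMN : S_MN.{u} := t_MN t_CH t_IS t_WI (t_BR t_WI) t_LG (t_UA t_PI t_LT)
    (t_FG t_WI hWR hRG) (t_KK t_WI t_WL t_CH t_IS) t_GL (t_G0 t_WI) hFD
    (t_BB t_WI t_CH t_IS t_WL hST hFD t_LT t_LG) (t_OP t_WI t_WL hWR hRG hFD)
  refine Pool.Agent.K6.H7.LZ.lazard (R := R) (M := M) (fun N => RfdLE R n N) ?_ ?_
  · intro N _ _ _ φ
    obtain ⟨N', a1, a2, a3, f, g, h1, h2⟩ := hMN R n M hM N φ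
    exact ⟨N', a1, a2, a3, h1, f, g, h2⟩
  · intro C D _ _ _ _ e h
    obtain ⟨e⟩ := e
    exact rfd_congr t_IS e.symm h

end Pool.Agent.K6.H47.GL
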