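import Pool.Agent.K6.H47.GL.Stm

/-!
# Piece BB (helper84): the depth condition implies restricted flat dimension at most `n` at `w`
-/

set_option autoImplicit false

open TensorProduct

universe u

namespace Pool.Agent.K6.H47.GL

namespace BB

variable {R : Type u} [CommRing R]

/-! ### boundaries -/

theorem bd_zero (C : FlatRes R) (X : Type u) [AddCommGroup X] [Module R X] (p : ℕ) :
    Bd C X p 0 := by
  cases p with
  | zero => rfl
  | succ p => exact Submodule.zero_mem _

theorem bd_add (C : FlatRes R) (X : Type u) [AddCommGroup X] [Module R X] (p : ℕ)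
    {z z' : C.F p ⊗[R] X} (h : Bd C X p z) (h' : Bd C X p z') : Bd C X p (z + z') := by
  cases p with
  | zero =>
    have e1 : z = 0 := h
    have e2 : z' = 0 := h'
    show z + z' = 0
    rw [e1, e2, add_zero]
  | succ p => exact Submodule.add_mem _ h h'

theorem bd_sum (C : FlatRes R) (X : Type u) [AddCommGroup X] [Module R X] (p : ℕ) {ι : Type}
    (s : Finset ι) (z : ι → C.F p ⊗[R] X) (h : ∀ i ∈ s, Bd C X p (z i)) :
    Bd C X p (∑ i ∈ s, z i) := by
  classical
  induction s using Finset.induction_on with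
  | empty => simpa using bd_zero C X p
  | insert a s ha ih =>
    rw [Finset.sum_insert ha]
    exact bd_add C X p (h a (Finset.mem_insert_self _ _))
      (ih fun i hi => h i (Finset.mem_insert_of_mem hi))

theorem nat_lr (C : FlatRes R) {X Y : Type u} [AddCommGroup X] [Module R X] [AddCommGroup Y]
    [Module R Y] (g : X →ₗ[R] Y) (p : ℕ) (z : C.F p ⊗[R] X) :
    (C.δ p).rTensor Y (g.lTensor (C.F p) z) = g.lTensor (C.F (p + 1)) ((C.δ p).rTensor X z) := by
  rw [← LinearMap.comp_apply, ← LinearMap.comp_apply, LinearMap.rTensor_comp_lTensor,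
    LinearMap.lTensor_comp_rTensor]

theorem bd_map (C : FlatRes R) {X Y : Type u} [AddCommGroup X] [Module R X] [AddCommGroup Y]
    [Module R Y] (g : X →ₗ[R] Y) (p : ℕ) {z : C.F p ⊗[R] X} (h : Bd C X p z) :
    Bd C Y p (g.lTensor (C.F p) z) := by
  cases p with
  | zero =>
    have e1 : z = 0 := h
    show g.lTensor (C.F 0) z = 0
    rw [e1, map_zero]
  | succ p =>
    obtain ⟨v, rfl⟩ := h
    exact ⟨g.lTensor (C.F p) v, nat_lr C g p v⟩

/-! ### modules local at `w` -/

theorem wloc_tensor {w : Ideal R} {X : Type u} [AddCommGroup X] [Module R X] (h : WLoc w X)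
    (Y : Type u) [AddCommGroup Y] [Module R Y] : WLoc w (Y ⊗[R] X) := by
  intro s hs
  let e : X ≃ₗ[R] X := LinearEquiv.ofBijective (LinearMap.lsmul R X s) (h s hs)
  have h1 : Function.Bijective (e.lTensor Y) := (e.lTensor Y).bijective
  have h2 : (fun z : Y ⊗[R] X => s • z) = e.lTensor Y := by
    funext z
    induction z using TensorProduct.induction_on with
    | zero => simp
    | tmul a b =>
      have : e b = s • b := rfl
      rw [LinearEquiv.lTensor_tmul, this, TensorProduct.tmul_smul]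
    | add a b ha hb => rw [smul_add, ha, hb, map_add]
  rw [h2]
  exact h1

theorem wloc_Lw {w : Ideal R} [w.IsPrime] (M : Type u) [AddCommGroup M] [Module R M] :
    WLoc w (Lw w M) := by
  intro s hs
  have h1 := IsLocalizedModule.map_units (S := w.primeCompl)
    (LocalizedModule.mkLinearMap w.primeCompl M) ⟨s, hs⟩
  rw [Module.End.isUnit_iff] at h1
  exact h1

section
variable {r : ℕ} (y : Fin r → R)

theorem wloc_ker {w : Ideal R} {X : Type u} [AddCommGroup X] [Module R X] (h : WLoc w X) :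
    WLoc w (LinearMap.ker (eta y X)) := by
  intro s hs
  constructor
  · intro a b hab
    apply Subtype.ext
    have := congrArg Subtype.val hab
    exact (h s hs).1 this
  · rintro ⟨x, hx⟩
    obtain ⟨x', hx'⟩ := (h s hs).2 x
    have hx'' : s • x' = x := hx'
    refine ⟨⟨x', ?_⟩, Subtype.ext hx'⟩
    rw [LinearMap.mem_ker] at hx ⊢
    apply (wloc_tensor h (Bk y) s hs).1
    show s • eta y X x' = s • (0 : Bk y ⊗[R] X)
    rw [smul_zero, ← map_smul, hx'', hx]

/-! ### the sequence `X → B ⊗ X → Q ⊗ X → 0` -/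

theorem eta_apply (X : Type u) [AddCommGroup X] [Module R X] (x : X) : eta y X x = 1 ⊗ₜ x := rfl

theorem exact_eta_pr (X : Type u) [AddCommGroup X] [Module R X] :
    Function.Exact (eta y X) (pr y X) := by
  have h1 : Function.Exact ((Algebra.linearMap R (Bk y)).rTensor X) (pr y X) :=
    rTensor_exact X (LinearMap.exact_map_mkQ_range _) (Submodule.mkQ_surjective _)
  intro z
  rw [h1 z]
  constructor
  · rintro ⟨v, rfl⟩
    induction v using TensorProduct.induction_on with
    | zero => exact ⟨0, by simp⟩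
    | tmul a b =>
      refine ⟨a • b, ?_⟩
      rw [eta_apply, TensorProduct.tmul_smul, LinearMap.rTensor_tmul, TensorProduct.smul_tmul']
      congr 1
      rw [Algebra.linearMap_apply, Algebra.algebraMap_eq_smul_one]
    | add a b ha hb =>
      obtain ⟨a', ha'⟩ := ha
      obtain ⟨b', hb'⟩ := hb
      exact ⟨a' + b', by rw [map_add, map_add, ha', hb']⟩
  · rintro ⟨x, rfl⟩
    refine ⟨1 ⊗ₜ x, ?_⟩
    rw [eta_apply, LinearMap.rTensor_tmul, Algebra.linearMap_apply, map_one]

theorem pr_surj (X : Type u) [AddCommGroup X] [Module R X] : Function.Surjective (pr y X) :=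
  LinearMap.rTensor_surjective X (Submodule.mkQ_surjective _)

theorem flat_Bk : Module.Flat R (Bk y) := by
  classical
  have h1 : ∀ k : Fin r, Module.Flat R (Localization.Away (y k)) := fun k =>
    IsLocalization.flat _ (Submonoid.powers (y k))
  have h2 : Module.Flat R (Π₀ k : Fin r, Localization.Away (y k)) :=
    Module.Flat.dfinsupp_iff.mpr h1
  exact Module.Flat.of_linearEquiv (DFinsupp.linearEquivFunOnFintype (R := R)).symm

/-! ### `B ⊗ (Q ⊗ X)` is a direct summand of `B ⊗ (B ⊗ X)` -/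

/-- the multiplication `B ⊗ (B ⊗ X) → B ⊗ X` -/
noncomputable def mu (X : Type u) [AddCommGroup X] [Module R X] :
    Bk y ⊗[R] (Bk y ⊗[R] X) →ₗ[R] Bk y ⊗[R] X :=
  (LinearMap.mul' R (Bk y)).rTensor X ∘ₗ (TensorProduct.assoc R (Bk y) (Bk y) X).symm.toLinearMap

theorem mu_tmul (X : Type u) [AddCommGroup X] [Module R X] (b b' : Bk y) (x : X) :
    mu y X (b ⊗ₜ (b' ⊗ₜ x)) = (b * b') ⊗ₜ x := by
  simp [mu]

theorem mu_iota (X : Type u) [AddCommGroup X] [Module R X] (z : Bk y ⊗[R] X) :
    mu y X ((eta y X).lTensor (Bk y) z) = z := by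
  induction z using TensorProduct.induction_on with
  | zero => simp
  | tmul b x => rw [LinearMap.lTensor_tmul, eta_apply, mu_tmul, mul_one]
  | add a b ha hb => rw [map_add, map_add, ha, hb]

theorem exists_section (X : Type u) [AddCommGroup X] [Module R X] :
    ∃ i : Bk y ⊗[R] (Qk y ⊗[R] X) →ₗ[R] Bk y ⊗[R] (Bk y ⊗[R] X),
      (pr y X).lTensor (Bk y) ∘ₗ i = LinearMap.id := by
  set π := (pr y X).lTensor (Bk y) with hπ
  set ι := (eta y X).lTensor (Bk y) with hι
  have hex : Function.Exact ι π := lTensor_exact (Bk y) (exact_eta_pr y X) (pr_surj y X)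
  have hsurj : Function.Surjective π := LinearMap.lTensor_surjective (Bk y) (pr_surj y X)
  let φ : Bk y ⊗[R] (Bk y ⊗[R] X) →ₗ[R] Bk y ⊗[R] (Bk y ⊗[R] X) := LinearMap.id - ι ∘ₗ mu y X
  have hφ : LinearMap.ker π ≤ LinearMap.ker φ := by
    intro z hz
    rw [LinearMap.mem_ker] at hz
    obtain ⟨v, rfl⟩ := (hex z).1 hz
    rw [LinearMap.mem_ker]
    show ι v - ι (mu y X (ι v)) = 0
    rw [hι, mu_iota, sub_self]
  refine ⟨(LinearMap.ker π).liftQ φ hφ ∘ₗ (π.quotKerEquivOfSurjective hsurj).symm.toLinearMap, ?_⟩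
  apply LinearMap.ext
  intro q
  obtain ⟨z, rfl⟩ := hsurj q
  have h1 : (π.quotKerEquivOfSurjective hsurj).symm (π z) = Submodule.Quotient.mk z := by
    rw [LinearEquiv.symm_apply_eq]
    rfl
  show π ((LinearMap.ker π).liftQ φ hφ ((π.quotKerEquivOfSurjective hsurj).symm (π z))) = π z
  rw [h1]
  show π ((LinearMap.ker π).liftQ φ hφ (Submodule.Quotient.mk z)) = π z
  rw [Submodule.liftQ_apply]
  show π (z - ι (mu y X z)) = π z
  rw [map_sub]
  have h2 : π (ι (mu y X z)) = 0 := (hex _).2 ⟨_, rfl⟩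
  rw [h2, sub_zero]

/-! ### exactness of `C ⊗ (B ⊗ X)` -/

theorem leftComm_nat (C : FlatRes R) (X : Type u) [AddCommGroup X] [Module R X] (p : ℕ)
    (z : C.F p ⊗[R] (Bk y ⊗[R] X)) :
    TensorProduct.leftComm R (C.F (p + 1)) (Bk y) X ((C.δ p).rTensor (Bk y ⊗[R] X) z) =
      ((C.δ p).rTensor X).lTensor (Bk y) (TensorProduct.leftComm R (C.F p) (Bk y) X z) := by
  induction z using TensorProduct.induction_on with
  | zero => simp
  | tmul f v =>
    induction v using TensorProduct.induction_on with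
    | zero => simp
    | tmul b x => simp
    | add a b ha hb => simp only [TensorProduct.tmul_add, map_add, ha, hb]
  | add a b ha hb => simp only [map_add, ha, hb]

/-- multiplication with an element of `B` -/
noncomputable def Tb (C : FlatRes R) (X : Type u) [AddCommGroup X] [Module R X] (p : ℕ)
    (b : Bk y) : C.F p ⊗[R] X →ₗ[R] C.F p ⊗[R] (Bk y ⊗[R] X) :=
  (TensorProduct.mk R (Bk y) X b).lTensor (C.F p)

theorem leftComm_symm_Tb (C : FlatRes R) (X : Type u) [AddCommGroup X] [Module R X] (p : ℕ)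
    (b : Bk y) (z : C.F p ⊗[R] X) :
    (TensorProduct.leftComm R (C.F p) (Bk y) X).symm (b ⊗ₜ z) = Tb y C X p b z := by
  induction z using TensorProduct.induction_on with
  | zero => simp
  | tmul f x => simp [Tb]
  | add a c ha hc => simp only [TensorProduct.tmul_add, map_add, ha, hc]

theorem Tb_add (C : FlatRes R) (X : Type u) [AddCommGroup X] [Module R X] (p : ℕ) {ι : Type}
    (s : Finset ι) (b : ι → Bk y) (z : C.F p ⊗[R] X) :
    Tb y C X p (∑ k ∈ s, b k) z = ∑ k ∈ s, Tb y C X p (b k) z := by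
  simp only [← leftComm_symm_Tb, TensorProduct.sum_tmul, map_sum]

theorem Tb_smul (C : FlatRes R) (X : Type u) [AddCommGroup X] [Module R X] (p : ℕ) (a : R)
    (b : Bk y) (z : C.F p ⊗[R] X) :
    Tb y C X p (a • b) z = Tb y C X p b (a • z) := by
  simp only [← leftComm_symm_Tb, TensorProduct.smul_tmul]

theorem exAt_B (C : FlatRes R) (X : Type u) [AddCommGroup X] [Module R X] (p : ℕ)
    (h : ∀ z : C.F p ⊗[R] X, (C.δ p).rTensor X z = 0 → ∀ k, ∃ N : ℕ, Bd C X p (y k ^ N • z)) :
    ExAt C (Bk y ⊗[R] X) p := by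
  classical
  have hflat := flat_Bk y
  intro z hz
  set e := TensorProduct.leftComm R (C.F p) (Bk y) X with he
  have h1 : ((C.δ p).rTensor X).lTensor (Bk y) (e z) = 0 := by
    rw [← leftComm_nat, hz, map_zero]
  have hex : Function.Exact ((LinearMap.ker ((C.δ p).rTensor X)).subtype)
      ((C.δ p).rTensor X) := LinearMap.exact_subtype_ker_map _
  obtain ⟨v, hv⟩ := (Module.Flat.lTensor_exact (Bk y) hex (e z)).1 h1
  have h2 : z = e.symm (((LinearMap.ker ((C.δ p).rTensor X)).subtype).lTensor (Bk y) v) := by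
    rw [hv, LinearEquiv.symm_apply_apply]
  rw [h2]
  clear h2 hv h1 hz
  induction v using TensorProduct.induction_on with
  | zero =>
    rw [map_zero, map_zero]
    exact bd_zero _ _ _
  | add a b ha hb =>
    rw [map_add, map_add]
    exact bd_add _ _ _ ha hb
  | tmul b c =>
    obtain ⟨c, hc⟩ := c
    rw [LinearMap.lTensor_tmul, Submodule.subtype_apply, leftComm_symm_Tb]
    rw [LinearMap.mem_ker] at hc
    choose N hN using h c hc
    have hmem : ∀ k, y k ^ N k ∈ Submonoid.powers (y k) := fun k => ⟨N k, rfl⟩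
    have hb : b = ∑ k : Fin r, (y k ^ N k) • (Pi.single k
        (b k * IsLocalization.mk' (Localization.Away (y k)) (1 : R)
          (⟨y k ^ N k, hmem k⟩ : Submonoid.powers (y k))) : Bk y) := by
      funext j
      rw [Finset.sum_apply, Finset.sum_eq_single j]
      · rw [Pi.smul_apply, Pi.single_eq_same, Algebra.smul_def, mul_left_comm,
          IsLocalization.mul_mk'_eq_mk'_of_mul, mul_one, IsLocalization.mk'_self _ (hmem j),
          mul_one]
      · intro k _ hk
        rw [Pi.smul_apply, Pi.single_eq_of_ne (Ne.symm hk), smul_zero]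
      · intro hj
        exact absurd (Finset.mem_univ _) hj
    rw [hb, Tb_add]
    refine bd_sum _ _ _ _ _ fun k _ => ?_
    rw [Tb_smul]
    exact bd_map C _ p (hN k)

end

end BB

open BB in
theorem t_BB (h1 : S_WI.{u}) (h2 : S_CH.{u}) (h3 : S_IS.{u}) (_h4 : S_WL.{u}) (h5 : S_ST.{u})
    (_h6 : S_FD.{u}) (h7 : S_LT.{u}) (h8 : S_LG.{u}) : S_BB.{u} := by
  intro R _ _ n w _ M _ _ hq r y hy t ht1 ht2 hdep C
  have hflat := flat_Bk y
  -- the hypothesis on `B ⊗ X` passes from `X` to `Q ⊗ X`
  have hyp_Q : ∀ (X : Type u) [AddCommGroup X] [Module R X],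
      (∀ p, p + n < C.m → ExAt C (Bk y ⊗[R] X) p) →
      ∀ p, p + n < C.m → ExAt C (Bk y ⊗[R] (Qk y ⊗[R] X)) p := by
    intro X _ _ hX p hp
    obtain ⟨-, i2, i3, -, -⟩ := h3 R C p (by omega)
    obtain ⟨i, hi⟩ := exists_section y X
    exact i3 _ _ i _ hi (i2 _ _ hflat (hX p hp))
  -- (i)
  have part1 : ∀ (p : ℕ) (X : Type u) [AddCommGroup X] [Module R X], WLoc w X →
      (∀ p, p + n < C.m → ExAt C (Bk y ⊗[R] X) p) → p + n < C.m → p + t < C.m →
      ExAt C X p := by
    intro p
    induction p with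
    | zero =>
      intro X _ _ hX hyp hn ht
      let Γ := LinearMap.ker (eta y X)
      have s1 : SES Γ.subtype Γ.mkQ :=
        ⟨Subtype.val_injective, LinearMap.exact_subtype_mkQ Γ, Submodule.mkQ_surjective Γ⟩
      have hle : Γ ≤ LinearMap.ker (eta y X) := le_refl _
      have s2 : SES (Γ.liftQ (eta y X) hle) (pr y X) := by
        refine ⟨?_, ?_, pr_surj y X⟩
        · rw [← LinearMap.ker_eq_bot]
          exact Submodule.ker_liftQ_eq_bot _ _ _ (le_refl _)
        · intro z
          rw [exact_eta_pr y X z]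
          constructor
          · rintro ⟨x, rfl⟩
            exact ⟨Submodule.Quotient.mk x, Submodule.liftQ_apply _ _ _⟩
          · rintro ⟨x, rfl⟩
            obtain ⟨x, rfl⟩ := Submodule.Quotient.mk_surjective _ x
            exact ⟨x, (Submodule.liftQ_apply _ _ _).symm⟩
      have hΓ : ExAt C Γ 0 := by
        refine h5 R r y w hy t ht1 ht2 C Γ (wloc_ker y hX) ?_ 0 ht
        rintro ⟨x, hx⟩
        rw [LinearMap.mem_ker] at hx
        rw [(h1 R r y Γ Γ).1]
        intro k
        obtain ⟨N, hN⟩ := ((h1 R r y X X).1 x).1 hx k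
        exact ⟨N, Subtype.ext hN⟩
      obtain ⟨c1, -, -⟩ := h2 R C _ _ _ _ _ s1
      obtain ⟨-, c2, -⟩ := h2 R C _ _ _ _ _ s2
      exact c1 0 (by omega) hΓ (c2 0 (by omega) (hyp 0 hn) (fun q hq => absurd hq (by omega)))
    | succ p ih =>
      intro X _ _ hX hyp hn ht
      let Γ := LinearMap.ker (eta y X)
      have s1 : SES Γ.subtype Γ.mkQ :=
        ⟨Subtype.val_injective, LinearMap.exact_subtype_mkQ Γ, Submodule.mkQ_surjective Γ⟩
      have hle : Γ ≤ LinearMap.ker (eta y X) := le_refl _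
      have s2 : SES (Γ.liftQ (eta y X) hle) (pr y X) := by
        refine ⟨?_, ?_, pr_surj y X⟩
        · rw [← LinearMap.ker_eq_bot]
          exact Submodule.ker_liftQ_eq_bot _ _ _ (le_refl _)
        · intro z
          rw [exact_eta_pr y X z]
          constructor
          · rintro ⟨x, rfl⟩
            exact ⟨Submodule.Quotient.mk x, Submodule.liftQ_apply _ _ _⟩
          · rintro ⟨x, rfl⟩
            obtain ⟨x, rfl⟩ := Submodule.Quotient.mk_surjective _ x
            exact ⟨x, (Submodule.liftQ_apply _ _ _).symm⟩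
      have hΓ : ExAt C Γ (p + 1) := by
        refine h5 R r y w hy t ht1 ht2 C Γ (wloc_ker y hX) ?_ (p + 1) ht
        rintro ⟨x, hx⟩
        rw [LinearMap.mem_ker] at hx
        rw [(h1 R r y Γ Γ).1]
        intro k
        obtain ⟨N, hN⟩ := ((h1 R r y X X).1 x).1 hx k
        exact ⟨N, Subtype.ext hN⟩
      obtain ⟨c1, -, -⟩ := h2 R C _ _ _ _ _ s1
      obtain ⟨-, c2, -⟩ := h2 R C _ _ _ _ _ s2
      refine c1 (p + 1) (by omega) hΓ (c2 (p + 1) (by omega) (hyp (p + 1) hn) (fun q hq => ?_))
      obtain rfl : q = p := by omega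
      exact ih (Qk y ⊗[R] X) (wloc_tensor hX _) (hyp_Q X hyp) (by omega) (by omega)
  -- (ii)
  have part2 : ∀ (e p : ℕ) (X : Type u) [AddCommGroup X] [Module R X], WLoc w X →
      (∀ p, p + n < C.m → ExAt C (Bk y ⊗[R] X) p) → Wlt y e X → p + n < C.m →
      p + t < C.m + e → ExAt C X p := by
    intro e
    induction e with
    | zero =>
      intro p X _ _ hX hyp _ hn ht
      exact part1 p X hX hyp hn (by omega)
    | succ e ih =>
      intro p X _ _ hX hyp hW hn ht
      have s2 : SES (eta y X) (pr y X) :=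
        ⟨hW 0 (by omega), exact_eta_pr y X, pr_surj y X⟩
      obtain ⟨-, c2, -⟩ := h2 R C _ _ _ _ _ s2
      refine c2 p (by omega) (hyp p hn) (fun q hq => ?_)
      refine ih q (Qk y ⊗[R] X) (wloc_tensor hX _) (hyp_Q X hyp) (fun p' hp' => ?_) (by omega)
        (by omega)
      exact hW (p' + 1) (by omega)
  intro p hp
  refine part2 (t - n) p (Lw w M) (wloc_Lw M) (fun p hp => ?_) (fun p hp => hdep p (by omega)) hp
    (by omega)
  refine exAt_B y C (Lw w M) p fun z hz k => ?_
  refine h7 R C w (Lw w M) (fun p => wloc_tensor (wloc_Lw M) _) p (by omega) (fun q _ hqw => ?_) z hz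
    (y k) ?_
  · exact (h8 R C p M (by omega)).2.2 q w hqw.le (hq q hqw C p hp)
  · rw [← hy]
    exact Ideal.subset_span ⟨k, rfl⟩

end Pool.Agent.K6.H47.GL
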