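import Pool.Agent.K6.H47.GL.Stm

/-!
# The Lazard trick

Every module `M` such that each map from a finitely generated module to `M` factors through a finitely
generated module with a property `P` is a direct limit of finitely generated modules with `P`.
-/

set_option autoImplicit false

universe u

namespace Pool.Agent.K6.H47.GL.LZ

/-- the large free module -/
def Fr (R : Type u) [CommRing R] (M : Type u) : Type u := (M × ℕ) →₀ R

noncomputable instance (R : Type u) [CommRing R] (M : Type u) : AddCommGroup (Fr R M) :=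
  inferInstanceAs (AddCommGroup ((M × ℕ) →₀ R))

noncomputable instance (R : Type u) [CommRing R] (M : Type u) : Module R (Fr R M) :=
  inferInstanceAs (Module R ((M × ℕ) →₀ R))

/-- its basis -/
noncomputable def bas (R : Type u) [CommRing R] (M : Type u) : Module.Basis (M × ℕ) R (Fr R M) :=
  Finsupp.basisSingleOne

variable {R : Type u} [CommRing R] {M : Type u} [AddCommGroup M] [Module R M]

/-- the canonical map of the large free module -/
noncomputable def can : Fr R M →ₗ[R] M := (bas R M).constr R (fun q : M × ℕ => q.1)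

theorem can_e (q : M × ℕ) : can (bas R M q) = q.1 := (bas R M).constr_basis R _ q

/-- the free module on a finite set -/
noncomputable abbrev Sp (R : Type u) [CommRing R] {M : Type u} (I : Finset (M × ℕ)) :
    Submodule R (Fr R M) := Submodule.span R ((bas R M) '' (I : Set (M × ℕ)))

/-- the finitely presented modules -/
abbrev Gm (I : Finset (M × ℕ)) (L : Submodule R (Fr R M)) : Type u :=
  (Sp R I) ⧸ (L.comap (Sp R I).subtype)

instance finSp {M : Type u} (I : Finset (M × ℕ)) : Module.Finite R (Sp R I) :=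
  Module.Finite.span_of_finite R (Set.Finite.image _ I.finite_toSet)

theorem Sp_mono {M : Type u} {I J : Finset (M × ℕ)} (h : I ⊆ J) : Sp R I ≤ Sp R J :=
  Submodule.span_mono (Set.image_mono (by exact_mod_cast h))

theorem e_mem {M : Type u} {I : Finset (M × ℕ)} {q : M × ℕ} (hq : q ∈ I) :
    bas R M q ∈ Sp R I := Submodule.subset_span ⟨q, by exact_mod_cast hq, rfl⟩

/-- transition maps -/
noncomputable def tr {I J : Finset (M × ℕ)} {L L' : Submodule R (Fr R M)} (h : I ⊆ J)
    (h' : L ≤ L') : Gm I L →ₗ[R] Gm J L' :=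
  Submodule.mapQ _ _ (Submodule.inclusion (Sp_mono h))
    (by
      intro z hz
      exact h' hz)

theorem tr_mk {I J : Finset (M × ℕ)} {L L' : Submodule R (Fr R M)} (h : I ⊆ J)
    (h' : L ≤ L') (z : Sp R I) : tr h h' (Submodule.Quotient.mk z : Gm I L) =
      Submodule.Quotient.mk (Submodule.inclusion (Sp_mono h) z) :=
  rfl

/-- the maps to `M` -/
noncomputable def toM {I : Finset (M × ℕ)} {L : Submodule R (Fr R M)}
    (h : L ≤ LinearMap.ker (can (R := R) (M := M))) : Gm I L →ₗ[R] M :=
  Submodule.liftQ _ (can ∘ₗ (Sp R I).subtype) (by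
    intro z hz
    exact h hz)

theorem toM_mk {I : Finset (M × ℕ)} {L : Submodule R (Fr R M)}
    (h : L ≤ LinearMap.ker (can (R := R) (M := M))) (z : Sp R I) :
    toM h (Submodule.Quotient.mk z : Gm I L) = can (z : Fr R M) := rfl

variable (P : ∀ (N : Type u) [AddCommGroup N] [Module R N], Prop)

/-- the extension step -/
theorem extend
    (hP : ∀ (N N' : Type u) [AddCommGroup N] [Module R N] [AddCommGroup N'] [Module R N']
      (_ : N ≃ₗ[R] N'), P N → P N')
    (hM : ∀ (N : Type u) [AddCommGroup N] [Module R N] [Module.Finite R N] (φ : N →ₗ[R] M),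
      ∃ (N' : Type u) (_ : AddCommGroup N') (_ : Module R N') (_ : Module.Finite R N')
        (f : N →ₗ[R] N') (g : N' →ₗ[R] M), P N' ∧ g ∘ₗ f = φ)
    (I : Finset (M × ℕ)) (L : Submodule R (Fr R M)) (h1 : L ≤ Sp R I)
    (h2 : L ≤ LinearMap.ker (can (R := R) (M := M))) :
    ∃ (J : Finset (M × ℕ)) (L' : Submodule R (Fr R M)), I ⊆ J ∧ L ≤ L' ∧ L' ≤ Sp R J ∧
      L' ≤ LinearMap.ker (can (R := R) (M := M)) ∧ P (Gm J L') := by
  classical
  obtain ⟨N', _, _, hfin, f, g, hPN, hgf⟩ := hM (Gm I L) (toM h2)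
  obtain ⟨m, c, hc⟩ := Module.Finite.exists_fin (R := R) (M := N')
  set K : ℕ := I.sup Prod.snd + 1 with hK
  have hKI : ∀ q ∈ I, q.2 < K := by
    intro q hq
    have := Finset.le_sup (f := Prod.snd) hq
    omega
  set nw : Fin m → M × ℕ := fun i => (g (c i), K + i) with hnw
  have hinj : Function.Injective nw := by
    intro i j hij
    have := congrArg Prod.snd hij
    simp only [hnw] at this
    exact Fin.ext (by omega)
  have hnot : ∀ i, nw i ∉ I := by
    intro i hi
    have := hKI _ hi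
    simp only [hnw] at this
    omega
  set J : Finset (M × ℕ) := I ∪ Finset.univ.image nw with hJ
  -- the map on generators
  set h : M × ℕ → N' := fun q => if hq : q ∈ I then
      f (Submodule.Quotient.mk ⟨bas R M q, e_mem hq⟩)
    else if hq' : ∃ i, nw i = q then c hq'.choose else 0 with hh
  have hI : ∀ q (hq : q ∈ I), h q = f (Submodule.Quotient.mk ⟨bas R M q, e_mem hq⟩) := by
    intro q hq
    simp only [hh]
    rw [dif_pos hq]
  have hN : ∀ i, h (nw i) = c i := by
    intro i
    simp only [hh]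
    rw [dif_neg (hnot i)]
    have hex : ∃ j, nw j = nw i := ⟨i, rfl⟩
    rw [dif_pos hex]
    exact congrArg c (hinj hex.choose_spec)
  set Ψ : Fr R M →ₗ[R] N' := (bas R M).constr R h with hΨ
  have hΨs : ∀ q, Ψ (bas R M q) = h q := fun q => (bas R M).constr_basis R h q
  have hind' : ∀ z ∈ Sp R I, ∀ hz : z ∈ Sp R I, Ψ z = f (Submodule.Quotient.mk ⟨z, hz⟩) := by
    intro z hz
    refine Submodule.span_induction ?_ ?_ ?_ ?_ hz
    · rintro _ ⟨q, hq, rfl⟩ hz
      rw [hΨs, hI q (by exact_mod_cast hq)]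
    · intro hz
      rw [map_zero]
      have : (Submodule.Quotient.mk ⟨0, hz⟩ : Gm I L) = 0 := rfl
      rw [this, map_zero]
    · intro x y hx hy ihx ihy hz
      rw [map_add, ihx hx, ihy hy, ← map_add]
      rfl
    · intro r x hx ihx hz
      rw [map_smul, ihx hx, ← map_smul]
      rfl
  have hg : ∀ z ∈ Sp R J, g (Ψ z) = can z := by
    intro z hz
    refine Submodule.span_induction ?_ ?_ ?_ ?_ hz
    · rintro _ ⟨q, hq, rfl⟩
      have hq : q ∈ J := by exact_mod_cast hq
      rw [hΨs, can_e]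
      rcases Finset.mem_union.1 hq with hq | hq
      · rw [hI q hq]
        have := LinearMap.congr_fun hgf (Submodule.Quotient.mk ⟨bas R M q, e_mem hq⟩)
        rw [LinearMap.comp_apply] at this
        rw [this, toM_mk, can_e]
      · obtain ⟨i, -, rfl⟩ := Finset.mem_image.1 hq
        rw [hN]
    · simp
    · intro x y _ _ hx hy
      rw [map_add, map_add, map_add, hx, hy]
    · intro r x _ hx
      rw [map_smul, map_smul, map_smul, hx]
  have hIJ : I ⊆ J := Finset.subset_union_left
  refine ⟨J, LinearMap.ker Ψ ⊓ Sp R J, hIJ, ?_, inf_le_right, ?_, ?_⟩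
  · intro z hz
    refine ⟨?_, Sp_mono hIJ (h1 hz)⟩
    rw [SetLike.mem_coe, LinearMap.mem_ker, hind' z (h1 hz) (h1 hz)]
    have : (Submodule.Quotient.mk ⟨z, h1 hz⟩ : Gm I L) = 0 := by
      rw [Submodule.Quotient.mk_eq_zero]
      exact hz
    rw [this, map_zero]
  · rintro z ⟨hz, hz'⟩
    rw [SetLike.mem_coe, LinearMap.mem_ker] at hz
    rw [LinearMap.mem_ker, ← hg z hz', hz, map_zero]
  · set Θ : Sp R J →ₗ[R] N' := Ψ ∘ₗ (Sp R J).subtype with hΘ
    have hsurj : Function.Surjective Θ := by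
      rw [← LinearMap.range_eq_top, ← top_le_iff, ← hc, Submodule.span_le]
      rintro _ ⟨i, rfl⟩
      refine ⟨⟨bas R M (nw i), e_mem ?_⟩, ?_⟩
      · exact Finset.mem_union_right _ (Finset.mem_image_of_mem _ (Finset.mem_univ _))
      · rw [hΘ, LinearMap.comp_apply, Submodule.subtype_apply, hΨs, hN]
    have hker : LinearMap.ker Θ = (LinearMap.ker Ψ ⊓ Sp R J).comap (Sp R J).subtype := by
      ext z
      simp [hΘ]
    exact hP N' _ ((Submodule.quotEquivOfEq _ _ hker.symm).trans
      (Θ.quotKerEquivOfSurjective hsurj)).symm hPN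

/-- the index set -/
abbrev Idx : Type u := {q : Finset (M × ℕ) × Submodule R (Fr R M) //
  q.2 ≤ Sp R q.1 ∧ q.2 ≤ LinearMap.ker (can (R := R) (M := M)) ∧ P (Gm q.1 q.2)}

/-- the modules of the system -/
abbrev Gi (i : Idx (R := R) (M := M) P) : Type u := Gm i.1.1 i.1.2

/-- the maps of the system -/
noncomputable def fi (i j : Idx (R := R) (M := M) P) (h : i ≤ j) : Gi P i →ₗ[R] Gi P j :=
  tr h.1 h.2

theorem fi_mk (i j : Idx (R := R) (M := M) P) (h : i ≤ j) (z : Sp R i.1.1) :
    fi P i j h (Submodule.Quotient.mk z) = Submodule.Quotient.mk (Submodule.inclusion (Sp_mono h.1) z) :=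
  rfl

theorem fi_ds : DirectedSystem (Gi (R := R) (M := M) P) fun i j h => fi P i j h := by
  refine ⟨?_, ?_⟩
  · intro i x
    obtain ⟨z, rfl⟩ := Submodule.Quotient.mk_surjective _ x
    rfl
  · intro k j i hij hjk x
    obtain ⟨z, rfl⟩ := Submodule.Quotient.mk_surjective _ x
    rfl

end Pool.Agent.K6.H47.GL.LZ

namespace Pool.Agent.K6.H47.GL

open LZ

theorem t_LZ : S_LZ.{u} := by
  classical
  intro R _ _ P hP M _ _ hM
  have hext := LZ.extend (R := R) (M := M) P hP hM
  have hne : Nonempty (Idx (R := R) (M := M) P) := by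
    obtain ⟨J, L', -, -, h3, h4, h5⟩ := hext ∅ ⊥ bot_le bot_le
    exact ⟨⟨(J, L'), h3, h4, h5⟩⟩
  have hdir : IsDirectedOrder (Idx (R := R) (M := M) P) := by
    refine ⟨fun i j => ?_⟩
    obtain ⟨J, L', h1, h2, h3, h4, h5⟩ := hext (i.1.1 ∪ j.1.1) (i.1.2 ⊔ j.1.2)
      (sup_le (i.2.1.trans (Sp_mono Finset.subset_union_left))
        (j.2.1.trans (Sp_mono Finset.subset_union_right)))
      (sup_le i.2.2.1 j.2.2.1)
    exact ⟨⟨(J, L'), h3, h4, h5⟩, ⟨Finset.subset_union_left.trans h1, le_sup_left.trans h2⟩,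
      ⟨Finset.subset_union_right.trans h1, le_sup_right.trans h2⟩⟩
  refine ⟨Idx (R := R) (M := M) P, inferInstance, hdir, hne, inferInstance, Gi P,
    fun i => inferInstance, fun i => inferInstance, fi P, fi_ds P, fun i => ⟨?_, i.2.2.2⟩, ?_⟩
  · change Module.Finite R (Gm i.1.1 i.1.2)
    infer_instance
  · let Φ := Module.DirectLimit.lift R (Idx (R := R) (M := M) P) (Gi P) (fi P)
      (fun i => (toM i.2.2.1 : Gm i.1.1 i.1.2 →ₗ[R] M)) (by
        intro i j h x
        obtain ⟨z, rfl⟩ := Submodule.Quotient.mk_surjective _ x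
        rfl)
    have hΦ : ∀ (i : Idx (R := R) (M := M) P) (z : Sp R i.1.1),
        Φ (Module.DirectLimit.of R _ (Gi P) (fi P) i (Submodule.Quotient.mk z)) = can (z : Fr R M) := by
      intro i z
      exact Module.DirectLimit.lift_of _ _ _
    refine ⟨LinearEquiv.ofBijective Φ ⟨?_, ?_⟩⟩
    · intro x y hxy
      obtain ⟨i, x', y', rfl, rfl⟩ := Module.DirectLimit.exists_of₂ x y
      obtain ⟨z, rfl⟩ := Submodule.Quotient.mk_surjective _ x'
      obtain ⟨w, rfl⟩ := Submodule.Quotient.mk_surjective _ y'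
      rw [hΦ, hΦ] at hxy
      have hzw : can ((z - w : Sp R i.1.1) : Fr R M) = 0 := by
        rw [Submodule.coe_sub, map_sub, hxy, sub_self]
      obtain ⟨J, L', h1, h2, h3, h4, h5⟩ := hext i.1.1
        (i.1.2 ⊔ Submodule.span R {((z - w : Sp R i.1.1) : Fr R M)})
        (sup_le i.2.1 (by rw [Submodule.span_singleton_le_iff_mem]; exact (z - w).2))
        (sup_le i.2.2.1 (by rw [Submodule.span_singleton_le_iff_mem]; exact hzw))
      have hij : i ≤ (⟨(J, L'), h3, h4, h5⟩ : Idx (R := R) (M := M) P) :=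
        ⟨h1, le_sup_left.trans h2⟩
      rw [← Module.DirectLimit.of_f (hij := hij), ← Module.DirectLimit.of_f (hij := hij)]
      congr 1
      rw [fi_mk, fi_mk, Submodule.Quotient.eq]
      exact h2 (Submodule.mem_sup_right (Submodule.mem_span_singleton_self _))
    · intro x
      obtain ⟨J, L', h1, h2, h3, h4, h5⟩ := hext {(x, 0)} ⊥ bot_le bot_le
      have hx : ((x, 0) : M × ℕ) ∈ J := h1 (Finset.mem_singleton_self _)
      refine ⟨Module.DirectLimit.of R _ (Gi P) (fi P) ⟨(J, L'), h3, h4, h5⟩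
        (Submodule.Quotient.mk ⟨bas R M (x, 0), e_mem hx⟩), ?_⟩
      rw [hΦ]
      exact can_e _

end Pool.Agent.K6.H47.GL
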