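import Pool.Agent.K6.H47.GL.Stm

/-!
# Assembly: the factorization theorem
-/

set_option autoImplicit false

open TensorProduct

universe u

namespace Pool.Agent.K6.H47.GL

section

variable {R : Type u} [CommRing R]

theorem wloc_Lw (w : Ideal R) [w.IsPrime] (X : Type u) [AddCommGroup X] [Module R X] :
    WLoc w (Lw w X) := by
  intro s hs
  have h := IsLocalizedModule.map_units (S := w.primeCompl)
    (LocalizedModule.mkLinearMap w.primeCompl X) ⟨s, hs⟩
  rw [Module.End.isUnit_iff] at h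
  exact h

theorem isLocalizedModule_of_wloc (w : Ideal R) [w.IsPrime] {X : Type u} [AddCommGroup X]
    [Module R X] (h : WLoc w X) :
    IsLocalizedModule w.primeCompl (LinearMap.id : X →ₗ[R] X) where
  map_units s := by
    rw [Module.End.isUnit_iff]
    exact h s.1 s.2
  surj x := ⟨(x, 1), by simp⟩
  exists_of_eq {a b} hab := ⟨1, by simpa using hab⟩

/-- local modules are their own localization -/
noncomputable def lwEquiv (w : Ideal R) [w.IsPrime] {X : Type u} [AddCommGroup X]
    [Module R X] (h : WLoc w X) : Lw w X ≃ₗ[R] X :=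
  haveI := isLocalizedModule_of_wloc w h
  IsLocalizedModule.linearEquiv w.primeCompl (LocalizedModule.mkLinearMap w.primeCompl X)
    (LinearMap.id : X →ₗ[R] X)

theorem Lmap_SES (w : Ideal R) [w.IsPrime] {X Y Z : Type u} [AddCommGroup X] [Module R X]
    [AddCommGroup Y] [Module R Y] [AddCommGroup Z] [Module R Z] {f : X →ₗ[R] Y} {g : Y →ₗ[R] Z}
    (h : SES f g) : SES (Lmap w f) (Lmap w g) where
  inj := IsLocalizedModule.map_injective w.primeCompl _ _ f h.inj
  exact := IsLocalizedModule.map_exact w.primeCompl _ _ _ f g h.exact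
  surj := IsLocalizedModule.map_surjective w.primeCompl _ _ g h.surj

theorem ExAt.killAt {C : FlatRes R} {X : Type u} [AddCommGroup X] [Module R X] {p : ℕ}
    (h : ExAt C X p) : KillAt C X 1 p := by
  intro z hz
  rw [one_smul]
  exact h z hz

theorem exAt_congr (hIS : S_IS.{u}) {C : FlatRes R} {p : ℕ} (hp : p < C.m) {X Y : Type u}
    [AddCommGroup X] [Module R X] [AddCommGroup Y] [Module R Y] (e : X ≃ₗ[R] Y)
    (h : ExAt C Y p) : ExAt C X p :=
  (hIS R C p hp).2.2.1 X Y e.toLinearMap e.symm.toLinearMap (by ext; simp) h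

theorem rfd_congr (hIS : S_IS.{u}) {n : ℕ} {X Y : Type u}
    [AddCommGroup X] [Module R X] [AddCommGroup Y] [Module R Y] (e : X ≃ₗ[R] Y)
    (h : RfdLE R n Y) : RfdLE R n X :=
  fun C p hp => exAt_congr hIS (by omega) e (h C p hp)

theorem rfd_Lw (hLG : S_LG.{u}) {n : ℕ} {M : Type u} [AddCommGroup M] [Module R M]
    (h : RfdLE R n M) (q : Ideal R) [q.IsPrime] : RfdLE R n (Lw q M) :=
  fun C p hp => (hLG R C p M (by omega)).2.1 q (h C p hp)

theorem rfd_of_Lw (hLG : S_LG.{u}) {n : ℕ} {M : Type u} [AddCommGroup M] [Module R M]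
    (h : ∀ (q : Ideal R) [q.IsPrime], RfdLE R n (Lw q M)) : RfdLE R n M :=
  fun C p hp => (hLG R C p M (by omega)).1 fun q _ => h q C p hp

theorem cond_of_rfd (hWI : S_WI.{u}) (hBR : S_BR.{u}) {n : ℕ} {M : Type u} [AddCommGroup M]
    [Module R M] (h : RfdLE R n M) (w : Ideal R) [w.IsPrime] : Cond n w M := by
  intro r y hy t ht p hp
  obtain ⟨C, hC, hC2⟩ := hBR R r y w t ht
  have h1 := hC2 p (by omega) 1 M (h C p (by omega)).killAt
  exact ((hWI R r y (Lw w M) (Lw w M)).2.2.2.1 p).2 h1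

theorem wlt_congr (hWI : S_WI.{u}) {r : ℕ} (y : Fin r → R) {e : ℕ} {X Y : Type u}
    [AddCommGroup X] [Module R X] [AddCommGroup Y] [Module R Y] (f : X ≃ₗ[R] Y)
    (h : Wlt y e X) : Wlt y e Y :=
  fun p hp => ((hWI R r y X Y).2.2.2.2 f).1 p (h p hp)

theorem cond_of_rfd_Lw (hWI : S_WI.{u}) (hBR : S_BR.{u}) {n : ℕ} {M : Type u} [AddCommGroup M]
    [Module R M] (w : Ideal R) [w.IsPrime] (h : RfdLE R n (Lw w M)) : Cond n w M := by
  intro r y hy t ht p hp
  have h1 := cond_of_rfd hWI hBR h w r y hy t ht p hp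
  exact ((hWI R r y _ _).2.2.2.2 (lwEquiv w (wloc_Lw w M))).1 p h1

end

theorem exists_gens {R : Type u} [CommRing R] [IsNoetherianRing R] (w : Ideal R) :
    ∃ (r : ℕ) (y : Fin r → R), Ideal.span (Set.range y) = w := by
  obtain ⟨r, y, hy⟩ := Submodule.fg_iff_exists_fin_generating_family.1
    (IsNoetherian.noetherian w)
  exact ⟨r, y, hy⟩

theorem wf_primes {R : Type u} [CommRing R] [IsNoetherianRing R] :
    WellFoundedLT (PrimeSpectrum R) := by
  constructor
  refine Subrelation.wf (r := InvImage (· < ·) fun P : PrimeSpectrum R => P.asIdeal.height) ?_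
    (InvImage.wf _ wellFounded_lt)
  intro P Q hPQ
  exact Ideal.height_strict_mono_of_isPrime_of_isPrime hPQ

/-- improving the depth at a minimal prime `w` of the bad locus -/
theorem improve (hCH : S_CH.{u}) (hIS : S_IS.{u}) (hWI : S_WI.{u}) (hBR : S_BR.{u})
    (hUA : S_UA.{u}) (hFG : S_FG.{u}) (hKK : S_KK.{u}) (hGL : S_GL.{u})
    (hG0 : S_G0.{u}) {R : Type u} [CommRing R] [IsNoetherianRing R] {n : ℕ} {M : Type u}
    [AddCommGroup M] [Module R M] (hM : RfdLE R n M) (I w : Ideal R) [w.IsPrime]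
    (hw : w ∈ I.minimalPrimes) (r : ℕ) (y : Fin r → R) (hy : Ideal.span (Set.range y) = w) (t : ℕ)
    (ht : Wlt y t (Lw w R)) (j : ℕ) (hj : j + n ≤ t) :
    ∀ (N : Type u) [AddCommGroup N] [Module R N] [Module.Finite R N] (φ : N →ₗ[R] M),
    (∀ (q : Ideal R) [q.IsPrime], ¬ I ≤ q → RfdLE R n (Lw q N)) →
    ∃ (N' : Type u) (_ : AddCommGroup N') (_ : Module R N') (_ : Module.Finite R N')
      (f : N →ₗ[R] N') (g : N' →ₗ[R] M), g ∘ₗ f = φ ∧
      (∀ (q : Ideal R) [q.IsPrime], ¬ I ≤ q → RfdLE R n (Lw q N')) ∧ Wlt y j (Lw w N') := by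
  have hIw : I ≤ w := hw.1.2
  have hlt : ∀ (q : Ideal R) [q.IsPrime], q < w → ¬ I ≤ q := by
    intro q hq hqw hIq
    exact absurd (hw.2 ⟨hq, hIq⟩ hqw.le) (not_le_of_gt hqw)
  induction j with
  | zero =>
    intro N _ _ _ φ hN
    exact ⟨N, _, _, inferInstance, LinearMap.id, φ, LinearMap.comp_id φ, hN,
      fun p hp => absurd hp (Nat.not_lt_zero p)⟩
  | succ j ih =>
    intro N _ _ _ φ hN
    obtain ⟨N1, _, _, _, f1, φ1, h1, hN1, hW1⟩ := ih (by omega) N φ hN
    have hMw : Wlt y (j + 1) (Lw w M) := fun p hp =>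
      cond_of_rfd hWI hBR hM w r y hy t ht p (by omega)
    obtain ⟨C, hC, hC2⟩ := hBR R r y w t ht
    obtain ⟨s, hs⟩ := hUA R n w N1 (fun q _ hq => hN1 q (hlt q hq)) C j (by omega)
    have hG : ∃ s : ℕ, ∀ a ∈ w ^ s, GKill y j a (Lw w N1) := by
      refine ⟨s, fun a ha => ?_⟩
      have h2 := hC2 j (by omega) a (Lw w N1) (hs a ha)
      exact ((hWI R r y _ _).2.2.2.2 (lwEquiv w (wloc_Lw w N1))).2.1 j a h2
    have hTF : TF y w j (Lw w N1) := hFG R r y w hy j N1 hW1 hG
    by_cases hj0 : j = 0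
    · subst hj0
      obtain ⟨K, hK1, ⟨s', hK2⟩, hK3⟩ := hG0 R r y w hy N1 M φ1 (hMw 0 (by omega))
      refine ⟨N1 ⧸ K, inferInstance, inferInstance, inferInstance, K.mkQ ∘ₗ f1,
        K.liftQ φ1 hK1, ?_, ?_, ?_⟩
      · rw [← LinearMap.comp_assoc, Submodule.liftQ_mkQ, h1]
      · intro q _ hIq
        have hwq : ¬ w ^ s' ≤ q := fun h => hIq (hIw.trans (Ideal.IsPrime.le_of_pow_le h))
        obtain ⟨a, ha, haq⟩ := Set.not_subset.1 hwq
        have hbij : Function.Bijective (Lmap q K.mkQ) := by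
          constructor
          · rw [← LinearMap.ker_eq_bot, LinearMap.ker_eq_bot']
            intro m hm
            obtain ⟨⟨x, c⟩, hx⟩ := IsLocalizedModule.mk'_surjective q.primeCompl
              (LocalizedModule.mkLinearMap q.primeCompl N1) m
            rw [Function.uncurry_apply_pair] at hx
            subst hx
            rw [IsLocalizedModule.map_mk', IsLocalizedModule.mk'_eq_zero'] at hm
            obtain ⟨d, hd⟩ := hm
            have h3 : d • x ∈ K := by
              rw [← Submodule.Quotient.mk_eq_zero]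
              exact hd
            rw [IsLocalizedModule.mk'_eq_zero']
            refine ⟨⟨a, haq⟩ * d, ?_⟩
            rw [mul_smul]
            exact hK2 a ha _ h3
          · exact IsLocalizedModule.map_surjective q.primeCompl _ _ _ K.mkQ_surjective
        exact rfd_congr hIS (LinearEquiv.ofBijective _ hbij).symm (hN1 q hIq)
      · intro p hp
        have : p = 0 := by omega
        subst this
        exact hK3
    · obtain ⟨D, _, _, _, X', _, _, i, π, hOff, hX', hSES, hW', hext⟩ :=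
        hKK R r y w hy t ht j (by omega) (by omega) (Lw w N1) (wloc_Lw w N1) hW1 hTF
      obtain ⟨φ', hφ'⟩ := hext (Lw w M) (wloc_Lw w M) hMw (Lmap w φ1)
      obtain ⟨N', _, _, _, ι, ρ, ψ, hS, hψ, ⟨e⟩⟩ := hGL R w N1 D M X' hX' i π hSES φ1 φ' hφ'
      refine ⟨N', inferInstance, inferInstance, inferInstance, ι ∘ₗ f1, ψ, ?_, ?_, ?_⟩
      · rw [← LinearMap.comp_assoc, hψ, h1]
      · intro q _ hIq C' p hp
        have hwq : ¬ w ≤ q := fun h => hIq (hIw.trans h)
        exact (hCH R C' _ _ _ _ _ (Lmap_SES q hS)).1 p (by omega) (hN1 q hIq C' p hp)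
          (hOff q hwq C' p (by omega))
      · exact wlt_congr hWI y e hW'

theorem fact (hCH : S_CH.{u}) (hIS : S_IS.{u}) (hWI : S_WI.{u}) (hBR : S_BR.{u})
    (hLG : S_LG.{u}) (hUA : S_UA.{u}) (hFG : S_FG.{u}) (hKK : S_KK.{u}) (hGL : S_GL.{u})
    (hG0 : S_G0.{u}) (hFD : S_FD.{u}) (hBB : S_BB.{u}) (hOP : S_OP.{u}) {R : Type u} [CommRing R]
    [IsNoetherianRing R] {n : ℕ} {M : Type u} [AddCommGroup M] [Module R M] (hM : RfdLE R n M)
    (I : Ideal R) :
    ∀ (N : Type u) [AddCommGroup N] [Module R N] [Module.Finite R N] (φ : N →ₗ[R] M),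
    (∀ (q : Ideal R) [q.IsPrime], ¬ I ≤ q → RfdLE R n (Lw q N)) →
    ∃ (N' : Type u) (_ : AddCommGroup N') (_ : Module R N') (_ : Module.Finite R N')
      (f : N →ₗ[R] N') (g : N' →ₗ[R] M), RfdLE R n N' ∧ g ∘ₗ f = φ := by
  induction I using IsNoetherian.induction with
  | hgt I ih =>
    intro N _ _ _ φ hN
    by_cases hI : I = ⊤
    · refine ⟨N, inferInstance, inferInstance, inferInstance, LinearMap.id, φ,
        rfd_of_Lw hLG fun q hq => hN q ?_, LinearMap.comp_id φ⟩
      rw [hI]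
      exact fun h => hq.ne_top (top_le_iff.1 h)
    · obtain ⟨w, hw⟩ := Ideal.nonempty_minimalPrimes hI
      have : w.IsPrime := hw.1.1
      obtain ⟨r, y, hy⟩ := exists_gens w
      obtain ⟨t, ht, ht'⟩ := hFD R r y w hy
      obtain ⟨N1, _, _, _, f1, φ1, h1, hN1, hW1⟩ :
          ∃ (N' : Type u) (_ : AddCommGroup N') (_ : Module R N') (_ : Module.Finite R N')
            (f : N →ₗ[R] N') (g : N' →ₗ[R] M), g ∘ₗ f = φ ∧
            (∀ (q : Ideal R) [q.IsPrime], ¬ I ≤ q → RfdLE R n (Lw q N')) ∧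
            (∀ p, p + n < t → W y p (Lw w N')) := by
        by_cases hnt : n ≤ t
        · obtain ⟨N', a1, a2, a3, f, g, h1, h2, h3⟩ := improve hCH hIS hWI hBR hUA hFG hKK hGL hG0
            hM I w hw r y hy t ht (t - n) (by omega) N φ hN
          exact ⟨N', a1, a2, a3, f, g, h1, h2, fun p hp => h3 p (by omega)⟩
        · exact ⟨N, _, _, inferInstance, LinearMap.id, φ, LinearMap.comp_id φ, hN,
            fun p hp => absurd hp (by omega)⟩
      have hIw : I ≤ w := hw.1.2
      have hlt : ∀ (q : Ideal R) [q.IsPrime], q < w → ¬ I ≤ q := by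
        intro q hq hqw hIq
        exact absurd (hw.2 ⟨hq, hIq⟩ hqw.le) (not_le_of_gt hqw)
      have hgood : RfdLE R n (Lw w N1) :=
        hBB R n w N1 (fun q _ hq => hN1 q (hlt q hq)) r y hy t ht ht' hW1
      obtain ⟨s, hs, hs'⟩ := hOP R n w N1 (cond_of_rfd_Lw hWI hBR w hgood)
      -- an element outside `w` that selects the component `w` of `V(I)`
      obtain ⟨a, ha, ha'⟩ : ∃ a ∉ w, ∀ (q : Ideal R) [q.IsPrime], I ≤ q → a ∉ q → w ≤ q := by
        have hfin := Ideal.finite_minimalPrimes_of_isNoetherianRing R I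
        have h2 : ¬ (hfin.toFinset.erase w).inf id ≤ w := by
          intro h
          rw [Ideal.IsPrime.inf_le' (hp := inferInstance)] at h
          obtain ⟨v, hv, hvw⟩ := h
          rw [Finset.mem_erase, Set.Finite.mem_toFinset] at hv
          exact hv.1 (le_antisymm hvw (hw.2 ⟨hv.2.1.1, hv.2.1.2⟩ hvw))
        obtain ⟨a, ha1, ha2⟩ := Set.not_subset.1 h2
        refine ⟨a, ha2, fun q hq hIq haq => ?_⟩
        obtain ⟨v, hv, hvq⟩ := Ideal.exists_minimalPrimes_le hIq
        by_cases hvw : v = w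
        · rw [← hvw]
          exact hvq
        · exfalso
          apply haq
          apply hvq
          have h3 : (hfin.toFinset.erase w).inf id ≤ v := by
            have : v ∈ hfin.toFinset.erase w := by
              rw [Finset.mem_erase, Set.Finite.mem_toFinset]
              exact ⟨hvw, hv⟩
            exact Finset.inf_le (f := id) this
          exact h3 ha1
      have hnew : I < I ⊔ Ideal.span {s * a} := by
        refine lt_of_le_of_ne le_sup_left fun h => ?_
        have h2 : s * a ∈ I := by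
          rw [h]
          exact Ideal.mem_sup_right (Ideal.mem_span_singleton_self _)
        rcases (inferInstance : w.IsPrime).mem_or_mem (hIw h2) with h3 | h3
        · exact hs h3
        · exact ha h3
      have hN2 : ∀ (q : Ideal R) [q.IsPrime], ¬ I ⊔ Ideal.span {s * a} ≤ q →
          RfdLE R n (Lw q N1) := by
        intro q hq
        -- induction on the prime `q`
        have key : ∀ P : PrimeSpectrum R, ¬ I ⊔ Ideal.span {s * a} ≤ P.asIdeal →
            RfdLE R n (Lw P.asIdeal N1) := by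
          intro P
          have := wf_primes (R := R)
          induction P using WellFoundedLT.induction with
          | ind P ihP =>
            intro hP
            by_cases hIP : I ≤ P.asIdeal
            · have hsa : s * a ∉ P.asIdeal := fun h =>
                hP (sup_le hIP ((Ideal.span_singleton_le_iff_mem _).2 h))
              have hsP : s ∉ P.asIdeal := fun h => hsa (P.asIdeal.mul_mem_right a h)
              have haP : a ∉ P.asIdeal := fun h => hsa (P.asIdeal.mul_mem_left s h)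
              have hwP : w ≤ P.asIdeal := ha' P.asIdeal hIP haP
              have hc := hs' P.asIdeal hwP hsP
              obtain ⟨r', y', hy'⟩ := exists_gens P.asIdeal
              obtain ⟨t', ht1, ht2⟩ := hFD R r' y' P.asIdeal hy'
              refine hBB R n P.asIdeal N1 (fun q' hq' hq'P => ?_) r' y' hy' t' ht1 ht2
                (hc r' y' hy' t' ht1)
              exact ihP ⟨q', hq'⟩ hq'P fun h => hP (h.trans hq'P.le)
            · exact hN1 P.asIdeal hIP
        exact key ⟨q, hq⟩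
      obtain ⟨N', b1, b2, b3, f, g, h4, h5⟩ := ih (I ⊔ Ideal.span {s * a}) hnew N1 φ1 hN2
      refine ⟨N', b1, b2, b3, f ∘ₗ f1, g, h4, ?_⟩
      rw [← LinearMap.comp_assoc, h5, h1]

theorem t_MN (hCH : S_CH.{u}) (hIS : S_IS.{u}) (hWI : S_WI.{u}) (hBR : S_BR.{u})
    (hLG : S_LG.{u}) (hUA : S_UA.{u}) (hFG : S_FG.{u}) (hKK : S_KK.{u}) (hGL : S_GL.{u})
    (hG0 : S_G0.{u}) (hFD : S_FD.{u}) (hBB : S_BB.{u}) (hOP : S_OP.{u}) : S_MN.{u} := by
  intro R _ _ n M _ _ hM N _ _ _ φ
  exact fact hCH hIS hWI hBR hLG hUA hFG hKK hGL hG0 hFD hBB hOP hM ⊥ N φ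
    fun q _ h => absurd bot_le h

end Pool.Agent.K6.H47.GL
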