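import Pool.Agent.K6.H47.GL.CH
import Pool.Agent.K6.H47.GL.PIS
import Pool.Agent.K6.H47.GL.StmTor

/-!
# TB: comparison with the Tor functor (helper93 for helper47)
-/

set_option autoImplicit false

open TensorProduct CategoryTheory CategoryTheory.Limits

universe u

namespace Pool.Agent.K6.H47.GL

namespace TbP

variable {R : Type u} [CommRing R]

section syz

variable {X Y Z : Type u} [AddCommGroup X] [Module R X] [AddCommGroup Y] [Module R Y]
    [AddCommGroup Z] [Module R Z]

/-- dimension shifting for `ExAt` -/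
theorem shift (h1 : S_CH.{u}) (h2 : S_IS.{u}) (C : FlatRes R) {f : X →ₗ[R] Y} {g : Y →ₗ[R] Z}
    (h : SES f g) (hY : Module.Flat R Y) (p : ℕ) (hp : p + 1 < C.m) :
    ExAt C Z p ↔ ExAt C X (p + 1) := by
  obtain ⟨-, hb, hc⟩ := h1 R C X Y Z f g h
  have hY0 : ExAt C Y p := (h2 R C p (by omega)).1 Y hY
  have hY1 : ExAt C Y (p + 1) := (h2 R C (p + 1) hp).1 Y hY
  constructor
  · intro hZ
    refine hb (p + 1) hp hY1 ?_
    intro q hq
    obtain rfl : q = p := by omega
    exact hZ
  · intro hX
    exact hc p hp hY0 hX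

/-- a submodule of a flat module -/
theorem zero (h1 : S_CH.{u}) (h2 : S_IS.{u}) (C : FlatRes R) {f : X →ₗ[R] Y} {g : Y →ₗ[R] Z}
    (h : SES f g) (hY : Module.Flat R Y) (hm : 0 < C.m) : ExAt C X 0 := by
  obtain ⟨-, hb, -⟩ := h1 R C X Y Z f g h
  exact hb 0 hm ((h2 R C 0 hm).1 Y hY) (fun q hq => by omega)

end syz

section last

variable {X Y Z : Type u} [AddCommGroup X] [Module R X] [AddCommGroup Y] [Module R Y]
    [AddCommGroup Z] [Module R Z]

/-- the first Tor -/
theorem last (h2 : S_IS.{u}) {F' : Type u} [AddCommGroup F'] [Module R F']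
    (C : FlatRes R) (m' : ℕ) (hm : m' < C.m) (π : C.F (m' + 1) →ₗ[R] F')
    (hπ : Function.Exact (C.δ m') π) (hπs : Function.Surjective π)
    {f : X →ₗ[R] Y} {g : Y →ₗ[R] Z} (h : SES f g) (hY : Module.Flat R Y) :
    Function.Injective (f.lTensor F') ↔ ExAt C Z m' := by
  have rx : ∀ (V : Type u) [AddCommGroup V] [Module R V],
      Function.Exact ((C.δ m').rTensor V) (π.rTensor V) := fun V _ _ => rTensor_exact V hπ hπs
  have comm : ∀ x : C.F (m' + 1) ⊗[R] X,
      π.rTensor Y (f.lTensor (C.F (m' + 1)) x) = f.lTensor F' (π.rTensor X x) := by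
    intro x
    rw [← LinearMap.comp_apply, ← LinearMap.comp_apply, LinearMap.rTensor_comp_lTensor,
      LinearMap.lTensor_comp_rTensor]
  constructor
  · intro hinj z hz
    obtain ⟨y, rfl⟩ := ch_surj C h m' z
    rw [ch_comm] at hz
    obtain ⟨x, hx⟩ := ch_ker C h (m' + 1) _ hz
    have h3 : π.rTensor X x = 0 := by
      apply hinj
      rw [← comm, hx, map_zero]
      exact (rx Y _).2 ⟨y, rfl⟩
    obtain ⟨x', rfl⟩ := (rx X x).1 h3
    have h4 : Bd C Y m' (y - f.lTensor (C.F m') x') := by
      apply (h2 R C m' hm).1 Y hY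
      rw [map_sub, ch_comm, hx, sub_self]
    have h5 := IsP.bd_map C g m' _ h4
    rwa [map_sub, ch_gf C h, sub_zero] at h5
  · intro hex
    rw [injective_iff_map_eq_zero]
    intro t ht
    obtain ⟨x, rfl⟩ := LinearMap.rTensor_surjective X hπs t
    rw [← comm] at ht
    obtain ⟨y, hy⟩ := (rx Y _).1 ht
    have h3 : (C.δ m').rTensor Z (g.lTensor (C.F m') y) = 0 := by
      rw [ch_comm, hy, ch_gf C h]
    have h4 := hex _ h3
    have key : ∃ x' : C.F m' ⊗[R] X, (C.δ m').rTensor X x' = x := by
      cases m' with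
      | zero =>
        obtain ⟨x', hx'⟩ := ch_ker C h 0 y h4
        refine ⟨x', ?_⟩
        apply ch_inj C h.inj
        rw [← ch_comm, hx', hy]
      | succ q =>
        obtain ⟨v', hv'⟩ := h4
        obtain ⟨v, rfl⟩ := ch_surj C h q v'
        rw [ch_comm] at hv'
        obtain ⟨x', hx'⟩ := ch_ker C h (q + 1) (y - (C.δ q).rTensor Y v)
          (by rw [map_sub, hv', sub_self])
        refine ⟨x', ?_⟩
        apply ch_inj C h.inj
        rw [← ch_comm, hx', map_sub, hy, ch_dd C q hm, sub_zero]
    obtain ⟨x', rfl⟩ := key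
    exact (rx X _).2 ⟨x', rfl⟩

end last

section res

/-- syzygies and exactness of a tensored resolution -/
theorem syzTensor (T : Type u) [AddCommGroup T] [Module R T] {A B D : Type u} [AddCommGroup A]
    [Module R A] [AddCommGroup B] [Module R B] [AddCommGroup D] [Module R D]
    (d1 : A →ₗ[R] B) (d0 : B →ₗ[R] D) (h : Function.Exact d1 d0) :
    Function.Exact (d1.lTensor T) (d0.lTensor T) ↔
      Function.Injective ((LinearMap.range d0).subtype.lTensor T) := by
  have hfac : (LinearMap.range d0).subtype ∘ₗ d0.rangeRestrict = d0 := by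
    ext x; rfl
  have hx : Function.Exact d1 d0.rangeRestrict := by
    intro x
    rw [← h x]
    constructor
    · intro hx
      have := congrArg Subtype.val hx
      exact this
    · intro hx
      exact Subtype.ext hx
  have hs : Function.Surjective d0.rangeRestrict := d0.surjective_rangeRestrict
  have rx := lTensor_exact T hx hs
  have hc : ∀ z, (LinearMap.range d0).subtype.lTensor T (d0.rangeRestrict.lTensor T z) =
      d0.lTensor T z := by
    intro z
    rw [← LinearMap.comp_apply, ← LinearMap.lTensor_comp, hfac]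
  constructor
  · intro hex
    rw [injective_iff_map_eq_zero]
    intro t ht
    obtain ⟨w, rfl⟩ := LinearMap.lTensor_surjective T hs t
    rw [hc] at ht
    obtain ⟨v, rfl⟩ := (hex w).1 ht
    exact (rx _).2 ⟨v, rfl⟩
  · intro hinj z
    rw [← rx z, ← hc]
    constructor
    · intro hz
      exact hinj (by rw [hz, map_zero])
    · intro hz
      rw [hz, map_zero]

theorem lastT (h2 : S_IS.{u}) (C : FlatRes R) (m' : ℕ) (hm : C.m = m' + 1) {X Y Z : Type u}
    [AddCommGroup X] [Module R X] [AddCommGroup Y] [Module R Y] [AddCommGroup Z] [Module R Z]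
    {f : X →ₗ[R] Y} {g : Y →ₗ[R] Z} (h : SES f g) (hY : Module.Flat R Y) :
    Function.Injective (f.lTensor C.T) ↔ ExAt C Z m' := by
  rcases C with ⟨m, F, flat, δ, inj, exact⟩
  have hm2 : m = m' + 1 := hm
  subst hm2
  have hex : Function.Exact (δ m') (Submodule.mkQ (LinearMap.range (δ m'))) := by
    intro x
    rw [Submodule.mkQ_apply, Submodule.Quotient.mk_eq_zero]
    exact Iff.rfl
  exact last h2 _ m' (Nat.lt_succ_self m') (Submodule.mkQ (LinearMap.range (δ m')))
    hex (Submodule.mkQ_surjective _) h hY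

theorem flatT (C : FlatRes R) (hm : C.m = 0) : Module.Flat R C.T := by
  rcases C with ⟨m, F, flat, δ, inj, exact⟩
  have hm2 : m = 0 := hm
  subst hm2
  have h0 := flat 0
  exact Module.Flat.of_linearEquiv (Submodule.quotEquivOfEqBot (⊥ : Submodule R (F 0)) rfl)

/-- the comparison for a flat resolution of `M` -/
theorem main (h1 : S_CH.{u}) (h2 : S_IS.{u}) (C : FlatRes R) (M : Type u) [AddCommGroup M]
    [Module R M] (Q : ℕ → Type u) [∀ n, AddCommGroup (Q n)] [∀ n, Module R (Q n)]
    (hQ : ∀ n, Module.Flat R (Q n)) (d : ∀ n, Q (n + 1) →ₗ[R] Q n) (ε : Q 0 →ₗ[R] M)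
    (hd : ∀ n, Function.Exact (d (n + 1)) (d n)) (hε : Function.Exact (d 0) ε)
    (hs : Function.Surjective ε) (n : ℕ) :
    (n + 1 ≤ C.m → (Function.Exact ((d (n + 1)).lTensor C.T) ((d n).lTensor C.T) ↔
      ExAt C M (C.m - (n + 1)))) ∧
    (C.m < n + 1 → Function.Exact ((d (n + 1)).lTensor C.T) ((d n).lTensor C.T)) := by
  have ses0 : SES (LinearMap.range (d 0)).subtype ε := by
    refine ⟨Submodule.subtype_injective _, ?_, hs⟩
    intro x
    rw [hε x]
    exact ⟨fun ⟨y, hy⟩ => ⟨⟨x, ⟨y, hy⟩⟩, rfl⟩, fun ⟨y, hy⟩ => hy ▸ y.2⟩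
  have ses1 : ∀ k, SES (LinearMap.range (d (k + 1))).subtype (d k).rangeRestrict := by
    intro k
    refine ⟨Submodule.subtype_injective _, ?_, (d k).surjective_rangeRestrict⟩
    intro x
    have e : (d k).rangeRestrict x = 0 ↔ d k x = 0 :=
      ⟨fun hx => congrArg Subtype.val hx, fun hx => Subtype.ext hx⟩
    rw [e, hd k x]
    exact ⟨fun ⟨y, hy⟩ => ⟨⟨x, ⟨y, hy⟩⟩, rfl⟩, fun ⟨y, hy⟩ => hy ▸ y.2⟩
  have up : ∀ k p, p + k < C.m →
      (ExAt C (LinearMap.range (d 0)) p ↔ ExAt C (LinearMap.range (d k)) (p + k)) := by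
    intro k
    induction k with
    | zero => intro p _; exact Iff.rfl
    | succ k ih =>
      intro p hp
      rw [ih p (by omega)]
      exact shift h1 h2 C (ses1 k) (hQ (k + 1)) (p + k) (by omega)
  have hi : ∀ k j, k < C.m → ExAt C (LinearMap.range (d (j + k))) k := by
    intro k
    induction k with
    | zero =>
      intro j hj
      have hses : SES (LinearMap.range (d j)).subtype (Submodule.mkQ (LinearMap.range (d j))) :=
        ⟨Submodule.subtype_injective _, LinearMap.exact_subtype_mkQ _,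
          Submodule.mkQ_surjective _⟩
      exact zero h1 h2 C hses (hQ j) hj
    | succ k ih =>
      intro j hj
      exact (shift h1 h2 C (ses1 (j + k)) (hQ (j + k + 1)) k (by omega)).1 (ih j (by omega))
  rw [syzTensor C.T _ _ (hd n)]
  have hfl : C.m = 0 → Function.Injective ((LinearMap.range (d n)).subtype.lTensor C.T) := by
    intro h0
    have := flatT C h0
    exact Module.Flat.lTensor_preserves_injective_linearMap _ (Submodule.subtype_injective _)
  cases n with
  | zero =>
    refine ⟨fun hm => ?_, fun hm => hfl (by omega)⟩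
    have e : C.m = (C.m - (0 + 1)) + 1 := by omega
    exact lastT h2 C _ e ses0 (hQ 0)
  | succ k =>
    constructor
    · intro hm
      have e : C.m = (C.m - 1) + 1 := by omega
      rw [lastT h2 C _ e (ses1 k) (hQ (k + 1))]
      have e2 : C.m - 1 = (C.m - (k + 1 + 1) + 1) + k := by omega
      rw [e2, ← up k _ (by omega)]
      exact (shift h1 h2 C ses0 (hQ 0) _ (by omega)).symm
    · intro hm
      rcases Nat.eq_zero_or_pos C.m with h0 | h0
      · exact hfl h0
      · have e : C.m = (C.m - 1) + 1 := by omega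
        rw [lastT h2 C _ e (ses1 k) (hQ (k + 1))]
        obtain ⟨j, hj⟩ : ∃ j, k = j + (C.m - 1) := ⟨k - (C.m - 1), by omega⟩
        have := hi (C.m - 1) j (by omega)
        rw [← hj] at this
        exact this

end res

section cat

theorem torIff (T M : ModuleCat.{u} R) (P : ProjectiveResolution M) (n : ℕ) :
    IsZero (((Tor (ModuleCat.{u} R) (n + 1)).obj T).obj M) ↔
      Function.Exact ((P.complex.d (n + 2) (n + 1)).hom.lTensor T)
        ((P.complex.d (n + 1) n).hom.lTensor T) := by
  have e := P.isoLeftDerivedObj ((MonoidalCategory.tensoringLeft (ModuleCat.{u} R)).obj T) (n + 1)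
  refine e.isZero_iff.trans ?_
  refine (HomologicalComplex.exactAt_iff_isZero_homology _ _).symm.trans ?_
  refine (HomologicalComplex.exactAt_iff' _ (n + 2) (n + 1) n (by simp) (by simp)).trans ?_
  exact ShortComplex.ShortExact.moduleCat_exact_iff_function_exact _

theorem catEx (M : ModuleCat.{u} R) (P : ProjectiveResolution M) (n : ℕ) :
    Function.Exact (P.complex.d (n + 2) (n + 1)).hom (P.complex.d (n + 1) n).hom :=
  (ShortComplex.ShortExact.moduleCat_exact_iff_function_exact _).1 (P.exact_succ n)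

theorem catEx0 (M : ModuleCat.{u} R) (P : ProjectiveResolution M) :
    Function.Exact (P.complex.d 1 0).hom (P.π.f 0).hom :=
  (ShortComplex.ShortExact.moduleCat_exact_iff_function_exact _).1 P.exact₀

theorem catSurj (M : ModuleCat.{u} R) (P : ProjectiveResolution M) :
    Function.Surjective (P.π.f 0).hom :=
  (ModuleCat.epi_iff_surjective (P.π.f 0)).1 inferInstance

theorem catFlat (M : ModuleCat.{u} R) (P : ProjectiveResolution M) (n : ℕ) :
    Module.Flat R (P.complex.X n) := by
  have h : Projective (P.complex.X n) := P.projective n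
  have h' : Module.Projective R (P.complex.X n) := inferInstance
  exact Module.Flat.of_projective

end cat

end TbP

/-- piece TB -/
theorem t_TB (h1 : S_CH.{u}) (h2 : S_IS.{u}) : S_TB.{u} := by
  intro R _ C M _ _ i
  obtain ⟨P⟩ := (inferInstance : HasProjectiveResolution (ModuleCat.of R M)).out
  cases i with
  | zero => exact ⟨fun h => absurd h (by omega), fun h => absurd h (by omega)⟩
  | succ n =>
    have key := TbP.main h1 h2 C M (fun k => P.complex.X k) (TbP.catFlat _ P)
      (fun k => (P.complex.d (k + 1) k).hom) (P.π.f 0).hom (TbP.catEx _ P) (TbP.catEx0 _ P)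
      (TbP.catSurj _ P) n
    have tor := TbP.torIff (ModuleCat.of R C.T) (ModuleCat.of R M) P n
    exact ⟨fun _ hi => tor.trans (key.1 hi), fun hi => tor.2 (key.2 hi)⟩

end Pool.Agent.K6.H47.GL
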