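import Pool.Agent.K6.H47.GL.Defs

/-!
# Statements of the pieces
-/

set_option autoImplicit false

open TensorProduct

universe u

namespace Pool.Agent.K6.H47.GL

/-- CH: chase lemmas for `F ⊗ X` and iso-invariance -/
def S_CH : Prop :=
  ∀ (R : Type u) [CommRing R] (C : FlatRes R) (X Y Z : Type u) [AddCommGroup X] [Module R X]
    [AddCommGroup Y] [Module R Y] [AddCommGroup Z] [Module R Z] (f : X →ₗ[R] Y) (g : Y →ₗ[R] Z),
    SES f g →
      (∀ p, p < C.m → ExAt C X p → ExAt C Z p → ExAt C Y p) ∧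
      (∀ p, p < C.m → ExAt C Y p → (∀ q, q + 1 = p → ExAt C Z q) → ExAt C X p) ∧
      (∀ p, p + 1 < C.m → ExAt C Y p → ExAt C X (p + 1) → ExAt C Z p)

/-- IS: iso-invariance, flat modules, tensoring with flat modules, direct summands, direct sums,
unions of chains of submodules -/
def S_IS : Prop :=
  ∀ (R : Type u) [CommRing R] (C : FlatRes R) (p : ℕ), p < C.m →
    (∀ (X : Type u) [AddCommGroup X] [Module R X], Module.Flat R X → ExAt C X p) ∧
    (∀ (X S : Type u) [AddCommGroup X] [Module R X] [AddCommGroup S] [Module R S],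
      Module.Flat R S → ExAt C X p → ExAt C (S ⊗[R] X) p) ∧
    (∀ (X Y : Type u) [AddCommGroup X] [Module R X] [AddCommGroup Y] [Module R Y]
      (i : X →ₗ[R] Y) (π : Y →ₗ[R] X), π ∘ₗ i = LinearMap.id → ExAt C Y p → ExAt C X p) ∧
    (∀ (X : Type u) [AddCommGroup X] [Module R X] (ι : Type u), ExAt C X p →
      ExAt C (ι →₀ X) p) ∧
    (∀ (X : Type u) [AddCommGroup X] [Module R X] (U : ℕ → Submodule R X), Monotone U →
      (∀ x, ∃ k, x ∈ U k) → (∀ k, ExAt C (U k) p) → ExAt C X p)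

/-- WL: depth lemmas -/
def S_WL : Prop :=
  ∀ (R : Type u) [CommRing R] (r : ℕ) (y : Fin r → R) (X Y Z : Type u) [AddCommGroup X]
    [Module R X] [AddCommGroup Y] [Module R Y] [AddCommGroup Z] [Module R Z] (f : X →ₗ[R] Y)
    (g : Y →ₗ[R] Z), SES f g → ∀ e : ℕ,
      (Wlt y e X → Wlt y e Z → Wlt y e Y) ∧
      (Wlt y (e + 1) Y → Wlt y e Z → Wlt y (e + 1) X) ∧
      (Wlt y (e + 1) X → Wlt y e Y → Wlt y e Z)

/-- WR: depth and a regular element -/
def S_WR : Prop :=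
  ∀ (R : Type u) [CommRing R] (r : ℕ) (y : Fin r → R) (X Z : Type u) [AddCommGroup X]
    [Module R X] [AddCommGroup Z] [Module R Z] (x : R) (g : X →ₗ[R] Z),
    x ∈ Ideal.span (Set.range y) → SES (LinearMap.lsmul R X x) g → ∀ e : ℕ,
      (Wlt y e Z ↔ Wlt y (e + 1) X)

/-- WI: iso-invariance of `W`, `GKill`, `TF`, the kernel of `eta`, `W p (B ⊗ X)` -/
def S_WI : Prop :=
  ∀ (R : Type u) [CommRing R] (r : ℕ) (y : Fin r → R) (X Y : Type u) [AddCommGroup X]
    [Module R X] [AddCommGroup Y] [Module R Y],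
    (∀ x : X, eta y X x = 0 ↔ ∀ k, ∃ N : ℕ, y k ^ N • x = 0) ∧
    (∀ x : X, eta y X x = 0 ↔ ∃ N : ℕ, ∀ a ∈ Ideal.span (Set.range y) ^ N, a • x = 0) ∧
    (∀ p, W y p (Bk y ⊗[R] X)) ∧
    (∀ p, W y p X ↔ GKill y p 1 X) ∧
    (∀ _ : X ≃ₗ[R] Y, (∀ p, W y p X → W y p Y) ∧ (∀ p a, GKill y p a X → GKill y p a Y) ∧
      (∀ (w : Ideal R) p, TF y w p X → TF y w p Y))

/-- BR: the Čech type resolution -/
def S_BR : Prop :=
  ∀ (R : Type u) [CommRing R] (r : ℕ) (y : Fin r → R) (w : Ideal R) [w.IsPrime] (t : ℕ),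
    Wlt y t (Lw w R) → ∃ C : FlatRes R, C.m = t ∧
      ∀ p, p < t → ∀ (a : R) (M : Type u) [AddCommGroup M] [Module R M],
        KillAt C M a p → GKill y p a (Lw w M)

/-- LT: if the homology of `F ⊗ X`, local at `w`, vanishes at all primes `q < w`, then it is
`w`-torsion -/
def S_LT : Prop :=
  ∀ (R : Type u) [CommRing R] (C : FlatRes R) (w : Ideal R) [w.IsPrime] (X : Type u)
    [AddCommGroup X] [Module R X], (∀ p, WLoc w (C.F p ⊗[R] X)) → ∀ p, p < C.m →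
    (∀ (q : Ideal R) [q.IsPrime], q < w → ExAt C (Lw q X) p) →
    ∀ z : C.F p ⊗[R] X, (C.δ p).rTensor X z = 0 → ∀ a ∈ w, ∃ N : ℕ, Bd C X p (a ^ N • z)

/-- PI: products of flat modules, tensor products of products with finitely presented modules, over a
noetherian ring -/
def S_PI : Prop :=
  ∀ (R : Type u) [CommRing R] [IsNoetherianRing R] (N : Type u) [AddCommGroup N] [Module R N]
    [Module.Finite R N] (F : Type u) [AddCommGroup F] [Module R F],
    (∀ z : (ℕ → F) ⊗[R] N, (∀ k, (LinearMap.proj k : (ℕ → F) →ₗ[R] F).rTensor N z = 0) → z = 0) ∧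
    (∀ e : ℕ → F ⊗[R] N, ∃ z : (ℕ → F) ⊗[R] N,
      ∀ k, (LinearMap.proj k : (ℕ → F) →ₗ[R] F).rTensor N z = e k) ∧
    (Module.Flat R F → Module.Flat R (ℕ → F))

/-- UA: uniform annihilation -/
def S_UA : Prop :=
  ∀ (R : Type u) [CommRing R] [IsNoetherianRing R] (n : ℕ) (w : Ideal R) [w.IsPrime] (N : Type u)
    [AddCommGroup N] [Module R N] [Module.Finite R N],
    (∀ (q : Ideal R) [q.IsPrime], q < w → RfdLE R n (Lw q N)) →
    ∀ (C : FlatRes R) (p : ℕ), p + n < C.m → ∃ s : ℕ, ∀ a ∈ w ^ s, KillAt C (Lw w N) a p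

/-- FG: finite generation -/
def S_FG : Prop :=
  ∀ (R : Type u) [CommRing R] [IsNoetherianRing R] (r : ℕ) (y : Fin r → R) (w : Ideal R)
    [w.IsPrime], Ideal.span (Set.range y) = w → ∀ (j : ℕ) (N : Type u) [AddCommGroup N]
    [Module R N] [Module.Finite R N], Wlt y j (Lw w N) →
    (∃ s : ℕ, ∀ a ∈ w ^ s, GKill y j a (Lw w N)) → TF y w j (Lw w N)

/-- KK: killing a local cohomology module by an extension -/
def S_KK : Prop :=
  ∀ (R : Type u) [CommRing R] [IsNoetherianRing R] (r : ℕ) (y : Fin r → R) (w : Ideal R)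
    [w.IsPrime], Ideal.span (Set.range y) = w → ∀ (t : ℕ), Wlt y t (Lw w R) →
    ∀ (j : ℕ), 1 ≤ j → j < t → ∀ (X : Type u) [AddCommGroup X] [Module R X], WLoc w X →
    Wlt y j X → TF y w j X →
    ∃ (C : Type u) (_ : AddCommGroup C) (_ : Module R C) (_ : Module.Finite R C)
      (X' : Type u) (_ : AddCommGroup X') (_ : Module R X') (i : X →ₗ[R] X')
      (π : X' →ₗ[R] Lw w C), Off w C ∧ WLoc w X' ∧ SES i π ∧ Wlt y (j + 1) X' ∧
      ∀ (Z : Type u) [AddCommGroup Z] [Module R Z], WLoc w Z → Wlt y (j + 1) Z →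
        ∀ φ : X →ₗ[R] Z, ∃ φ' : X' →ₗ[R] Z, φ' ∘ₗ i = φ

/-- GL: globalizing an extension -/
def S_GL : Prop :=
  ∀ (R : Type u) [CommRing R] [IsNoetherianRing R] (w : Ideal R) [w.IsPrime]
    (N C M : Type u) [AddCommGroup N] [Module R N] [Module.Finite R N] [AddCommGroup C]
    [Module R C] [Module.Finite R C] [AddCommGroup M] [Module R M] (X' : Type u) [AddCommGroup X']
    [Module R X'], WLoc w X' → ∀ (i : Lw w N →ₗ[R] X') (π : X' →ₗ[R] Lw w C), SES i π →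
    ∀ (φ : N →ₗ[R] M) (φ' : X' →ₗ[R] Lw w M), φ' ∘ₗ i = Lmap w φ →
    ∃ (N' : Type u) (_ : AddCommGroup N') (_ : Module R N') (_ : Module.Finite R N')
      (ι : N →ₗ[R] N') (ρ : N' →ₗ[R] C) (ψ : N' →ₗ[R] M), SES ι ρ ∧ ψ ∘ₗ ι = φ ∧
      Nonempty (X' ≃ₗ[R] Lw w N')

/-- G0: the case of depth zero -/
def S_G0 : Prop :=
  ∀ (R : Type u) [CommRing R] [IsNoetherianRing R] (r : ℕ) (y : Fin r → R) (w : Ideal R)
    [w.IsPrime], Ideal.span (Set.range y) = w → ∀ (N M : Type u) [AddCommGroup N] [Module R N]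
    [Module.Finite R N] [AddCommGroup M] [Module R M] (φ : N →ₗ[R] M), W y 0 (Lw w M) →
    ∃ K : Submodule R N, K ≤ LinearMap.ker φ ∧ (∃ s : ℕ, ∀ a ∈ w ^ s, ∀ x ∈ K, a • x = 0) ∧
      W y 0 (Lw w (N ⧸ K))

/-- FD: the depth of a local ring is finite -/
def S_FD : Prop :=
  ∀ (R : Type u) [CommRing R] [IsNoetherianRing R] (r : ℕ) (y : Fin r → R) (w : Ideal R)
    [w.IsPrime], Ideal.span (Set.range y) = w → ∃ t : ℕ, Wlt y t (Lw w R) ∧ ¬ W y t (Lw w R)

/-- RG: regular elements -/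
def S_RG : Prop :=
  ∀ (R : Type u) [CommRing R] [IsNoetherianRing R] (r : ℕ) (y : Fin r → R) (w : Ideal R)
    [w.IsPrime], Ideal.span (Set.range y) = w → ∀ (N : Type u) [AddCommGroup N] [Module R N]
    [Module.Finite R N], W y 0 (Lw w N) →
    ∃ x ∈ w, Function.Injective (LinearMap.lsmul R (Lw w N) x) ∧
      ∃ s ∉ w, ∀ (q : Ideal R) [q.IsPrime], s ∉ q →
        Function.Injective (LinearMap.lsmul R (Lw q N) x)

/-- ST: step 1 -/
def S_ST : Prop :=
  ∀ (R : Type u) [CommRing R] [IsNoetherianRing R] (r : ℕ) (y : Fin r → R) (w : Ideal R)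
    [w.IsPrime], Ideal.span (Set.range y) = w → ∀ (t : ℕ), Wlt y t (Lw w R) →
    ¬ W y t (Lw w R) → ∀ (C : FlatRes R) (A : Type u) [AddCommGroup A] [Module R A], WLoc w A →
    (∀ x : A, eta y A x = 0) → ∀ p, p + t < C.m → ExAt C A p

/-- BB: the depth condition implies restricted flat dimension at most `n` at `w` -/
def S_BB : Prop :=
  ∀ (R : Type u) [CommRing R] [IsNoetherianRing R] (n : ℕ) (w : Ideal R) [w.IsPrime] (M : Type u)
    [AddCommGroup M] [Module R M],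
    (∀ (q : Ideal R) [q.IsPrime], q < w → RfdLE R n (Lw q M)) →
    ∀ (r : ℕ) (y : Fin r → R), Ideal.span (Set.range y) = w → ∀ (t : ℕ), Wlt y t (Lw w R) →
    ¬ W y t (Lw w R) → (∀ p, p + n < t → W y p (Lw w M)) → RfdLE R n (Lw w M)

/-- OP: openness -/
def S_OP : Prop :=
  ∀ (R : Type u) [CommRing R] [IsNoetherianRing R] (n : ℕ) (w : Ideal R) [w.IsPrime] (N : Type u)
    [AddCommGroup N] [Module R N] [Module.Finite R N], Cond n w N →
    ∃ s ∉ w, ∀ (q : Ideal R) [q.IsPrime], w ≤ q → s ∉ q → Cond n q N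

/-- LG: local-global principles -/
def S_LG : Prop :=
  ∀ (R : Type u) [CommRing R] (C : FlatRes R) (p : ℕ) (M : Type u) [AddCommGroup M] [Module R M],
    p < C.m → ((∀ (q : Ideal R) [q.IsPrime], ExAt C (Lw q M) p) → ExAt C M p) ∧
    (∀ (q : Ideal R) [q.IsPrime], ExAt C M p → ExAt C (Lw q M) p) ∧
    (∀ (q w : Ideal R) [q.IsPrime] [w.IsPrime], q ≤ w → ExAt C (Lw q M) p →
      ExAt C (Lw q (Lw w M)) p)

/-- LZ: Lazard's criterion -/
def S_LZ : Prop :=
  ∀ (R : Type u) [CommRing R] [IsNoetherianRing R]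
    (P : ∀ (N : Type u) [AddCommGroup N] [Module R N], Prop),
    (∀ (N N' : Type u) [AddCommGroup N] [Module R N] [AddCommGroup N'] [Module R N']
      (_ : N ≃ₗ[R] N'), P N → P N') →
    ∀ (M : Type u) [AddCommGroup M] [Module R M],
    (∀ (N : Type u) [AddCommGroup N] [Module R N] [Module.Finite R N] (φ : N →ₗ[R] M),
      ∃ (N' : Type u) (_ : AddCommGroup N') (_ : Module R N') (_ : Module.Finite R N')
        (f : N →ₗ[R] N') (g : N' →ₗ[R] M), P N' ∧ g ∘ₗ f = φ) →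
    ∃ (ι : Type u) (_ : Preorder ι) (_ : IsDirectedOrder ι) (_ : Nonempty ι) (_ : DecidableEq ι)
      (G : ι → Type u) (_ : ∀ i, AddCommGroup (G i)) (_ : ∀ i, Module R (G i))
      (f : ∀ i j, i ≤ j → G i →ₗ[R] G j) (_ : DirectedSystem G fun i j h => f i j h),
      (∀ i, Module.Finite R (G i) ∧ P (G i)) ∧ Nonempty (Module.DirectLimit G f ≃ₗ[R] M)

/-- MN: the factorization theorem -/
def S_MN : Prop :=
  ∀ (R : Type u) [CommRing R] [IsNoetherianRing R] (n : ℕ) (M : Type u) [AddCommGroup M]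
    [Module R M], RfdLE R n M → ∀ (N : Type u) [AddCommGroup N] [Module R N] [Module.Finite R N]
    (φ : N →ₗ[R] M), ∃ (N' : Type u) (_ : AddCommGroup N') (_ : Module R N')
      (_ : Module.Finite R N') (f : N →ₗ[R] N') (g : N' →ₗ[R] M), RfdLE R n N' ∧ g ∘ₗ f = φ

end Pool.Agent.K6.H47.GL
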